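import Mathlib
import Pool.Agent.TH618.YM.SiteRP

/-!
# Reflection positivity on the torus for functions of the time slice
-/

open MeasureTheory Matrix Filter
open scoped Matrix.Norms.Frobenius ContDiff Topology
open Pool.Agent.H906R3.YM hiding Pl
open Pool.Agent.W793.YM
open Pool.Agent.TH618.YM

namespace Pool.Agent.Q235.EM

set_option linter.unusedSectionVars false
set_option linter.unusedVariables false

noncomputable section

variable {G : Type*} [Group G] [TopologicalSpace G] [IsTopologicalGroup G] [CompactSpace G]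
  [SecondCountableTopology G] [MeasurableSpace G] [BorelSpace G] (μ : Measure G)
  [IsProbabilityMeasure μ] [μ.IsMulLeftInvariant] [μ.IsMulRightInvariant] [μ.IsInvInvariant]
  {N n : ℕ} {L : LD G N n} {d m : ℕ} [NeZero m] {τ : Fin d}

lemma sp_reflA (hm : 2 ≤ m) {F : (Ed d (2 * m) → G) → ℝ} (hF : Sp τ F) (z : Fin d → ZMod (2 * m))
    (U : Ed d (2 * m) → G) : F (tr z ((TR hm τ).tU U)) = F (tr (rA τ z) U) := by
  refine hF _ _ fun x i hx hi => ?_
  unfold tr
  simp only
  rw [tU_ne _ _ hi]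
  congr 2
  unfold rA
  funext j
  by_cases hj : j = τ
  · subst hj; simp [hx]
  · simp [hj]

lemma sp_reflB (hm : 2 ≤ m) {F : (Ed d (2 * m) → G) → ℝ} (hF : Sp τ F) (z : Fin d → ZMod (2 * m))
    (U : Ed d (2 * m) → G) : F (tr z ((SR hm τ).tU U)) = F (tr (rB τ z) U) := by
  refine hF _ _ fun x i hx hi => ?_
  unfold tr
  simp only
  rw [sU_ne _ _ hi]
  congr 2
  unfold rB
  funext j
  by_cases hj : j = τ
  · subst hj; simp [hx]
  · simp [hj]

lemma sp_depA (hm : 2 ≤ m) {F : (Ed d (2 * m) → G) → ℝ} (hF : Sp τ F)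
    {z : Fin d → ZMod (2 * m)} (hz : H1 m (z τ)) : Dep (TR hm τ).R fun U => F (tr z U) := by
  intro U U' h
  refine hF _ _ fun x i hx hi => ?_
  unfold tr
  refine h _ ?_
  show if i = τ then _ else _
  rw [if_neg hi]
  have h1 : (x + z : Fin d → ZMod (2 * m)) τ = z τ := by
    simp [hx]
  simp only [h1]
  exact hz

lemma sp_depB (hm : 2 ≤ m) {F : (Ed d (2 * m) → G) → ℝ} (hF : Sp τ F)
    {z : Fin d → ZMod (2 * m)} (hz : (z τ).val ≤ m) : Dep (HQ τ) fun U => F (tr z U) := by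
  intro U U' h
  refine hF _ _ fun x i hx hi => ?_
  unfold tr
  refine h _ ?_
  unfold HQ
  rw [if_neg hi]
  have h1 : (x + z : Fin d → ZMod (2 * m)) τ = z τ := by
    simp [hx]
  simp only [h1]
  exact hz

lemma sp_fixA {F : (Ed d (2 * m) → G) → ℝ} (hF : Sp τ F) (z : Fin d → ZMod (2 * m))
    (U : Ed d (2 * m) → G) : F (tr z (fix τ U)) = F (tr z U) := by
  refine hF _ _ fun x i hx hi => ?_
  unfold tr
  exact fix_ne _ _ hi

/-- reflection positivity, the reflection exchanges the times `k` and `1 - k` -/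
theorem rpA (hm : 2 ≤ m) {β : ℝ} (hβ : 0 ≤ β) {ι : Type*} (s : Finset ι)
    (F : ι → (Ed d (2 * m) → G) → ℝ) (hc : ∀ i, Continuous (F i)) (hg : ∀ i, GI (F i))
    (hF : ∀ i, Sp τ (F i)) (z : ι → Fin d → ZMod (2 * m)) (hz : ∀ i ∈ s, H1 m (z i τ)) :
    0 ≤ Zt μ L β (fun U => (∑ i ∈ s, F i (tr (z i) U)) * ∑ i ∈ s, F i (tr (rA τ (z i)) U)) := by
  obtain ⟨c, hc0, hred⟩ := Zt_red μ (L := L) hm τ β
  have hcc : Continuous fun U : Ed d (2 * m) → G =>
      (∑ i ∈ s, F i (tr (z i) U)) * ∑ i ∈ s, F i (tr (rA τ (z i)) U) :=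
    (continuous_finsetSum _ fun i _ => (hc i).comp (tr_cont _)).mul
      (continuous_finsetSum _ fun i _ => (hc i).comp (tr_cont _))
  have hgg : GI fun U : Ed d (2 * m) → G =>
      (∑ i ∈ s, F i (tr (z i) U)) * ∑ i ∈ s, F i (tr (rA τ (z i)) U) := fun γ U => by
    have e1 : ∀ i (y : Fin d → ZMod (2 * m)), F i (tr y (gt γ U)) = F i (tr y U) :=
      fun i y => GI_tr (hg i) y γ U
    simp only [e1]
  rw [hred _ hcc hgg]
  refine mul_nonneg hc0.le ?_
  have h1 := (TR hm τ).B_self μ (L := L) hβ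
    (f := fun U => (∑ i ∈ s, F i (tr (z i) U)) * (wR L β m τ).1 U)
    ((continuous_finsetSum _ fun i _ => (hc i).comp (tr_cont _)).mul (Sm_cont _))
    (fun U U' h => by
      have e2 := wR_dep (L := L) hm β τ U U' h
      have e1 : ∀ i ∈ s, F i (tr (z i) U) = F i (tr (z i) U') := fun i hi =>
        sp_depA hm (hF i) (hz i hi) U U' h
      show (∑ i ∈ s, F i (tr (z i) U)) * _ = (∑ i ∈ s, F i (tr (z i) U')) * _
      rw [Finset.sum_congr rfl e1, e2])
  refine h1.trans (le_of_eq ?_)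
  unfold Refl.Ew Refl.B
  refine integral_congr_ae (Filter.Eventually.of_forall fun U => ?_)
  simp only
  have e3 : ∀ i, F i (tr (z i) ((TR hm τ).tU U)) = F i (tr (rA τ (z i)) U) := fun i =>
    sp_reflA hm (hF i) _ U
  have e4 : ∀ i y, F i (tr y (fix τ U)) = F i (tr y U) := fun i y => sp_fixA (hF i) y U
  simp only [e3, e4]
  ring

/-- reflection positivity, the reflection exchanges the times `k` and `-k` -/
theorem rpB (hm : 2 ≤ m) (β : ℝ) {ι : Type*} (s : Finset ι)
    (F : ι → (Ed d (2 * m) → G) → ℝ) (hc : ∀ i, Continuous (F i))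
    (hF : ∀ i, Sp τ (F i)) (z : ι → Fin d → ZMod (2 * m)) (hz : ∀ i ∈ s, (z i τ).val ≤ m) :
    0 ≤ Zt μ L β (fun U => (∑ i ∈ s, F i (tr (z i) U)) * ∑ i ∈ s, F i (tr (rB τ (z i)) U)) := by
  have h1 := SB_self μ (SR hm τ) (PP τ) PP_fix PP_th
    (f := fun U : Ed d (2 * m) → G => (∑ i ∈ s, F i (tr (z i) U)) * Real.exp (-(β * sS L τ U)))
    ((continuous_finsetSum _ fun i _ => (hc i).comp (tr_cont _)).mul
      (Real.continuous_exp.comp (continuous_const.mul (sS_cont τ)).neg))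
    (Dep_HQ hm fun U U' h => by
      have e2 := sS_dep (L := L) hm U U' h
      have e1 : ∀ i ∈ s, F i (tr (z i) U) = F i (tr (z i) U') := fun i hi =>
        sp_depB hm (hF i) (hz i hi) U U' h
      show (∑ i ∈ s, F i (tr (z i) U)) * _ = (∑ i ∈ s, F i (tr (z i) U')) * _
      rw [Finset.sum_congr rfl e1, e2])
  refine h1.trans (le_of_eq ?_)
  unfold SB Zt
  refine integral_congr_ae (Filter.Eventually.of_forall fun U => ?_)
  simp only
  have e3 : ∀ i, F i (tr (z i) ((SR hm τ).tU U)) = F i (tr (rB τ (z i)) U) := fun i =>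
    sp_reflB hm (hF i) _ U
  simp only [e3]
  rw [act_sS (i0 := τ) hm]
  have h2 : ∀ a b : ℝ, Real.exp (-(β * (a + b))) =
      Real.exp (-(β * a)) * Real.exp (-(β * b)) := by
    intro a b
    rw [← Real.exp_add]
    congr 1; ring
  rw [h2]
  ring

/-- invariance under the reflection which exchanges the times `k` and `-k` -/
theorem refB (hm : 2 ≤ m) (β : ℝ) (F H : (Ed d (2 * m) → G) → ℝ)
    (hF : Sp τ F) (hH : Sp τ H) (y z : Fin d → ZMod (2 * m)) :
    Zt μ L β (fun U => F (tr y U) * H (tr z U)) =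
      Zt μ L β (fun U => F (tr (rB τ y) U) * H (tr (rB τ z) U)) := by
  unfold Zt
  rw [← (SR hm τ).integral μ]
  refine integral_congr_ae (Filter.Eventually.of_forall fun U => ?_)
  simp only
  rw [sp_reflB hm hF, sp_reflB hm hH, act_sS (i0 := τ) hm, act_sS (i0 := τ) hm, (SR hm τ).tU_tU,
    add_comm]

end

end Pool.Agent.Q235.EM
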