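import Mathlib

/-!
# Joint spectral measures in commutative C*-algebras
-/

open MeasureTheory Filter Complex ComplexConjugate
open scoped Topology

namespace Pool.Agent.Q235.EM

set_option linter.unusedSectionVars false

noncomputable section

section riesz

variable {X : Type*} [TopologicalSpace X] [CompactSpace X] [T2Space X] [MeasurableSpace X]
  [BorelSpace X]

/-- the complex function of a real one -/
def toC (f : C(X, ℝ)) : C(X, ℂ) := ⟨fun x => (f x : ℂ), Complex.continuous_ofReal.comp f.continuous⟩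

lemma toC_add (f g : C(X, ℝ)) : toC (f + g) = toC f + toC g := by
  ext x; simp [toC]

lemma toC_smul (c : ℝ) (f : C(X, ℝ)) : toC (c • f) = (c : ℂ) • toC f := by
  ext x; simp [toC]

/-- The Riesz representation theorem for positive functionals on complex functions. -/
theorem riesz (Λ : C(X, ℂ) →ₗ[ℂ] ℂ)
    (hΛ : ∀ g : C(X, ℂ), ∃ r : ℝ, 0 ≤ r ∧ Λ (star g * g) = r) :
    ∃ ρ : Measure X, IsFiniteMeasure ρ ∧ ∀ g : C(X, ℂ), Λ g = ∫ x, g x ∂ρ := by
  have hnn : ∀ f : C(X, ℝ), 0 ≤ f → ∃ r : ℝ, 0 ≤ r ∧ Λ (toC f) = r := by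
    intro f hf
    obtain ⟨r, hr, h⟩ := hΛ ⟨fun x => (Real.sqrt (f x) : ℂ),
      Complex.continuous_ofReal.comp (Real.continuous_sqrt.comp f.continuous)⟩
    refine ⟨r, hr, ?_⟩
    rw [← h]
    congr 1
    ext x
    have h1 : 0 ≤ f x := hf x
    simp only [toC, ContinuousMap.coe_mk, ContinuousMap.mul_apply, ContinuousMap.star_apply,
      RCLike.star_def, Complex.conj_ofReal]
    rw [← Complex.ofReal_mul, Real.mul_self_sqrt h1]
  have hre : ∀ f : C(X, ℝ), (Λ (toC f)).im = 0 := by
    intro f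
    obtain ⟨r1, -, h1⟩ := hnn (f ⊔ 0) (by exact le_sup_right)
    obtain ⟨r2, -, h2⟩ := hnn ((-f) ⊔ 0) (by exact le_sup_right)
    have h3 : toC f = toC (f ⊔ 0) - toC ((-f) ⊔ 0) := by
      ext x
      simp only [toC, ContinuousMap.coe_mk, ContinuousMap.sub_apply, ContinuousMap.sup_apply,
        ContinuousMap.neg_apply, ContinuousMap.zero_apply]
      rw [← Complex.ofReal_sub]
      congr 1
      rcases le_total (f x) 0 with h | h
      · rw [sup_eq_right.2 h, sup_eq_left.2 (by linarith)]; ring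
      · rw [sup_eq_left.2 h, sup_eq_right.2 (by linarith)]; ring
    rw [h3, map_sub, h1, h2, ← Complex.ofReal_sub, Complex.ofReal_im]
  let L0 : CompactlySupportedContinuousMap X ℝ →ₗ[ℝ] ℝ :=
    { toFun := fun f => (Λ (toC f.toContinuousMap)).re
      map_add' := fun f g => by
        have : (f + g).toContinuousMap = f.toContinuousMap + g.toContinuousMap := rfl
        rw [this, toC_add, map_add, Complex.add_re]
      map_smul' := fun c f => by
        have : (c • f).toContinuousMap = c • f.toContinuousMap := rfl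
        rw [this, toC_smul, map_smul]
        simp }
  let L1 : CompactlySupportedContinuousMap X ℝ →ₚ[ℝ] ℝ := PositiveLinearMap.mk₀ L0 (by
    intro f hf
    obtain ⟨r, hr, h⟩ := hnn f.toContinuousMap (fun x => hf x)
    show 0 ≤ (Λ (toC f.toContinuousMap)).re
    rw [h]; exact hr)
  have hcc : ∀ f : C(X, ℝ), ∫ x, f x ∂(RealRMK.rieszMeasure L1) = (Λ (toC f)).re := by
    intro f
    have h := RealRMK.integral_rieszMeasure L1 (CompactlySupportedContinuousMap.continuousMapEquiv f)
    exact h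
  have hfin : IsFiniteMeasure (RealRMK.rieszMeasure L1) := by
    have := RealRMK.regular_rieszMeasure L1
    infer_instance
  refine ⟨RealRMK.rieszMeasure L1, hfin, fun g => ?_⟩
  obtain ⟨a, ha⟩ : ∃ a : C(X, ℝ), a = ⟨fun x => (g x).re, Complex.continuous_re.comp g.continuous⟩ :=
    ⟨_, rfl⟩
  obtain ⟨b, hb⟩ : ∃ b : C(X, ℝ), b = ⟨fun x => (g x).im, Complex.continuous_im.comp g.continuous⟩ :=
    ⟨_, rfl⟩
  have h1 : g = toC a + Complex.I • toC b := by
    ext x
    rw [ha, hb]
    simp only [toC, ContinuousMap.coe_mk, ContinuousMap.add_apply, ContinuousMap.smul_apply,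
      smul_eq_mul]
    rw [mul_comm Complex.I, Complex.re_add_im]
  have h2 : ∀ f : C(X, ℝ), Λ (toC f) = ((∫ x, f x ∂(RealRMK.rieszMeasure L1) : ℝ) : ℂ) := by
    intro f
    rw [hcc]
    apply Complex.ext
    · rw [Complex.ofReal_re]
    · rw [Complex.ofReal_im, hre]
  have hint : ∀ f : C(X, ℂ), Integrable (fun x => f x) (RealRMK.rieszMeasure L1) := fun f =>
    f.continuous.integrable_of_hasCompactSupport (HasCompactSupport.of_compactSpace _)
  conv_lhs => rw [h1]
  rw [map_add, map_smul, h2, h2]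
  have h3 : ∀ x, g x = ((a x : ℝ) : ℂ) + Complex.I * ((b x : ℝ) : ℂ) := by
    intro x
    have := congrArg (fun f : C(X, ℂ) => f x) h1
    simpa [toC] using this
  simp only [h3]
  have hi1 : Integrable (fun x => ((a x : ℝ) : ℂ)) (RealRMK.rieszMeasure L1) := hint (toC a)
  have hi2 : Integrable (fun x => ((b x : ℝ) : ℂ)) (RealRMK.rieszMeasure L1) := hint (toC b)
  have e1 : ∫ x, ((a x : ℝ) : ℂ) ∂(RealRMK.rieszMeasure L1) =
      ((∫ x, a x ∂(RealRMK.rieszMeasure L1) : ℝ) : ℂ) := integral_ofReal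
  have e2 : ∫ x, ((b x : ℝ) : ℂ) ∂(RealRMK.rieszMeasure L1) =
      ((∫ x, b x ∂(RealRMK.rieszMeasure L1) : ℝ) : ℂ) := integral_ofReal
  rw [integral_add hi1 (hi2.const_mul _), integral_const_mul, e1, e2, smul_eq_mul]

end riesz

section calg

variable {D : ℕ}

/-- The space of the pairs of a real number and of a point of `ℂ^D`. -/
abbrev Sp (D : ℕ) := ℝ × (Fin D → ℂ)

/-- the moments -/
def mon (t : ℕ) (x : Fin D → ℤ) (q : Sp D) : ℂ := (q.1 : ℂ) ^ t * ∏ j, q.2 j ^ x j

/-- The joint spectral measure in a commutative C*-algebra. -/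
theorem calg {A : Type*} [CommCStarAlgebra A] (ω : A →ₗ[ℂ] ℂ)
    (hω : ∀ a : A, ∃ r : ℝ, 0 ≤ r ∧ ω (star a * a) = r) (T : A) (U : Fin D → unitary A)
    (hT : ∀ χ : WeakDual.characterSpace ℂ A, ∃ r : ℝ, 0 ≤ r ∧ r ≤ 1 ∧ χ T = r) :
    ∃ ρ : Measure (Sp D), IsFiniteMeasure ρ ∧
      (∀ᵐ q ∂ρ, 0 ≤ q.1 ∧ q.1 ≤ 1 ∧ ∀ j, ‖q.2 j‖ = 1) ∧ ∀ (t : ℕ) (x : Fin D → ℤ),
      ω (T ^ t * ∏ j, ((U j ^ x j : unitary A) : A)) = ∫ q, mon t x q ∂ρ := by
  let _ : MeasurableSpace (WeakDual.characterSpace ℂ A) := borel _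
  have : BorelSpace (WeakDual.characterSpace ℂ A) := ⟨rfl⟩
  obtain ⟨ρ, hρ, h⟩ := riesz (X := WeakDual.characterSpace ℂ A)
    ({ toFun := fun g => ω ((gelfandStarTransform A).symm g)
       map_add' := fun f g => by rw [map_add, map_add]
       map_smul' := fun c f => by rw [map_smul, map_smul]; rfl } :
        C(WeakDual.characterSpace ℂ A, ℂ) →ₗ[ℂ] ℂ) (fun g => by
      obtain ⟨r, hr, h⟩ := hω ((gelfandStarTransform A).symm g)
      refine ⟨r, hr, ?_⟩
      rw [← h]
      show ω ((gelfandStarTransform A).symm (star g * g)) = _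
      rw [map_mul, map_star])
  have h' : ∀ a : A, ω a = ∫ χ : WeakDual.characterSpace ℂ A, χ a ∂ρ := by
    intro a
    have h1 := h (gelfandStarTransform A a)
    have h2 : ω ((gelfandStarTransform A).symm (gelfandStarTransform A a)) = ω a := by
      rw [StarAlgEquiv.symm_apply_apply]
    rw [← h2]
    exact h1
  obtain ⟨f, hf⟩ : ∃ f : WeakDual.characterSpace ℂ A → Sp D,
      f = fun χ => ((χ T).re, fun j => χ (U j : A)) := ⟨_, rfl⟩
  have hev : ∀ a : A, Continuous fun χ : WeakDual.characterSpace ℂ A => χ a := fun a =>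
    (gelfandStarTransform A a).continuous
  have hfc : Continuous f := by
    rw [hf]
    exact (Complex.continuous_re.comp (hev T)).prodMk (continuous_pi fun j => hev _)
  have hu : ∀ (χ : WeakDual.characterSpace ℂ A) (u : unitary A), ‖χ (u : A)‖ = 1 := by
    intro χ u
    have h1 : χ (star (u : A) * (u : A)) = 1 := by
      rw [Unitary.coe_star_mul_self, map_one]
    rw [map_mul] at h1
    have h2 : χ (star (u : A)) = conj (χ (u : A)) := by
      have := gelfandTransform_map_star (u : A)
      exact congrArg (fun g : C(WeakDual.characterSpace ℂ A, ℂ) => g χ) this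
    rw [h2, ← Complex.normSq_eq_conj_mul_self, Complex.normSq_eq_norm_sq] at h1
    have h3 : ‖χ (u : A)‖ ^ 2 = 1 := by exact_mod_cast h1
    nlinarith [norm_nonneg (χ (u : A))]
  have hz : ∀ (χ : WeakDual.characterSpace ℂ A) (u : unitary A) (k : ℤ),
      χ ((u ^ k : unitary A) : A) = χ (u : A) ^ k := by
    intro χ u k
    have hne : χ (u : A) ≠ 0 := by
      intro h0
      have := hu χ u
      rw [h0, norm_zero] at this
      exact zero_ne_one this
    have hinv : χ ((u⁻¹ : unitary A) : A) = (χ (u : A))⁻¹ := by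
      have h1 : χ ((u⁻¹ : unitary A) : A) * χ (u : A) = 1 := by
        rw [← map_mul]
        have : ((u⁻¹ : unitary A) : A) * (u : A) = 1 := by
          have h2 : (u⁻¹ * u : unitary A) = 1 := inv_mul_cancel u
          exact congrArg Subtype.val h2
        rw [this, map_one]
      exact eq_inv_of_mul_eq_one_left h1
    cases k with
    | ofNat k =>
      simp only [Int.ofNat_eq_natCast, zpow_natCast]
      rw [SubmonoidClass.coe_pow, map_pow]
    | negSucc k =>
      rw [zpow_negSucc, zpow_negSucc]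
      have h4 : ((u ^ (k + 1))⁻¹ : unitary A) = (u⁻¹) ^ (k + 1) := (inv_pow u (k + 1)).symm
      rw [h4, SubmonoidClass.coe_pow, map_pow, hinv, inv_pow]
  refine ⟨ρ.map f, Measure.isFiniteMeasure_map ρ f, ?_, fun t x => ?_⟩
  · rw [ae_map_iff hfc.aemeasurable]
    · refine Filter.Eventually.of_forall fun χ => ?_
      obtain ⟨r, h1, h2, h3⟩ := hT χ
      rw [hf]
      simp only [h3, Complex.ofReal_re]
      exact ⟨h1, h2, fun j => hu χ (U j)⟩
    · refine ((isClosed_le continuous_const continuous_fst).inter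
        ((isClosed_le continuous_fst continuous_const).inter ?_)).measurableSet
      have : {q : Sp D | ∀ j, ‖q.2 j‖ = 1} = ⋂ j, {q : Sp D | ‖q.2 j‖ = 1} := by
        ext q; simp
      show IsClosed {q : Sp D | ∀ j, ‖q.2 j‖ = 1}
      rw [this]
      exact isClosed_iInter fun j => isClosed_eq (by fun_prop) continuous_const
  · have hm : AEStronglyMeasurable (mon (D := D) t x) (ρ.map f) := by
      refine Measurable.aestronglyMeasurable ?_
      unfold mon
      fun_prop
    rw [integral_map hfc.aemeasurable hm, h']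
    refine integral_congr_ae (Filter.Eventually.of_forall fun χ => ?_)
    simp only
    obtain ⟨r, h1, h2, h3⟩ := hT χ
    rw [hf]
    unfold mon
    simp only
    rw [map_mul, map_pow, map_prod, h3, Complex.ofReal_re]
    congr 1
    exact Finset.prod_congr rfl fun j _ => hz χ (U j) (x j)

end calg

end

end Pool.Agent.Q235.EM
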