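import Mathlib
import Pool.Agent.Q235.EM.Spec

/-!
# Joint spectral measures of commuting operators
-/

open MeasureTheory Filter Complex ComplexConjugate
open scoped Topology

namespace Pool.Agent.Q235.EM

set_option linter.unusedSectionVars false

noncomputable section

variable {D : ℕ} {H : Type*} [NormedAddCommGroup H] [InnerProductSpace ℂ H] [CompleteSpace H]

/-- The joint spectral measure of a positive contraction and of commuting unitary operators. -/
theorem hilbert (T : H →L[ℂ] H) (hT : T.IsPositive) (hT1 : ‖T‖ ≤ 1)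
    (U : Fin D → unitary (H →L[ℂ] H)) (hTU : ∀ j, T * (U j : H →L[ℂ] H) = (U j : H →L[ℂ] H) * T)
    (hUU : ∀ i j, (U i : H →L[ℂ] H) * (U j : H →L[ℂ] H) = (U j : H →L[ℂ] H) * (U i : H →L[ℂ] H))
    (v : H) : ∃ ρ : Measure (Sp D), IsFiniteMeasure ρ ∧
      (∀ᵐ q ∂ρ, 0 ≤ q.1 ∧ q.1 ≤ 1 ∧ ∀ j, ‖q.2 j‖ = 1) ∧ ∀ (t : ℕ) (x : Fin D → ℤ),
      inner ℂ v ((T ^ t * (((List.finRange D).map fun j =>
        ((U j ^ x j : unitary (H →L[ℂ] H)) : H →L[ℂ] H)).prod)) v) = ∫ q, mon t x q ∂ρ := by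
  obtain ⟨S, hS⟩ : ∃ S : Set (H →L[ℂ] H), S = {T} ∪ Set.range fun j => (U j : H →L[ℂ] H) :=
    ⟨_, rfl⟩
  have hTs : star T = T := by
    rw [ContinuousLinearMap.star_eq_adjoint]
    exact hT.isSelfAdjoint
  have hstar : ∀ (a : H →L[ℂ] H) (u : unitary (H →L[ℂ] H)),
      a * (u : H →L[ℂ] H) = (u : H →L[ℂ] H) * a →
      a * star (u : H →L[ℂ] H) = star (u : H →L[ℂ] H) * a := by
    intro a u h
    have h1 : star (u : H →L[ℂ] H) * (u : H →L[ℂ] H) = 1 := Unitary.coe_star_mul_self u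
    have h2 : (u : H →L[ℂ] H) * star (u : H →L[ℂ] H) = 1 := Unitary.coe_mul_star_self u
    calc a * star (u : H →L[ℂ] H) = (star (u : H →L[ℂ] H) * (u : H →L[ℂ] H)) * a *
          star (u : H →L[ℂ] H) := by rw [h1, one_mul]
      _ = star (u : H →L[ℂ] H) * ((u : H →L[ℂ] H) * a) * star (u : H →L[ℂ] H) := by
          simp only [mul_assoc]
      _ = star (u : H →L[ℂ] H) * (a * (u : H →L[ℂ] H)) * star (u : H →L[ℂ] H) := by rw [h]
      _ = star (u : H →L[ℂ] H) * a * ((u : H →L[ℂ] H) * star (u : H →L[ℂ] H)) := by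
          simp only [mul_assoc]
      _ = _ := by rw [h2, mul_one]
  have hcomm : ∀ a ∈ S, ∀ b ∈ S, a * b = b * a := by
    intro a ha b hb
    rw [hS] at ha hb
    rcases ha with rfl | ⟨i, rfl⟩ <;> rcases hb with rfl | ⟨j, rfl⟩
    · rfl
    · exact hTU j
    · exact (hTU i).symm
    · exact hUU i j
  have hcomm' : ∀ a ∈ S, ∀ b ∈ S, a * star b = star b * a := by
    intro a ha b hb
    have hab := hcomm a ha b hb
    rw [hS] at hb
    rcases hb with rfl | ⟨j, rfl⟩
    · rw [hTs]; exact hab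
    · exact hstar a (U j) hab
  obtain ⟨B, hB⟩ : ∃ B : StarSubalgebra ℂ (H →L[ℂ] H),
      B = (StarAlgebra.adjoin ℂ S).topologicalClosure := ⟨_, rfl⟩
  have hBc : IsClosed (B : Set (H →L[ℂ] H)) := by
    rw [hB]; exact StarSubalgebra.isClosed_topologicalClosure _
  have hBm : ∀ x y : B, x * y = y * x := by
    have h1 : ∀ x y : (StarAlgebra.adjoin ℂ S), x * y = y * x := by
      have := StarAlgebra.isMulCommutative_adjoin ℂ hcomm hcomm'
      intro x y
      exact this.is_comm.comm x y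
    have h2 : ∀ x y : (StarAlgebra.adjoin ℂ S).topologicalClosure, x * y = y * x := by
      intro x y
      exact (StarSubalgebra.commRingTopologicalClosure _ h1).mul_comm x y
    subst hB
    exact h2
  let i1 : CStarAlgebra B := StarSubalgebra.cstarAlgebra B (h_closed := hBc)
  let i2 : CommCStarAlgebra B := { i1 with mul_comm := hBm }
  have hSB : ∀ a ∈ S, a ∈ B := fun a ha => by
    rw [hB]
    exact StarSubalgebra.le_topologicalClosure _ (StarAlgebra.subset_adjoin ℂ S ha)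
  have hTB : T ∈ B := hSB T (by rw [hS]; exact Or.inl rfl)
  have hUB : ∀ j, (U j : H →L[ℂ] H) ∈ B := fun j => hSB _ (by rw [hS]; exact Or.inr ⟨j, rfl⟩)
  obtain ⟨TB, hTBe⟩ : ∃ TB : B, (TB : H →L[ℂ] H) = T := ⟨⟨T, hTB⟩, rfl⟩
  have hcs : ∀ a : B, ((star a : B) : H →L[ℂ] H) = star (a : H →L[ℂ] H) := fun a => rfl
  have hUe : ∀ j, ∃ u : unitary B, ((u : B) : H →L[ℂ] H) = U j := by
    intro j
    refine ⟨⟨⟨U j, hUB j⟩, ?_⟩, rfl⟩
    rw [Unitary.mem_iff]
    constructor
    · exact Subtype.ext (Unitary.coe_star_mul_self (U j))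
    · exact Subtype.ext (Unitary.coe_mul_star_self (U j))
  choose UB hUBe using hUe
  let ω : B →ₗ[ℂ] ℂ :=
    { toFun := fun a => inner ℂ v ((a : H →L[ℂ] H) v)
      map_add' := fun a b => by
        show inner ℂ v (((a : H →L[ℂ] H) + (b : H →L[ℂ] H)) v) = _
        rw [ContinuousLinearMap.add_apply, inner_add_right]
      map_smul' := fun c a => by
        show inner ℂ v ((c • (a : H →L[ℂ] H)) v) = _
        rw [ContinuousLinearMap.smul_apply, inner_smul_right]
        rfl }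
  have hω : ∀ a : B, ∃ r : ℝ, 0 ≤ r ∧ ω (star a * a) = r := by
    intro a
    refine ⟨‖(a : H →L[ℂ] H) v‖ ^ 2, sq_nonneg _, ?_⟩
    show inner ℂ v ((star (a : H →L[ℂ] H) * (a : H →L[ℂ] H)) v) = _
    rw [ContinuousLinearMap.star_eq_adjoint, ContinuousLinearMap.mul_apply,
      ContinuousLinearMap.adjoint_inner_right, inner_self_eq_norm_sq_to_K]
    push_cast
    rfl
  have hχ : ∀ χ : WeakDual.characterSpace ℂ B, ∃ r : ℝ, 0 ≤ r ∧ r ≤ 1 ∧ χ TB = r := by
    intro χ
    have h1 : χ TB ∈ spectrum ℂ TB := AlgHom.apply_mem_spectrum χ TB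
    have h2 : χ TB ∈ spectrum ℂ T := by
      rw [← hTBe]
      exact (StarSubalgebra.mem_spectrum_iff B (hS := hBc)).1 h1
    have h3 : conj (χ TB) = χ TB := by
      have h4 := gelfandTransform_map_star TB
      have h5 : χ (star TB) = conj (χ TB) :=
        congrArg (fun g : C(WeakDual.characterSpace ℂ B, ℂ) => g χ) h4
      rw [← h5]
      congr 1
      apply Subtype.ext
      rw [hcs, hTBe, hTs]
    obtain ⟨r, hr⟩ : ∃ r : ℝ, χ TB = r := ⟨(χ TB).re, (Complex.conj_eq_iff_re.1 h3).symm⟩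
    refine ⟨r, ?_, ?_, hr⟩
    · have h6 : r ∈ spectrum ℝ T := by
        rw [hr] at h2
        exact (spectrum.algebraMap_mem_iff ℂ (R := ℝ)).1 h2
      exact spectrum_nonneg_of_nonneg ((ContinuousLinearMap.nonneg_iff_isPositive T).2 hT) h6
    · have h7 : ‖χ TB‖ ≤ ‖T‖ := by
        rcases subsingleton_or_nontrivial H with hH | hH
        · have h8 : TB = 0 := by
            apply Subtype.ext
            rw [hTBe]
            exact Subsingleton.elim _ _
          rw [h8, map_zero, norm_zero]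
          exact norm_nonneg _
        · exact spectrum.norm_le_norm_of_mem h2
      rw [hr, Complex.norm_real, Real.norm_eq_abs] at h7
      exact (le_abs_self r).trans (h7.trans hT1)
  obtain ⟨ρ, h1, h2, h3⟩ := calg ω hω TB UB hχ
  refine ⟨ρ, h1, h2, fun t x => ?_⟩
  rw [← h3 t x]
  show _ = inner ℂ v (((TB ^ t * ∏ j, ((UB j ^ x j : unitary B) : B) : B) : H →L[ℂ] H) v)
  have hz : ∀ j, (((UB j ^ x j : unitary B) : B) : H →L[ℂ] H) =
      ((U j ^ x j : unitary (H →L[ℂ] H)) : H →L[ℂ] H) := by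
    intro j
    have hinv : ((((UB j)⁻¹ : unitary B) : B) : H →L[ℂ] H) =
        (((U j)⁻¹ : unitary (H →L[ℂ] H)) : H →L[ℂ] H) := by
      show star ((UB j : B) : H →L[ℂ] H) = star (U j : H →L[ℂ] H)
      rw [hUBe]
    cases x j with
    | ofNat k =>
      simp only [Int.ofNat_eq_natCast, zpow_natCast]
      rw [SubmonoidClass.coe_pow, SubmonoidClass.coe_pow, SubmonoidClass.coe_pow, hUBe]
    | negSucc k =>
      rw [zpow_negSucc, zpow_negSucc]
      have h4 : ((UB j ^ (k + 1))⁻¹ : unitary B) = ((UB j)⁻¹) ^ (k + 1) := (inv_pow _ (k + 1)).symm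
      have h5 : ((U j ^ (k + 1))⁻¹ : unitary (H →L[ℂ] H)) = ((U j)⁻¹) ^ (k + 1) :=
        (inv_pow _ (k + 1)).symm
      rw [h4, h5, SubmonoidClass.coe_pow, SubmonoidClass.coe_pow, SubmonoidClass.coe_pow, hinv]
  have hp : ((TB ^ t * ∏ j, ((UB j ^ x j : unitary B) : B) : B) : H →L[ℂ] H) =
      T ^ t * (((List.finRange D).map fun j =>
        ((U j ^ x j : unitary (H →L[ℂ] H)) : H →L[ℂ] H)).prod) := by
    have h4 : ∏ j, ((UB j ^ x j : unitary B) : B) =
        ((List.finRange D).map fun j => ((UB j ^ x j : unitary B) : B)).prod := by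
      rw [← List.ofFn_eq_map, List.prod_ofFn]
    rw [h4]
    show (TB : H →L[ℂ] H) ^ t * (B.subtype _) = _
    rw [hTBe, map_list_prod, List.map_map]
    congr 2
    refine List.map_congr_left fun j _ => ?_
    exact hz j
  rw [hp]

end

end Pool.Agent.Q235.EM
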