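import Mathlib
import Pool.Agent.Q235.EM.Spec2

/-!
# Joint spectral measures, pre-Hilbert spaces
-/

open MeasureTheory Filter Complex ComplexConjugate
open scoped Topology

namespace Pool.Agent.Q235.EM

set_option linter.unusedSectionVars false

noncomputable section

variable {D : ℕ}

section pre

variable {V : Type*} [SeminormedAddCommGroup V] [InnerProductSpace ℂ V]

/-- the extension of a contraction to the completion -/
def ext1 (T : V →ₗ[ℂ] V) (h : ∀ u, ‖T u‖ ≤ ‖u‖) :
    UniformSpace.Completion V →L[ℂ] UniformSpace.Completion V :=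
  (T.mkContinuous 1 fun u => by rw [one_mul]; exact h u).completion

lemma ext1_coe (T : V →ₗ[ℂ] V) (h : ∀ u, ‖T u‖ ≤ ‖u‖) (u : V) :
    ext1 T h (u : UniformSpace.Completion V) = ((T u : V) : UniformSpace.Completion V) := by
  unfold ext1
  rw [ContinuousLinearMap.completion_apply_coe]
  rfl

lemma ext1_norm (T : V →ₗ[ℂ] V) (h : ∀ u, ‖T u‖ ≤ ‖u‖) (a : UniformSpace.Completion V) :
    ‖ext1 T h a‖ ≤ ‖a‖ := by
  refine UniformSpace.Completion.induction_on a ?_ fun u => ?_
  · exact isClosed_le (ext1 T h).continuous.norm continuous_norm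
  · rw [ext1_coe, UniformSpace.Completion.norm_coe, UniformSpace.Completion.norm_coe]
    exact h u

lemma ext1_mul (T S : V →ₗ[ℂ] V) (h : ∀ u, ‖T u‖ ≤ ‖u‖) (h' : ∀ u, ‖S u‖ ≤ ‖u‖)
    (R R' : UniformSpace.Completion V →L[ℂ] UniformSpace.Completion V)
    (hR : ∀ u : V, (R * R') (u : UniformSpace.Completion V) = ((T (S u) : V) :
      UniformSpace.Completion V)) : R * R' = ext1 T h * ext1 S h' := by
  ext a
  refine UniformSpace.Completion.induction_on a ?_ fun u => ?_
  · exact isClosed_eq (R * R').continuous (ext1 T h * ext1 S h').continuous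
  · rw [hR]
    show _ = ext1 T h (ext1 S h' _)
    rw [ext1_coe, ext1_coe]

lemma ext1_inner (T S : V →ₗ[ℂ] V) (h : ∀ u, ‖T u‖ ≤ ‖u‖) (h' : ∀ u, ‖S u‖ ≤ ‖u‖)
    (hTS : ∀ u w, inner ℂ (T u) w = inner ℂ u (S w)) (a b : UniformSpace.Completion V) :
    inner ℂ (ext1 T h a) b = inner ℂ a (ext1 S h' b) := by
  refine UniformSpace.Completion.induction_on₂ a b ?_ fun u w => ?_
  · exact isClosed_eq (by fun_prop) (by fun_prop)
  · rw [ext1_coe, ext1_coe, UniformSpace.Completion.inner_coe, UniformSpace.Completion.inner_coe]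
    exact hTS u w

/-- The joint spectral measure for commuting operators on a pre-Hilbert space. -/
theorem pre (T : V →ₗ[ℂ] V) (hTs : ∀ u w, inner ℂ (T u) w = inner ℂ u (T w))
    (hTp : ∀ u, 0 ≤ (inner ℂ (T u) u).re) (hTc : ∀ u, ‖T u‖ ≤ ‖u‖)
    (U U' : Fin D → V →ₗ[ℂ] V) (hU : ∀ j u, ‖U j u‖ ≤ ‖u‖) (hU' : ∀ j u, ‖U' j u‖ ≤ ‖u‖)
    (hUs : ∀ j u w, inner ℂ (U' j u) w = inner ℂ u (U j w))
    (h1 : ∀ j u, U j (U' j u) = u) (h2 : ∀ j u, U' j (U j u) = u)
    (hTU : ∀ j u, T (U j u) = U j (T u)) (hUU : ∀ i j u, U i (U j u) = U j (U i u))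
    (w : ℕ → (Fin D → ℤ) → V) (hwT : ∀ t x, T (w t x) = w (t + 1) x)
    (hwU : ∀ j t x, U j (w t x) = w t (x + Pi.single j 1)) :
    ∃ ρ : Measure (Sp D), IsFiniteMeasure ρ ∧
      (∀ᵐ q ∂ρ, 0 ≤ q.1 ∧ q.1 ≤ 1 ∧ ∀ j, ‖q.2 j‖ = 1) ∧ ∀ (t : ℕ) (x : Fin D → ℤ),
      inner ℂ (w 0 0) (w t x) = ∫ q, mon t x q ∂ρ := by
  have mulA : ∀ (P Q : UniformSpace.Completion V →L[ℂ] UniformSpace.Completion V)
      (a : UniformSpace.Completion V), (P * Q) a = P (Q a) := fun _ _ _ => rfl
  obtain ⟨T1, hT1⟩ : ∃ T1, T1 = ext1 T hTc := ⟨_, rfl⟩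
  obtain ⟨A, hA⟩ : ∃ A, A = fun j => ext1 (U j) (hU j) := ⟨_, rfl⟩
  obtain ⟨A', hA'⟩ : ∃ A', A' = fun j => ext1 (U' j) (hU' j) := ⟨_, rfl⟩
  have hTpos : T1.IsPositive := by
    rw [ContinuousLinearMap.isPositive_def]
    refine ⟨fun a b => ?_, fun a => ?_⟩
    · rw [hT1]
      exact ext1_inner T T hTc hTc hTs a b
    · rw [hT1]
      show 0 ≤ RCLike.re (inner ℂ (ext1 T hTc a) a)
      refine UniformSpace.Completion.induction_on a ?_ fun u => ?_
      · exact isClosed_le continuous_const (RCLike.continuous_re.comp (by fun_prop))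
      · rw [ext1_coe, UniformSpace.Completion.inner_coe]
        exact hTp u
  have hTn : ‖T1‖ ≤ 1 := by
    rw [hT1]
    exact ContinuousLinearMap.opNorm_le_bound _ zero_le_one fun a => by
      rw [one_mul]; exact ext1_norm T hTc a
  have hst : ∀ j, star (A j) = A' j := by
    intro j
    rw [ContinuousLinearMap.star_eq_adjoint]
    symm
    rw [ContinuousLinearMap.eq_adjoint_iff]
    intro a b
    rw [hA, hA']
    exact ext1_inner (U' j) (U j) (hU' j) (hU j) (hUs j) a b
  have hm1 : ∀ j, A j * A' j = 1 := by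
    intro j
    ext a
    refine UniformSpace.Completion.induction_on a ?_ fun u => ?_
    · exact isClosed_eq (A j * A' j).continuous (ContinuousLinearMap.continuous _)
    · rw [hA, hA']
      show ext1 (U j) (hU j) (ext1 (U' j) (hU' j) _) = _
      rw [ext1_coe, ext1_coe, h1]
      rfl
  have hm2 : ∀ j, A' j * A j = 1 := by
    intro j
    ext a
    refine UniformSpace.Completion.induction_on a ?_ fun u => ?_
    · exact isClosed_eq (A' j * A j).continuous (ContinuousLinearMap.continuous _)
    · rw [hA, hA']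
      show ext1 (U' j) (hU' j) (ext1 (U j) (hU j) _) = _
      rw [ext1_coe, ext1_coe, h2]
      rfl
  obtain ⟨Z, hZ⟩ : ∃ Z : Fin D → unitary (UniformSpace.Completion V →L[ℂ]
      UniformSpace.Completion V), ∀ j, (Z j : UniformSpace.Completion V →L[ℂ]
      UniformSpace.Completion V) = A j := by
    refine ⟨fun j => ⟨A j, ?_⟩, fun j => rfl⟩
    rw [Unitary.mem_iff, hst]
    exact ⟨hm2 j, hm1 j⟩
  have hZ' : ∀ j, (((Z j)⁻¹ : unitary (UniformSpace.Completion V →L[ℂ]
      UniformSpace.Completion V)) : UniformSpace.Completion V →L[ℂ]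
      UniformSpace.Completion V) = A' j := by
    intro j
    show star (Z j : UniformSpace.Completion V →L[ℂ] UniformSpace.Completion V) = _
    rw [hZ, hst]
  obtain ⟨ρ, r1, r2, r3⟩ := hilbert T1 hTpos hTn Z (fun j => by
      rw [hZ, hA, hT1]
      symm
      refine ext1_mul T (U j) hTc (hU j) _ _ fun u => ?_
      show ext1 (U j) (hU j) (ext1 T hTc _) = _
      rw [ext1_coe, ext1_coe, hTU]) (fun i j => by
      rw [hZ, hZ, hA]
      symm
      refine ext1_mul (U i) (U j) (hU i) (hU j) _ _ fun u => ?_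
      show ext1 (U j) (hU j) (ext1 (U i) (hU i) _) = _
      rw [ext1_coe, ext1_coe, hUU]) ((w 0 0 : V) : UniformSpace.Completion V)
  refine ⟨ρ, r1, r2, fun t x => ?_⟩
  rw [← r3 t x]
  have k1 : ∀ j (k : ℕ) t x, ((Z j ^ k : unitary _) : UniformSpace.Completion V →L[ℂ]
      UniformSpace.Completion V) ((w t x : V) : UniformSpace.Completion V) =
      ((w t (x + Pi.single j (k : ℤ)) : V) : UniformSpace.Completion V) := by
    intro j k
    induction k with
    | zero =>
      intro t x
      rw [pow_zero, Nat.cast_zero, Pi.single_zero, add_zero]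
      rfl
    | succ k ih =>
      intro t x
      rw [pow_succ]
      show ((Z j ^ k : unitary _) : UniformSpace.Completion V →L[ℂ]
        UniformSpace.Completion V) ((Z j : UniformSpace.Completion V →L[ℂ]
        UniformSpace.Completion V) ((w t x : V) : UniformSpace.Completion V)) = _
      rw [hZ, hA]
      simp only
      rw [ext1_coe, hwU, ih, add_assoc, ← Pi.single_add]
      push_cast
      rw [add_comm (1 : ℤ)]
  have k2 : ∀ j (k : ℕ) t x, (((Z j)⁻¹ ^ k : unitary _) : UniformSpace.Completion V →L[ℂ]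
      UniformSpace.Completion V) ((w t x : V) : UniformSpace.Completion V) =
      ((w t (x + Pi.single j (-(k : ℤ))) : V) : UniformSpace.Completion V) := by
    intro j k
    induction k with
    | zero =>
      intro t x
      rw [pow_zero, Nat.cast_zero, neg_zero, Pi.single_zero, add_zero]
      rfl
    | succ k ih =>
      intro t x
      rw [pow_succ]
      show (((Z j)⁻¹ ^ k : unitary _) : UniformSpace.Completion V →L[ℂ]
        UniformSpace.Completion V) ((((Z j)⁻¹ : unitary _) : UniformSpace.Completion V →L[ℂ]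
        UniformSpace.Completion V) ((w t x : V) : UniformSpace.Completion V)) = _
      have e1 : w t x = U j (w t (x + Pi.single j (-1))) := by
        rw [hwU, add_assoc, ← Pi.single_add]
        simp
      rw [hZ', hA']
      simp only
      rw [ext1_coe]
      conv_lhs => rw [e1, h2]
      rw [ih, add_assoc, ← Pi.single_add]
      push_cast
      rw [show (-1 + -(k : ℤ)) = -((k : ℤ) + 1) by ring]
  have k3 : ∀ j (k : ℤ) t x, ((Z j ^ k : unitary _) : UniformSpace.Completion V →L[ℂ]
      UniformSpace.Completion V) ((w t x : V) : UniformSpace.Completion V) =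
      ((w t (x + Pi.single j k) : V) : UniformSpace.Completion V) := by
    intro j k t x
    cases k with
    | ofNat k =>
      simp only [Int.ofNat_eq_natCast, zpow_natCast]
      exact k1 j k t x
    | negSucc k =>
      rw [zpow_negSucc, ← inv_pow, k2 j (k + 1) t x]
      rfl
  have k4 : ∀ (L : List (Fin D)) (x : Fin D → ℤ) t y,
      ((L.map fun j => ((Z j ^ x j : unitary _) : UniformSpace.Completion V →L[ℂ]
      UniformSpace.Completion V)).prod) ((w t y : V) : UniformSpace.Completion V) =
      ((w t (y + (L.map fun j => (Pi.single j (x j) : Fin D → ℤ)).sum) : V) :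
        UniformSpace.Completion V) := by
    intro L x
    induction L with
    | nil => intro t y; simp
    | cons a L ih =>
      intro t y
      rw [List.map_cons, List.prod_cons, List.map_cons, List.sum_cons]
      rw [mulA, ih, k3, add_assoc, add_comm (Pi.single a (x a) : Fin D → ℤ)]
  have k5 : ∀ (k : ℕ) t x, (T1 ^ k) ((w t x : V) : UniformSpace.Completion V) =
      ((w (t + k) x : V) : UniformSpace.Completion V) := by
    intro k
    induction k with
    | zero => intro t x; rw [pow_zero]; rfl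
    | succ k ih =>
      intro t x
      rw [pow_succ]
      show (T1 ^ k) (T1 _) = _
      rw [hT1, ext1_coe, hwT, ← hT1, ih, add_right_comm, add_assoc]
  have k6 : ((List.finRange D).map fun j => (Pi.single j (x j) : Fin D → ℤ)).sum = x := by
    rw [← List.ofFn_eq_map, List.sum_ofFn]
    exact Finset.univ_sum_single x
  rw [mulA, k4, k6, k5, UniformSpace.Completion.inner_coe]
  simp

end pre

end

end Pool.Agent.Q235.EM
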