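import Mathlib
import Pool.Agent.Q235.EM.Spec3

/-!
# The spectral representation of reflection positive functions on `ℕ × ℤ^D`
-/

open MeasureTheory Filter Complex ComplexConjugate
open scoped Topology

namespace Pool.Agent.Q235.EM

set_option linter.unusedSectionVars false

noncomputable section

variable {D : ℕ}

/-- the form defined by a function of the time and of the space shift -/
def frm (φ : ℕ → (Fin D → ℤ) → ℂ) (k : ℕ) (c c' : (ℕ × (Fin D → ℤ)) →₀ ℂ) : ℂ :=
  c.sum fun a u => c'.sum fun b v => conj u * v * φ (a.1 + b.1 + k) (b.2 - a.2)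

/-- Reflection positive functions. -/
structure PD (φ : ℕ → (Fin D → ℤ) → ℂ) : Prop where
  herm : ∀ t x, φ t (-x) = conj (φ t x)
  pos0 : ∀ c, 0 ≤ (frm φ 0 c c).re
  pos1 : ∀ c, 0 ≤ (frm φ 1 c c).re
  bdd : ∃ C, ∀ t x, ‖φ t x‖ ≤ C

variable {φ : ℕ → (Fin D → ℤ) → ℂ}

lemma frm_add_left (k : ℕ) (c c' e : (ℕ × (Fin D → ℤ)) →₀ ℂ) :
    frm φ k (c + c') e = frm φ k c e + frm φ k c' e := by
  classical
  unfold frm
  refine Finsupp.sum_add_index' (fun a => ?_) (fun a u u' => ?_)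
  · simp
  · rw [← Finsupp.sum_add]
    refine Finsupp.sum_congr fun b _ => ?_
    rw [map_add]; ring

lemma frm_smul_left (k : ℕ) (r : ℂ) (c e : (ℕ × (Fin D → ℤ)) →₀ ℂ) :
    frm φ k (r • c) e = conj r * frm φ k c e := by
  classical
  unfold frm
  rw [Finsupp.sum_smul_index' (fun a => by simp), Finsupp.mul_sum]
  refine Finsupp.sum_congr fun a _ => ?_
  rw [Finsupp.mul_sum]
  refine Finsupp.sum_congr fun b _ => ?_
  rw [smul_eq_mul, map_mul]; ring

lemma frm_conj (h : ∀ t x, φ t (-x) = conj (φ t x)) (k : ℕ) (c e : (ℕ × (Fin D → ℤ)) →₀ ℂ) :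
    conj (frm φ k e c) = frm φ k c e := by
  classical
  unfold frm
  rw [Finsupp.sum_comm]
  unfold Finsupp.sum
  rw [map_sum]
  refine Finset.sum_congr rfl fun a _ => ?_
  rw [map_sum]
  refine Finset.sum_congr rfl fun b _ => ?_
  rw [map_mul, map_mul, Complex.conj_conj, ← h, add_comm b.1 a.1, neg_sub, mul_comm (e b)]

/-- the shift -/
def shf (s : ℕ) (y : Fin D → ℤ) : ((ℕ × (Fin D → ℤ)) →₀ ℂ) →ₗ[ℂ] ((ℕ × (Fin D → ℤ)) →₀ ℂ) :=
  Finsupp.lmapDomain ℂ ℂ fun a => (a.1 + s, a.2 + y)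

lemma shf_apply (s : ℕ) (y : Fin D → ℤ) (c : (ℕ × (Fin D → ℤ)) →₀ ℂ) :
    shf s y c = Finsupp.mapDomain (fun a => (a.1 + s, a.2 + y)) c := rfl

lemma frm_shf (k s s' : ℕ) (y y' : Fin D → ℤ) (c e : (ℕ × (Fin D → ℤ)) →₀ ℂ) :
    frm φ k (shf s y c) (shf s' y' e) =
      c.sum fun a u => e.sum fun b v => conj u * v * φ (a.1 + b.1 + (k + s + s'))
        (b.2 - a.2 + (y' - y)) := by
  classical
  unfold frm
  rw [shf_apply, shf_apply, Finsupp.sum_mapDomain_index]
  · refine Finsupp.sum_congr fun a _ => ?_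
    rw [Finsupp.sum_mapDomain_index]
    · refine Finsupp.sum_congr fun b _ => ?_
      congr 2
      · ring
      · exact add_sub_add_comm _ _ _ _
    · intro b; simp
    · intro b m m'; ring
  · intro a; simp
  · intro a m m'
    rw [← Finsupp.sum_add]
    refine Finsupp.sum_congr fun b _ => ?_
    rw [map_add]; ring

lemma shf_zero (c : (ℕ × (Fin D → ℤ)) →₀ ℂ) : shf 0 0 c = c := by
  rw [shf_apply]
  have : (fun a : ℕ × (Fin D → ℤ) => (a.1 + 0, a.2 + 0)) = id := by
    funext a; simp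
  rw [this, Finsupp.mapDomain_id]

lemma shf_shf (s s' : ℕ) (y y' : Fin D → ℤ) (c : (ℕ × (Fin D → ℤ)) →₀ ℂ) :
    shf s y (shf s' y' c) = shf (s + s') (y + y') c := by
  rw [shf_apply, shf_apply, shf_apply, ← Finsupp.mapDomain_comp]
  congr 1
  funext a
  show (a.1 + s' + s, a.2 + y' + y) = _
  rw [add_assoc, add_comm s', add_assoc, add_comm y']

lemma frm_shf' {k k' s s' : ℕ} {y y' : Fin D → ℤ} (c e : (ℕ × (Fin D → ℤ)) →₀ ℂ)
    (h1 : k + s + s' = k') (h2 : y' - y = 0) : frm φ k (shf s y c) (shf s' y' e) = frm φ k' c e := by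
  rw [frm_shf, h1, h2]
  unfold frm
  simp only [add_zero]

/-- the growth of sequences -/
lemma seq_le {a : ℕ → ℝ} (h0 : ∀ n, 0 ≤ a n) (hb : ∃ C, ∀ n, a n ≤ C)
    (hcs : ∀ n, a n ^ 2 ≤ a 0 * a (2 * n)) (n : ℕ) : a n ≤ a 0 := by
  rcases (h0 0).eq_or_lt with h | h
  · have h1 := hcs n
    rw [← h, zero_mul] at h1
    rw [← h]
    nlinarith [h0 n]
  · by_contra hcon
    push Not at hcon
    obtain ⟨C, hC⟩ := hb
    obtain ⟨r, hr⟩ : ∃ r, r = a n / a 0 := ⟨_, rfl⟩
    have hr1 : 1 < r := by rw [hr]; exact (one_lt_div h).2 hcon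
    have key : ∀ k : ℕ, a 0 * r ^ (2 ^ k) ≤ a (2 ^ k * n) := by
      intro k
      induction k with
      | zero =>
        rw [pow_zero, pow_one, one_mul, hr]
        field_simp
        exact le_refl _
      | succ k ih =>
        have h2 := hcs (2 ^ k * n)
        have h3 : (a 0 * r ^ (2 ^ k)) ^ 2 ≤ a (2 ^ k * n) ^ 2 :=
          pow_le_pow_left₀ (by positivity) ih 2
        have h4 : (a 0 * r ^ (2 ^ k)) ^ 2 = a 0 * (a 0 * r ^ (2 ^ (k + 1))) := by
          rw [pow_succ 2 k, pow_mul]; ring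
        rw [h4] at h3
        have h5 := h3.trans h2
        have h6 : 2 * (2 ^ k * n) = 2 ^ (k + 1) * n := by ring
        rw [h6] at h5
        exact le_of_mul_le_mul_left h5 h
    obtain ⟨k, hk⟩ := exists_nat_gt (C / a 0 / (r - 1))
    have h2 := (key k).trans (hC _)
    have h3 : (1 : ℝ) + (2 ^ k : ℕ) * (r - 1) ≤ r ^ (2 ^ k) := by
      have := one_add_mul_le_pow (show (-2 : ℝ) ≤ r - 1 by linarith) (2 ^ k)
      simpa using this
    have h4 : (k : ℝ) < ((2 ^ k : ℕ) : ℝ) := by exact_mod_cast Nat.lt_two_pow_self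
    have h5 : C / a 0 < k * (r - 1) := (div_lt_iff₀ (by linarith)).1 hk
    have h6 : C < k * (r - 1) * a 0 := (div_lt_iff₀ h).1 h5
    have h7 : (k : ℝ) * (r - 1) ≤ ((2 ^ k : ℕ) : ℝ) * (r - 1) :=
      mul_le_mul_of_nonneg_right h4.le (by linarith)
    nlinarith [mul_le_mul_of_nonneg_left h3 h.le, mul_le_mul_of_nonneg_right h7 h.le]

lemma frm_bdd (h : ∃ C, ∀ t x, ‖φ t x‖ ≤ C) (c : (ℕ × (Fin D → ℤ)) →₀ ℂ) :
    ∃ C, ∀ k, (frm φ k c c).re ≤ C := by
  obtain ⟨C, hC⟩ := h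
  refine ⟨∑ a ∈ c.support, ∑ b ∈ c.support, ‖c a‖ * ‖c b‖ * C, fun k => ?_⟩
  refine (Complex.re_le_norm _).trans ?_
  unfold frm Finsupp.sum
  refine (norm_sum_le _ _).trans (Finset.sum_le_sum fun a _ => ?_)
  refine (norm_sum_le _ _).trans (Finset.sum_le_sum fun b _ => ?_)
  rw [norm_mul, norm_mul, RCLike.norm_conj]
  exact mul_le_mul_of_nonneg_left (hC _ _) (by positivity)

lemma frm_contr (h : PD φ) (c : (ℕ × (Fin D → ℤ)) →₀ ℂ) (n : ℕ) :
    (frm φ n c c).re ≤ (frm φ 0 c c).re := by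
  refine seq_le (a := fun n => (frm φ n c c).re) (fun n => ?_) (frm_bdd h.bdd c) (fun n => ?_) n
  · rcases Nat.even_or_odd' n with ⟨m, hm | hm⟩
    · have h1 := h.pos0 (shf m 0 c)
      rw [frm_shf' (k' := n) c c (by omega) (sub_zero _)] at h1
      exact h1
    · have h1 := h.pos1 (shf m 0 c)
      rw [frm_shf' (k' := n) c c (by omega) (sub_zero _)] at h1
      exact h1
  · have key : ∀ s : ℝ, 0 ≤ (frm φ 0 c c).re + 2 * s * (frm φ n c c).re +
        s ^ 2 * (frm φ (2 * n) c c).re := by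
      intro s
      have h1 := h.pos0 (c + (s : ℂ) • shf n 0 c)
      have h2 : ∀ e : (ℕ × (Fin D → ℤ)) →₀ ℂ, frm φ 0 e (c + (s : ℂ) • shf n 0 c) =
          frm φ 0 e c + s * frm φ 0 e (shf n 0 c) := by
        intro e
        rw [← frm_conj h.herm 0 e, frm_add_left, frm_smul_left, map_add, map_mul,
          frm_conj h.herm, frm_conj h.herm, Complex.conj_conj]
      rw [h2, frm_add_left, frm_add_left, frm_smul_left, frm_smul_left, Complex.conj_ofReal] at h1
      have e1 : frm φ 0 (shf n 0 c) (shf n 0 c) = frm φ (2 * n) c c :=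
        frm_shf' c c (by omega) (sub_zero _)
      have e2 : frm φ 0 c (shf n 0 c) = frm φ n c c := by
        conv_lhs => rw [← shf_zero c]
        rw [shf_shf]
        exact frm_shf' c c (by omega) (by simp)
      have e3 : frm φ 0 (shf n 0 c) c = frm φ n c c := by
        conv_lhs => rw [← shf_zero c]
        rw [shf_shf]
        exact frm_shf' c c (by omega) (by simp)
      rw [e1, e2, e3] at h1
      simp only [Complex.add_re, Complex.re_ofReal_mul] at h1
      nlinarith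
    obtain ⟨a, ha⟩ : ∃ a, a = (frm φ 0 c c).re := ⟨_, rfl⟩
    obtain ⟨b, hb⟩ : ∃ b, b = (frm φ n c c).re := ⟨_, rfl⟩
    obtain ⟨e, he⟩ : ∃ e, e = (frm φ (2 * n) c c).re := ⟨_, rfl⟩
    simp only [← ha, ← hb, ← he] at key ⊢
    have h3 := discrim_le_zero (a := e) (b := 2 * b) (c := a) (fun s => by
      have := key s
      nlinarith)
    unfold discrim at h3
    nlinarith

/-- **The spectral representation.** -/
theorem exists_rep (h : PD φ) : ∃ ρ : Measure (Sp D), IsFiniteMeasure ρ ∧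
    (∀ᵐ q ∂ρ, 0 ≤ q.1 ∧ q.1 ≤ 1 ∧ ∀ j, ‖q.2 j‖ = 1) ∧ ∀ (t : ℕ) (x : Fin D → ℤ),
      φ t x = ∫ q, mon t x q ∂ρ := by
  let core : PreInnerProductSpace.Core ℂ ((ℕ × (Fin D → ℤ)) →₀ ℂ) :=
    { inner := frm φ 0
      conj_inner_symm := fun c e => frm_conj h.herm 0 c e
      re_inner_nonneg := h.pos0
      add_left := frm_add_left 0
      smul_left := fun c e r => frm_smul_left 0 r c e }
  let i1 : SeminormedAddCommGroup ((ℕ × (Fin D → ℤ)) →₀ ℂ) :=
    InnerProductSpace.Core.toSeminormedAddCommGroup (c := core)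
  let i2 : InnerProductSpace ℂ ((ℕ × (Fin D → ℤ)) →₀ ℂ) := InnerProductSpace.ofCore core
  have hin : ∀ c e : (ℕ × (Fin D → ℤ)) →₀ ℂ, inner ℂ c e = frm φ 0 c e := fun _ _ => rfl
  have hnorm : ∀ (c e : (ℕ × (Fin D → ℤ)) →₀ ℂ), (frm φ 0 c c).re ≤ (frm φ 0 e e).re →
      ‖c‖ ≤ ‖e‖ := by
    intro c e hce
    have h1 : ‖c‖ ^ 2 ≤ ‖e‖ ^ 2 := by
      rw [@norm_sq_eq_re_inner ℂ, @norm_sq_eq_re_inner ℂ, hin, hin]
      exact hce
    exact (sq_le_sq₀ (norm_nonneg _) (norm_nonneg _)).1 h1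
  obtain ⟨ρ, r1, r2, r3⟩ := pre (V := (ℕ × (Fin D → ℤ)) →₀ ℂ) (shf 1 0) (fun u w => by
      rw [hin, hin]
      conv_lhs => rw [← shf_zero w]
      conv_rhs => rw [← shf_zero u]
      rw [frm_shf' (k' := 1) u w (by omega) (by simp), frm_shf' (k' := 1) u w (by omega) (by simp)])
    (fun u => by
      rw [hin]
      have h1 : frm φ 0 (shf 1 0 u) u = frm φ 1 u u := by
        conv_lhs => rw [← shf_zero u]
        rw [shf_shf]
        exact frm_shf' u u (by omega) (by simp)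
      rw [h1]
      exact h.pos1 u)
    (fun u => hnorm _ _ (by
      rw [frm_shf' (k' := 2) u u (by omega) (by simp)]
      exact frm_contr h u 2))
    (fun j => shf 0 (Pi.single j 1)) (fun j => shf 0 (Pi.single j (-1)))
    (fun j u => hnorm _ _ (by rw [frm_shf' (k' := 0) u u (by omega) (by simp)]))
    (fun j u => hnorm _ _ (by rw [frm_shf' (k' := 0) u u (by omega) (by simp)]))
    (fun j u w => by
      rw [hin, hin]
      conv_lhs => rw [← shf_zero w]
      conv_rhs => rw [← shf_zero u]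
      rw [frm_shf, frm_shf]
      have e1 : (0 - Pi.single j (-1) : Fin D → ℤ) = Pi.single j 1 - 0 := by
        rw [Pi.single_neg]; simp
      rw [e1])
    (fun j u => by
      rw [shf_shf, ← Pi.single_add]
      simp only [add_neg_cancel, Pi.single_zero, add_zero]
      exact shf_zero u)
    (fun j u => by
      rw [shf_shf, ← Pi.single_add]
      simp only [neg_add_cancel, Pi.single_zero, add_zero]
      exact shf_zero u)
    (fun j u => by rw [shf_shf, shf_shf, add_comm, add_comm (0 : Fin D → ℤ)])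
    (fun i j u => by rw [shf_shf, shf_shf, add_comm (Pi.single i 1 : Fin D → ℤ)])
    (fun t x => Finsupp.single (t, x) 1)
    (fun t x => by rw [shf_apply, Finsupp.mapDomain_single, add_zero])
    (fun j t x => by rw [shf_apply, Finsupp.mapDomain_single, add_zero])
  refine ⟨ρ, r1, r2, fun t x => ?_⟩
  rw [← r3 t x, hin]
  unfold frm
  rw [Finsupp.sum_single_index, Finsupp.sum_single_index]
  · simp
  · simp
  · simp

end

end Pool.Agent.Q235.EM
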