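import Mathlib
import Pool.Agent.Results.MP_7f377f_mp.WilsonLoopsWeakCoupling
import Pool.Agent.Q235.EM.RPt
import Pool.Agent.Q235.EM.Spec4

/-!
# Infinite volume limits: invariance and reflection positivity
-/

open MeasureTheory Matrix Filter ComplexConjugate
open scoped Matrix.Norms.Frobenius Topology

namespace Pool.Agent.Q235.EM

open Pool.Agent.Results.MP_7f377f_mp.WilsonLoopsWeakCoupling
open Pool.Agent.H906R3 Pool.Agent.W793 Pool.Agent.TH369

set_option linter.unusedSectionVars false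

noncomputable section

variable {N n d D : ℕ} {G : Subgroup (UU N)}

/-- Gauge transformation of the link variables of the infinite lattice. -/
def gauge (γ : (Fin d → ℤ) → G) (V : LinkZ d → G) : LinkZ d → G :=
  fun e => γ e.1 * V e * (γ (e.1 + Pi.single e.2 1))⁻¹

/-- The lattice point with the space coordinates `x` and the time coordinate `t`, which is the last
one. -/
def pt (x : Fin D → ℤ) (t : ℤ) : Fin (D + 1) → ℤ := Fin.snoc x t

/-- The configuration shifted by `t` units of time and by the vector `x` in space. -/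
def move (t : ℤ) (x : Fin D → ℤ) (V : LinkZ (D + 1) → G) : LinkZ (D + 1) → G :=
  fun e => V (e.1 + pt x t, e.2)

/-- Gauge invariant continuous functions of the spatial links of the time slice `0`. -/
structure TZ {α : Type*} [TopologicalSpace α] (F : (LinkZ (D + 1) → G) → α) : Prop where
  cont : Continuous F
  inv : ∀ γ V, F (gauge γ V) = F V
  dep : ∀ V V' : LinkZ (D + 1) → G, (∀ e : LinkZ (D + 1), e.1 (Fin.last D) = 0 →
    e.2 ≠ Fin.last D → V e = V' e) → F V = F V'

lemma pt_last (x : Fin D → ℤ) (t : ℤ) : pt x t (Fin.last D) = t := by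
  unfold pt; simp

lemma pt_cast (x : Fin D → ℤ) (t : ℤ) (j : Fin D) : pt x t j.castSucc = x j := by
  unfold pt; simp

lemma pt_add (x y : Fin D → ℤ) (t s : ℤ) : pt x t + pt y s = pt (x + y) (t + s) := by
  funext i
  refine Fin.lastCases ?_ (fun j => ?_) i
  · rw [Pi.add_apply, pt_last, pt_last, pt_last]
  · rw [Pi.add_apply, pt_cast, pt_cast, pt_cast, Pi.add_apply]

lemma move_move (t s : ℤ) (x y : Fin D → ℤ) (V : LinkZ (D + 1) → G) :
    move t x (move s y V) = move (t + s) (x + y) V := by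
  funext e
  unfold move
  simp only
  rw [add_assoc, pt_add]

lemma move_zero (V : LinkZ (D + 1) → G) : move 0 0 V = V := by
  funext e
  unfold move
  have : pt (0 : Fin D → ℤ) 0 = 0 := by
    funext i
    refine Fin.lastCases ?_ (fun j => ?_) i
    · rw [pt_last]; rfl
    · rw [pt_cast]; rfl
  rw [this, add_zero]

lemma move_cont (t : ℤ) (x : Fin D → ℤ) : Continuous (move (G := G) t x) :=
  continuous_pi fun _ => continuous_apply _

lemma sp_lf {l : ℕ} {F : (LinkZ (D + 1) → G) → ℝ} (hF : TZ F) :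
    YM.Sp (l := l) (Fin.last D) (fun U : YM.Ed (D + 1) l → G => F (YM.lf U)) := by
  intro U U' h
  refine hF.dep _ _ fun e he he' => ?_
  unfold YM.lf
  refine h _ _ ?_ he'
  simp [he]

lemma gi_lf {l : ℕ} {F : (LinkZ (D + 1) → G) → ℝ} (hF : TZ F) :
    YM.GI (fun U : YM.Ed (D + 1) l → G => F (YM.lf U)) := by
  intro γ U
  show F (YM.lf (YM.gt γ U)) = F (YM.lf U)
  have : YM.lf (YM.gt γ U) = gauge (fun x => γ fun i => (x i : ZMod l)) (YM.lf U) := by
    funext e
    unfold YM.lf YM.gt gauge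
    simp only
    congr 3
    funext i
    unfold YM.eT
    rw [Pi.add_apply, Pi.add_apply]
    by_cases h : i = e.2
    · subst h; simp
    · simp [h]
  rw [this, hF.inv]

lemma lf_cont' {l : ℕ} {F : (LinkZ (D + 1) → G) → ℝ} (hF : Continuous F) :
    Continuous (fun U : YM.Ed (D + 1) l → G => F (YM.lf U)) :=
  hF.comp (continuous_pi fun _ => continuous_apply _)

/-- the reduction of a vector -/
def cst (l : ℕ) (z : Fin d → ℤ) : Fin d → ZMod l := fun i => (z i : ZMod l)

lemma move_lf {l : ℕ} [NeZero l] (t : ℤ) (x : Fin D → ℤ) (U : YM.Ed (D + 1) l → G) :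
    move t x (YM.lf U) = YM.lf (YM.tr (cst l (pt x t)) U) := by
  funext e
  unfold move YM.lf YM.tr cst
  simp only
  congr 2
  funext i
  simp

lemma cst_rA {m : ℕ} [NeZero m] (x : Fin D → ℤ) (t : ℤ) :
    YM.rA (Fin.last D) (cst (2 * m) (pt x t)) = cst (2 * m) (pt x (1 - t)) := by
  funext i
  unfold YM.rA cst
  refine Fin.lastCases ?_ (fun j => ?_) i
  · rw [Function.update_self, pt_last, pt_last]; push_cast; ring
  · rw [Function.update_of_ne (Fin.castSucc_lt_last j).ne, pt_cast, pt_cast]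

lemma cst_rB {m : ℕ} [NeZero m] (x : Fin D → ℤ) (t : ℤ) :
    YM.rB (Fin.last D) (cst (2 * m) (pt x t)) = cst (2 * m) (pt x (-t)) := by
  funext i
  unfold YM.rB cst
  refine Fin.lastCases ?_ (fun j => ?_) i
  · rw [Function.update_self, pt_last, pt_last]; push_cast; ring
  · rw [Function.update_of_ne (Fin.castSucc_lt_last j).ne, pt_cast, pt_cast]

section inf

variable [CompactSpace G] [SecondCountableTopology G] [MeasurableSpace G] [BorelSpace G]
  (μ : Measure G) [IsProbabilityMeasure μ] [μ.IsHaarMeasure] (B : LieBasis G n) {β : ℝ}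
  {ν : Measure (LinkZ (D + 1) → G)}

include B in
/-- the invariance of the infinite volume limits -/
theorem inf_move (hν : IsInfVol μ β ν) (F : (LinkZ (D + 1) → G) → ℝ) (hF : Continuous F)
    (t : ℤ) (x : Fin D → ℤ) : ∫ V, F (move t x V) ∂ν = ∫ V, F V ∂ν := by
  have := right_inv μ
  have := inv_inv' μ
  obtain ⟨s, hs, hlim⟩ := hν.lim
  have h1 := hlim (fun V => F (move t x V)) (hF.comp (move_cont t x))
  have h2 := hlim F hF
  have h3 : ∀ j, expect (2 * (s j + 1)) μ β (fun V => F (move t x V)) =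
      expect (2 * (s j + 1)) μ β F := by
    intro j
    rw [expect_eq μ B, expect_eq μ B]
    unfold YM.EX
    simp only [move_lf]
    rw [YM.Zt_tr μ β _ (fun U : YM.Ed (D + 1) (2 * (s j + 1)) → G => F (YM.lf U))]
  simp only [h3] at h1
  exact tendsto_nhds_unique h1 h2

include B in
/-- reflection positivity of the infinite volume limits, reflection through the links -/
theorem inf_rpA (hβ : 0 ≤ β) (hν : IsInfVol μ β ν) {ι : Type*} (s : Finset ι)
    (F : ι → (LinkZ (D + 1) → G) → ℝ) (hF : ∀ i, TZ (F i)) (t : ι → ℕ) (x : ι → Fin D → ℤ) :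
    0 ≤ ∫ V, (∑ i ∈ s, F i (move (t i + 1 : ℕ) (x i) V)) *
      ∑ i ∈ s, F i (move (-(t i : ℤ)) (x i) V) ∂ν := by
  have := right_inv μ
  have := inv_inv' μ
  obtain ⟨φ, hφ, hlim⟩ := hν.lim
  have hc : Continuous fun V : LinkZ (D + 1) → G => (∑ i ∈ s, F i (move (t i + 1 : ℕ) (x i) V)) *
      ∑ i ∈ s, F i (move (-(t i : ℤ)) (x i) V) :=
    (continuous_finsetSum _ fun i _ => (hF i).cont.comp (move_cont _ _)).mul
      (continuous_finsetSum _ fun i _ => (hF i).cont.comp (move_cont _ _))
  refine ge_of_tendsto (hlim _ hc) ?_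
  obtain ⟨T, hT⟩ : ∃ T, ∀ i ∈ s, t i ≤ T := ⟨s.sup t, fun i hi => Finset.le_sup hi⟩
  filter_upwards [hφ.eventually_ge_atTop (T + 2)] with j hj
  rw [expect_eq μ B]
  unfold YM.EX
  refine div_nonneg ?_ (YM.Zt_pos μ β).le
  simp only [move_lf]
  have h1 := rpA μ (L := ld B) (τ := Fin.last D) (m := φ j + 1) (by omega) hβ s
    (fun i U => F i (YM.lf U)) (fun i => lf_cont' (hF i).cont) (fun i => gi_lf (hF i))
    (fun i => sp_lf (hF i)) (fun i => cst (2 * (φ j + 1)) (pt (x i) (t i + 1 : ℕ)))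
    (fun i hi => by
      unfold cst
      rw [pt_last]
      have := hT i hi
      rw [Int.cast_natCast]
      exact YM.H1_nat (by omega) (by omega) (by omega))
  have h2 : ∀ i, (1 - ((t i + 1 : ℕ) : ℤ)) = -(t i : ℤ) := fun i => by push_cast; ring
  simp only [cst_rA, h2] at h1
  exact h1

include B in
/-- reflection positivity of the infinite volume limits, reflection through the sites -/
theorem inf_rpB (hν : IsInfVol μ β ν) {ι : Type*} (s : Finset ι)
    (F : ι → (LinkZ (D + 1) → G) → ℝ) (hF : ∀ i, TZ (F i)) (t : ι → ℕ) (x : ι → Fin D → ℤ) :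
    0 ≤ ∫ V, (∑ i ∈ s, F i (move (t i : ℕ) (x i) V)) *
      ∑ i ∈ s, F i (move (-(t i : ℤ)) (x i) V) ∂ν := by
  have := right_inv μ
  have := inv_inv' μ
  obtain ⟨φ, hφ, hlim⟩ := hν.lim
  have hc : Continuous fun V : LinkZ (D + 1) → G => (∑ i ∈ s, F i (move (t i : ℕ) (x i) V)) *
      ∑ i ∈ s, F i (move (-(t i : ℤ)) (x i) V) :=
    (continuous_finsetSum _ fun i _ => (hF i).cont.comp (move_cont _ _)).mul
      (continuous_finsetSum _ fun i _ => (hF i).cont.comp (move_cont _ _))
  refine ge_of_tendsto (hlim _ hc) ?_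
  obtain ⟨T, hT⟩ : ∃ T, ∀ i ∈ s, t i ≤ T := ⟨s.sup t, fun i hi => Finset.le_sup hi⟩
  filter_upwards [hφ.eventually_ge_atTop (T + 2)] with j hj
  rw [expect_eq μ B]
  unfold YM.EX
  refine div_nonneg ?_ (YM.Zt_pos μ β).le
  simp only [move_lf]
  have h1 := rpB μ (L := ld B) (τ := Fin.last D) (m := φ j + 1) (by omega) β s
    (fun i U => F i (YM.lf U)) (fun i => lf_cont' (hF i).cont)
    (fun i => sp_lf (hF i)) (fun i => cst (2 * (φ j + 1)) (pt (x i) (t i : ℕ)))
    (fun i hi => by
      unfold cst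
      rw [pt_last]
      have := hT i hi
      rw [Int.cast_natCast, YM.val_nat (by omega)]
      omega)
  simp only [cst_rB] at h1
  exact h1

include B in
/-- the invariance of the infinite volume limits under the time reflection -/
theorem inf_ref (hν : IsInfVol μ β ν) {F H : (LinkZ (D + 1) → G) → ℝ} (hF : TZ F) (hH : TZ H)
    (t : ℤ) (x : Fin D → ℤ) :
    ∫ V, F V * H (move t x V) ∂ν = ∫ V, F V * H (move (-t) x V) ∂ν := by
  have := right_inv μ
  have := inv_inv' μ
  obtain ⟨φ, hφ, hlim⟩ := hν.lim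
  have hc : ∀ t, Continuous fun V : LinkZ (D + 1) → G => F V * H (move t x V) := fun t =>
    hF.cont.mul (hH.cont.comp (move_cont _ _))
  have h1 := hlim _ (hc t)
  have h2 := hlim _ (hc (-t))
  refine tendsto_nhds_unique (h1.congr' ?_) h2
  filter_upwards [hφ.eventually_ge_atTop 2] with j hj
  rw [expect_eq μ B, expect_eq μ B]
  unfold YM.EX
  congr 1
  have h3 := refB μ (L := ld B) (τ := Fin.last D) (m := φ j + 1) (by omega) β
    (fun U => F (YM.lf U)) (fun U => H (YM.lf U)) (sp_lf hF) (sp_lf hH)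
    (cst (2 * (φ j + 1)) (pt 0 0)) (cst (2 * (φ j + 1)) (pt x t))
  simp only [cst_rB, ← move_lf, neg_zero] at h3
  simp only [move_zero] at h3
  exact h3

end inf

end

end Pool.Agent.Q235.EM
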