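import Mathlib
import Pool.Agent.Q235.EM.Inf
import Pool.Agent.Y16.YM.Grn

/-!
# Loops
-/

open MeasureTheory Matrix Filter ComplexConjugate
open scoped Matrix.Norms.Frobenius Topology

namespace Pool.Agent.Q235.EM

open Pool.Agent.Results.MP_7f377f_mp.WilsonLoopsWeakCoupling
open Pool.Agent.H906R3 Pool.Agent.W793 Pool.Agent.TH369

set_option linter.unusedSectionVars false

noncomputable section

variable {N n d D : ℕ} {G : Subgroup (UU N)}

/-! ### the circulation -/

/-- the sum of a function of the links along a path, with signs -/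
def circ (φ : LinkZ d → ℝ) (x : Fin d → ℤ) (p : List (Fin d × Bool)) : ℝ :=
  ((links x p).map fun e => (if e.2 then 1 else -1) * φ e.1).sum

lemma circ_nil (φ : LinkZ d → ℝ) (x : Fin d → ℤ) : circ φ x [] = 0 := rfl

lemma circ_true (φ : LinkZ d → ℝ) (x : Fin d → ℤ) (i : Fin d) (p : List (Fin d × Bool)) :
    circ φ x ((i, true) :: p) = φ (x, i) + circ φ (x + Pi.single i 1) p := by
  unfold circ
  rw [links]
  simp

lemma circ_false (φ : LinkZ d → ℝ) (x : Fin d → ℤ) (i : Fin d) (p : List (Fin d × Bool)) :
    circ φ x ((i, false) :: p) = -φ (x - Pi.single i 1, i) + circ φ (x - Pi.single i 1) p := by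
  unfold circ
  rw [links]
  simp

lemma dest_append (x : Fin d → ℤ) (p q : List (Fin d × Bool)) :
    dest x (p ++ q) = dest (dest x p) q := by
  induction p generalizing x with
  | nil => rfl
  | cons s p ih =>
    obtain ⟨i, s⟩ := s
    cases s with
    | true => exact ih _
    | false => exact ih _

lemma circ_append (φ : LinkZ d → ℝ) (x : Fin d → ℤ) (p q : List (Fin d × Bool)) :
    circ φ x (p ++ q) = circ φ x p + circ φ (dest x p) q := by
  induction p generalizing x with
  | nil => rw [List.nil_append, circ_nil, zero_add]; rfl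
  | cons s p ih =>
    obtain ⟨i, s⟩ := s
    cases s with
    | true =>
      rw [List.cons_append, circ_true, circ_true, ih, add_assoc]
      rfl
    | false =>
      rw [List.cons_append, circ_false, circ_false, ih, add_assoc]
      rfl

/-- the reversed path -/
def rev (p : List (Fin d × Bool)) : List (Fin d × Bool) := (p.map fun s => (s.1, !s.2)).reverse

lemma rev_cons (s : Fin d × Bool) (p : List (Fin d × Bool)) :
    rev (s :: p) = rev p ++ [(s.1, !s.2)] := by
  unfold rev
  simp

lemma dest_rev (x : Fin d → ℤ) (p : List (Fin d × Bool)) : dest (dest x p) (rev p) = x := by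
  induction p generalizing x with
  | nil => rfl
  | cons s p ih =>
    obtain ⟨i, s⟩ := s
    rw [rev_cons, dest_append]
    cases s with
    | true =>
      show dest (dest (dest (x + Pi.single i 1) p) (rev p)) _ = x
      rw [ih]
      show (x + Pi.single i 1) - Pi.single i 1 = x
      abel
    | false =>
      show dest (dest (dest (x - Pi.single i 1) p) (rev p)) _ = x
      rw [ih]
      show (x - Pi.single i 1) + Pi.single i 1 = x
      abel

lemma circ_rev (φ : LinkZ d → ℝ) (x : Fin d → ℤ) (p : List (Fin d × Bool)) :
    circ φ (dest x p) (rev p) = -circ φ x p := by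
  induction p generalizing x with
  | nil =>
    show circ φ x [] = -circ φ x []
    rw [circ_nil, neg_zero]
  | cons s p ih =>
    obtain ⟨i, s⟩ := s
    rw [rev_cons, circ_append]
    cases s with
    | true =>
      rw [circ_true]
      show circ φ (dest (x + Pi.single i 1) p) (rev p) +
        circ φ (dest (dest (x + Pi.single i 1) p) (rev p)) [(i, false)] = _
      rw [ih, dest_rev, circ_false, circ_nil, add_sub_cancel_right]
      ring
    | false =>
      rw [circ_false]
      show circ φ (dest (x - Pi.single i 1) p) (rev p) +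
        circ φ (dest (dest (x - Pi.single i 1) p) (rev p)) [(i, true)] = _
      rw [ih, dest_rev, circ_true, circ_nil]
      ring

/-- the circulation along a loop -/
def lc (φ : LinkZ d → ℝ) (γ : Loop d) : ℝ := circ φ γ.base γ.steps

/-- the potential of a loop -/
def pot (γ : Loop d) (e : LinkZ d) : ℝ := lc (fun e' => if e.2 = e'.2 then green d (e.1 - e'.1) else 0) γ

lemma inter_lc (γ γ' : Loop d) : inter γ γ' = lc (pot γ') γ := by
  unfold inter lc pot lc circ
  congr 1
  refine List.map_congr_left fun e _ => ?_
  rw [← List.sum_map_mul_left]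
  congr 1
  refine List.map_congr_left fun e' _ => ?_
  by_cases h : e.1.2 = e'.1.2
  · simp only [if_pos h]; ring
  · simp only [if_neg h]; ring

lemma green_even (z : Fin d → ℤ) : green d (-z) = green d z := by
  rw [green_eq, green_eq]
  exact Y16.YM.green_neg z

lemma list_sum_comm {α β : Type*} (L : List α) (M : List β) (f : α → β → ℝ) :
    (L.map fun a => (M.map fun b => f a b).sum).sum =
      (M.map fun b => (L.map fun a => f a b).sum).sum := by
  induction L with
  | nil => simp
  | cons a L ih =>
    rw [List.map_cons, List.sum_cons, ih]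
    simp only [List.map_cons, List.sum_cons]
    rw [List.sum_map_add]

lemma inter_symm (γ γ' : Loop d) : inter γ γ' = inter γ' γ := by
  unfold inter
  rw [list_sum_comm]
  congr 1
  refine List.map_congr_left fun e _ => ?_
  congr 1
  refine List.map_congr_left fun e' _ => ?_
  by_cases h : e.1.2 = e'.1.2
  · rw [if_pos h, if_pos h.symm, ← green_even (e.1.1 - e'.1.1), neg_sub]
    ring
  · rw [if_neg h, if_neg (Ne.symm h)]

/-- the composition of two loops with a path between the base points -/
def conn (γ γ' : Loop d) (p : List (Fin d × Bool)) (h : dest γ.base p = γ'.base) : Loop d where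
  base := γ.base
  steps := γ.steps ++ (p ++ (γ'.steps ++ rev p))
  closed := by
    rw [dest_append, γ.closed, dest_append, h, dest_append, γ'.closed, ← h, dest_rev]

lemma lc_conn (φ : LinkZ d → ℝ) (γ γ' : Loop d) (p : List (Fin d × Bool))
    (h : dest γ.base p = γ'.base) : lc φ (conn γ γ' p h) = lc φ γ + lc φ γ' := by
  unfold lc conn
  simp only
  rw [circ_append, γ.closed, circ_append, h, circ_append, γ'.closed, ← h, circ_rev]
  ring

lemma inter_conn_left (γ γ' η : Loop d) (p : List (Fin d × Bool))
    (h : dest γ.base p = γ'.base) : inter (conn γ γ' p h) η = inter γ η + inter γ' η := by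
  rw [inter_lc, inter_lc, inter_lc, lc_conn]

lemma inter_conn_right (γ γ' η : Loop d) (p : List (Fin d × Bool))
    (h : dest γ.base p = γ'.base) : inter η (conn γ γ' p h) = inter η γ + inter η γ' := by
  rw [inter_symm, inter_conn_left, inter_symm γ, inter_symm γ']

/-! ### translations -/

lemma dest_add (z x : Fin d → ℤ) (p : List (Fin d × Bool)) : dest (x + z) p = dest x p + z := by
  induction p generalizing x with
  | nil => rfl
  | cons s p ih =>
    obtain ⟨i, s⟩ := s
    cases s with
    | true =>
      show dest (x + z + Pi.single i 1) p = _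
      rw [add_right_comm, ih]; rfl
    | false =>
      show dest (x + z - Pi.single i 1) p = _
      rw [add_sub_right_comm, ih]; rfl

/-- the translate of a loop -/
def Lsh (z : Fin d → ℤ) (γ : Loop d) : Loop d where
  base := γ.base + z
  steps := γ.steps
  closed := by rw [dest_add, γ.closed]

lemma links_add (z x : Fin d → ℤ) (p : List (Fin d × Bool)) :
    links (x + z) p = (links x p).map fun e => ((e.1.1 + z, e.1.2), e.2) := by
  induction p generalizing x with
  | nil => rfl
  | cons s p ih =>
    obtain ⟨i, s⟩ := s
    cases s with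
    | true =>
      rw [links, links, List.map_cons, add_right_comm, ih]
    | false =>
      rw [links, links, List.map_cons, add_sub_right_comm, ih]

lemma inter_Lsh (z : Fin d → ℤ) (γ γ' : Loop d) : inter (Lsh z γ) (Lsh z γ') = inter γ γ' := by
  unfold inter Lsh
  simp only [links_add, List.map_map]
  congr 1
  refine List.map_congr_left fun e _ => ?_
  simp only [Function.comp_apply]
  congr 1
  refine List.map_congr_left fun e' _ => ?_
  simp only [Function.comp_apply, add_sub_add_right_eq_sub]

lemma Lsh_Lsh (z w : Fin d → ℤ) (γ : Loop d) : Lsh z (Lsh w γ) = Lsh (w + z) γ := by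
  unfold Lsh
  simp only [add_assoc]

lemma Lsh_zero (γ : Loop d) : Lsh 0 γ = γ := by
  unfold Lsh
  simp only [add_zero]

lemma hol_add (z x : Fin d → ℤ) (p : List (Fin d × Bool)) (V : LinkZ d → G) :
    hol V (x + z) p = hol (fun e => V (e.1 + z, e.2)) x p := by
  induction p generalizing x with
  | nil => rfl
  | cons s p ih =>
    obtain ⟨i, s⟩ := s
    cases s with
    | true =>
      rw [hol, hol, add_right_comm, ih]
    | false =>
      rw [hol, hol, add_sub_right_comm, ih]

lemma loopVar_Lsh (n : ℕ) (β : ℝ) (z : Fin d → ℤ) (γ : Loop d) (V : LinkZ d → G) :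
    loopVar n β (Lsh z γ) V = loopVar n β γ (fun e => V (e.1 + z, e.2)) := by
  unfold loopVar
  rw [inter_Lsh]
  unfold wilson Lsh
  simp only
  rw [hol_add]

/-! ### decay -/

lemma list_tendsto {α : Type*} {f : ℕ → α → ℝ} (L : List α)
    (h : ∀ a ∈ L, Tendsto (fun s => f s a) atTop (𝓝 0)) :
    Tendsto (fun s => (L.map (f s)).sum) atTop (𝓝 0) := by
  induction L with
  | nil => simp
  | cons a L ih =>
    simp only [List.map_cons, List.sum_cons]
    have h1 := (h a List.mem_cons_self).add (ih fun b hb => h b (List.mem_cons_of_mem _ hb))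
    rwa [add_zero] at h1

lemma inter_decay (hd : 3 ≤ d) (i : Fin d) (γ γ' : Loop d) :
    Tendsto (fun s : ℕ => inter γ (Lsh (Pi.single i (s : ℤ)) γ')) atTop (𝓝 0) := by
  unfold inter Lsh
  simp only [links_add, List.map_map]
  refine list_tendsto _ fun e _ => list_tendsto _ fun e' _ => ?_
  simp only [Function.comp_apply]
  by_cases h : e.1.2 = e'.1.2
  · simp only [if_pos h]
    have h1 := Y16.YM.green_decay hd i (e'.1.1 - e.1.1)
    simp only [← green_eq] at h1
    have h2 : ∀ s : ℕ, green d (e.1.1 - (e'.1.1 + Pi.single i (s : ℤ))) =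
        green d (Pi.single i (s : ℤ) + (e'.1.1 - e.1.1)) := by
      intro s
      rw [← green_even]
      congr 1
      abel
    simp only [h2]
    have h3 := h1.const_mul ((if e.2 then (1 : ℝ) else -1) * (if e'.2 then 1 else -1))
    rwa [mul_zero] at h3
  · simp only [if_neg h]
    exact tendsto_const_nhds

/-! ### plaquettes -/

/-- the plaquette loop -/
def pq (i j : Fin d) (x : Fin d → ℤ) : Loop d where
  base := x
  steps := [(i, true), (j, true), (i, false), (j, false)]
  closed := by
    show x + Pi.single i 1 + Pi.single j 1 - Pi.single i 1 - Pi.single j 1 = x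
    abel

lemma pq_Lsh (i j : Fin d) (x z : Fin d → ℤ) : Lsh z (pq i j x) = pq i j (x + z) := rfl

/-- the second difference with the sign of a positive operator -/
def nl (i : Fin d) (h : (Fin d → ℤ) → ℝ) (z : Fin d → ℤ) : ℝ :=
  2 * h z - h (z + Pi.single i 1) - h (z - Pi.single i 1)

lemma inter_pq {i j : Fin d} (hij : i ≠ j) (x y : Fin d → ℤ) :
    inter (pq i j x) (pq i j y) = nl i (green d) (x - y) + nl j (green d) (x - y) := by
  unfold inter pq nl
  simp only [links, List.map_cons, List.map_nil, List.sum_cons, List.sum_nil, if_true, hij,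
    hij.symm, if_false, Bool.false_eq_true]
  have e1 : x + Pi.single i 1 + Pi.single j 1 - Pi.single i 1 = x + Pi.single j 1 := by abel
  have e2 : y + Pi.single i 1 + Pi.single j 1 - Pi.single i 1 = y + Pi.single j 1 := by abel
  have e3 : x + Pi.single j 1 - Pi.single j 1 = x := by abel
  have e4 : y + Pi.single j 1 - Pi.single j 1 = y := by abel
  rw [e1, e2, e3, e4]
  have f1 : ∀ a : Fin d → ℤ, x + a - y = x - y + a := fun a => by abel
  have f2 : ∀ a : Fin d → ℤ, x - (y + a) = x - y - a := fun a => by abel
  have f3 : ∀ a : Fin d → ℤ, x + a - (y + a) = x - y := fun a => by abel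
  rw [f3, f3, f1, f1, f2, f2]
  ring

end

end Pool.Agent.Q235.EM
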