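import Mathlib
import Pool.Agent.Q235.EM.Loops

/-!
# The forms defined by the Green function
-/

open Filter ComplexConjugate
open scoped Topology

namespace Pool.Agent.Q235.EM

open Pool.Agent.Results.MP_7f377f_mp.WilsonLoopsWeakCoupling

set_option linter.unusedSectionVars false

noncomputable section

variable {d : ℕ}

/-- functions of finite support -/
abbrev FV (d : ℕ) := (Fin d → ℤ) →₀ ℂ

/-- the form with the kernel `h` -/
def fk (h : (Fin d → ℤ) → ℝ) (u v : FV d) : ℂ :=
  u.sum fun x a => v.sum fun y b => conj a * b * h (x - y)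

/-- the translation -/
def tau (z : Fin d → ℤ) : FV d →ₗ[ℂ] FV d := Finsupp.lmapDomain ℂ ℂ fun x => x + z

lemma tau_apply (z : Fin d → ℤ) (u : FV d) : tau z u = Finsupp.mapDomain (fun x => x + z) u := rfl

lemma tau_single (z x : Fin d → ℤ) (a : ℂ) : tau z (Finsupp.single x a) = Finsupp.single (x + z) a := by
  rw [tau_apply, Finsupp.mapDomain_single]

lemma tau_zero (u : FV d) : tau 0 u = u := by
  rw [tau_apply]
  have : (fun x : Fin d → ℤ => x + 0) = id := by funext x; simp
  rw [this, Finsupp.mapDomain_id]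

lemma tau_tau (z w : Fin d → ℤ) (u : FV d) : tau z (tau w u) = tau (w + z) u := by
  rw [tau_apply, tau_apply, tau_apply, ← Finsupp.mapDomain_comp]
  congr 1
  funext x
  show x + w + z = _
  rw [add_assoc]

section form

variable (h : (Fin d → ℤ) → ℝ)

lemma fk_add_left (u v w : FV d) : fk h (u + v) w = fk h u w + fk h v w := by
  classical
  unfold fk
  refine Finsupp.sum_add_index' (fun a => ?_) (fun a x x' => ?_)
  · simp
  · rw [← Finsupp.sum_add]
    refine Finsupp.sum_congr fun b _ => ?_
    rw [map_add]; ring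

lemma fk_smul_left (c : ℂ) (u w : FV d) : fk h (c • u) w = conj c * fk h u w := by
  classical
  unfold fk
  rw [Finsupp.sum_smul_index' (fun a => by simp), Finsupp.mul_sum]
  refine Finsupp.sum_congr fun a _ => ?_
  rw [Finsupp.mul_sum]
  refine Finsupp.sum_congr fun b _ => ?_
  rw [smul_eq_mul, map_mul]; ring

lemma fk_add_right (u v w : FV d) : fk h u (v + w) = fk h u v + fk h u w := by
  classical
  unfold fk
  rw [← Finsupp.sum_add]
  refine Finsupp.sum_congr fun a _ => ?_
  refine Finsupp.sum_add_index' (fun b => ?_) (fun b x x' => ?_)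
  · simp
  · ring

lemma fk_smul_right (c : ℂ) (u w : FV d) : fk h u (c • w) = c * fk h u w := by
  classical
  unfold fk
  rw [Finsupp.mul_sum]
  refine Finsupp.sum_congr fun a _ => ?_
  rw [Finsupp.sum_smul_index' (fun b => by simp), Finsupp.mul_sum]
  refine Finsupp.sum_congr fun b _ => ?_
  rw [smul_eq_mul]; ring

/-- the linear form -/
def fkR (u : FV d) : FV d →ₗ[ℂ] ℂ where
  toFun := fk h u
  map_add' := fk_add_right h u
  map_smul' c v := fk_smul_right h c u v

lemma fk_sub_right (u v w : FV d) : fk h u (v - w) = fk h u v - fk h u w :=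
  map_sub (fkR h u) v w

lemma fk_sum_right {ι : Type*} (s : Finset ι) (u : FV d) (v : ι → FV d) :
    fk h u (∑ i ∈ s, v i) = ∑ i ∈ s, fk h u (v i) := map_sum (fkR h u) v s

lemma fk_conj (hev : ∀ z, h (-z) = h z) (u v : FV d) : conj (fk h v u) = fk h u v := by
  classical
  unfold fk
  rw [Finsupp.sum_comm]
  unfold Finsupp.sum
  rw [map_sum]
  refine Finset.sum_congr rfl fun a _ => ?_
  rw [map_sum]
  refine Finset.sum_congr rfl fun b _ => ?_
  rw [map_mul, map_mul, Complex.conj_conj, Complex.conj_ofReal, ← hev, neg_sub]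
  ring

lemma fk_tau (u v : FV d) (z w : Fin d → ℤ) :
    fk h (tau z u) (tau w v) = fk (fun x => h (x + z - w)) u v := by
  classical
  unfold fk
  rw [tau_apply, tau_apply, Finsupp.sum_mapDomain_index]
  · refine Finsupp.sum_congr fun a _ => ?_
    rw [Finsupp.sum_mapDomain_index]
    · refine Finsupp.sum_congr fun b _ => ?_
      congr 3
      abel
    · intro b; simp
    · intro b m m'; ring
  · intro a; simp
  · intro a m m'
    rw [← Finsupp.sum_add]
    refine Finsupp.sum_congr fun b _ => ?_
    rw [map_add]; ring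

lemma fk_tau' (u v : FV d) (z : Fin d → ℤ) : fk h (tau z u) (tau z v) = fk h u v := by
  rw [fk_tau]
  congr 1
  funext x
  rw [add_sub_cancel_right]

lemma fk_kadd (h h' : (Fin d → ℤ) → ℝ) (u v : FV d) :
    fk (fun x => h x + h' x) u v = fk h u v + fk h' u v := by
  classical
  unfold fk
  rw [← Finsupp.sum_add]
  refine Finsupp.sum_congr fun a _ => ?_
  rw [← Finsupp.sum_add]
  refine Finsupp.sum_congr fun b _ => ?_
  push_cast
  ring

lemma fk_kmul (c : ℝ) (h : (Fin d → ℤ) → ℝ) (u v : FV d) :
    fk (fun x => c * h x) u v = c * fk h u v := by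
  classical
  unfold fk
  rw [Finsupp.mul_sum]
  refine Finsupp.sum_congr fun a _ => ?_
  rw [Finsupp.mul_sum]
  refine Finsupp.sum_congr fun b _ => ?_
  push_cast
  ring

lemma fk_kzero (u v : FV d) : fk (fun _ => 0) u v = 0 := by
  unfold fk
  simp

lemma fk_ksum {ι : Type*} (s : Finset ι) (h : ι → (Fin d → ℤ) → ℝ) (u v : FV d) :
    fk (fun x => ∑ i ∈ s, h i x) u v = ∑ i ∈ s, fk (h i) u v := by
  classical
  induction s using Finset.induction_on with
  | empty => simp only [Finset.sum_empty]; exact fk_kzero u v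
  | insert a s ha ih => simp only [Finset.sum_insert ha]; rw [fk_kadd, ih]

lemma fk_tendsto {h : ℕ → (Fin d → ℤ) → ℝ} {h' : (Fin d → ℤ) → ℝ}
    (hh : ∀ z, Tendsto (fun n => h n z) atTop (𝓝 (h' z))) (u v : FV d) :
    Tendsto (fun n => fk (h n) u v) atTop (𝓝 (fk h' u v)) := by
  unfold fk Finsupp.sum
  refine tendsto_finsetSum _ fun a _ => tendsto_finsetSum _ fun b _ => ?_
  exact ((Complex.continuous_ofReal.tendsto _).comp (hh _)).const_mul _

end form

/-- positive kernels -/
def Psd (h : (Fin d → ℤ) → ℝ) : Prop := ∀ u : FV d, 0 ≤ (fk h u u).re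

/-- the kernel of the identity -/
def dl (z : Fin d → ℤ) : ℝ := if z = 0 then 1 else 0

lemma dl_even (z : Fin d → ℤ) : dl (-z) = dl z := by
  unfold dl
  simp only [neg_eq_zero]

lemma fk_dl (u v : FV d) : fk dl u v = u.sum fun x a => conj a * v x := by
  classical
  unfold fk
  refine Finsupp.sum_congr fun x _ => ?_
  unfold Finsupp.sum dl
  rw [Finset.sum_eq_single x]
  · simp
  · intro y _ hy
    have hne : ¬(x - y = 0) := sub_ne_zero.2 hy.symm
    simp only [if_neg hne]
    simp
  · intro hx
    rw [Finsupp.notMem_support_iff.1 hx]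
    simp

lemma psd_dl : Psd (d := d) dl := by
  intro u
  rw [fk_dl]
  unfold Finsupp.sum
  rw [Complex.re_sum]
  refine Finset.sum_nonneg fun x _ => ?_
  show 0 ≤ (conj (u x) * u x).re
  rw [← Complex.normSq_eq_conj_mul_self, Complex.ofReal_re]
  exact Complex.normSq_nonneg _

lemma psd_nl {h : (Fin d → ℤ) → ℝ} (hh : Psd h) (i : Fin d) : Psd (nl i h) := by
  intro u
  have h1 := hh (u - tau (Pi.single i 1) u)
  have e0 : u = tau 0 u := (tau_zero u).symm
  have h2 : fk h (u - tau (Pi.single i 1) u) (u - tau (Pi.single i 1) u) = fk (nl i h) u u := by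
    have e1 : u - tau (Pi.single i 1) u = u + (-1 : ℂ) • tau (Pi.single i 1) u := by
      rw [neg_smul, one_smul, sub_eq_add_neg]
    rw [e1, fk_add_left, fk_smul_left, fk_add_right, fk_add_right, fk_smul_right, fk_smul_right,
      fk_tau']
    have e2 : fk h u (tau (Pi.single i 1) u) = fk (fun x => h (x - Pi.single i 1)) u u := by
      conv_lhs => rw [e0]
      rw [tau_tau, fk_tau]
      congr 1
      funext x
      congr 1
      simp
    have e3 : fk h (tau (Pi.single i 1) u) u = fk (fun x => h (x + Pi.single i 1)) u u := by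
      conv_lhs => rw [e0]
      rw [tau_tau, fk_tau]
      congr 1
      funext x
      congr 1
      simp
    have e4 : fk (nl i h) u u = 2 * fk h u u - fk (fun x => h (x + Pi.single i 1)) u u -
        fk (fun x => h (x - Pi.single i 1)) u u := by
      have : nl i h = fun x => 2 * h x + ((-1) * h (x + Pi.single i 1) +
          (-1) * h (x - Pi.single i 1)) := by
        funext x
        unfold nl
        ring
      rw [this, fk_kadd, fk_kmul, fk_kadd, fk_kmul, fk_kmul]
      push_cast
      ring
    rw [e2, e3, e4]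
    simp
    ring
  rw [h2] at h1
  exact h1

lemma walk_zero (z : Fin d → ℤ) : walk d 0 z = dl z := by
  rw [walk]
  rfl

lemma walk_succ (hd : 0 < d) (k : ℕ) (z : Fin d → ℤ) : walk d (k + 1) z =
    1 / (4 * d : ℝ) * ∑ i, (2 * walk d k z + walk d k (z + Pi.single i 1) +
      walk d k (z - Pi.single i 1)) := by
  rw [walk]
  have hd' : (d : ℝ) ≠ 0 := by positivity
  have : ∑ i : Fin d, (2 * walk d k z + walk d k (z + Pi.single i 1) +
      walk d k (z - Pi.single i 1)) = 2 * d * walk d k z +
      ∑ i, (walk d k (z + Pi.single i 1) + walk d k (z - Pi.single i 1)) := by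
    simp only [add_assoc]
    rw [Finset.sum_add_distrib, Finset.sum_const, Finset.card_univ, Fintype.card_fin,
      nsmul_eq_mul]
    ring
  rw [this]
  field_simp
  ring

lemma psd_walk (hd : 0 < d) (k : ℕ) : Psd (walk d k) := by
  induction k with
  | zero =>
    have : walk d 0 = dl := funext walk_zero
    rw [this]
    exact psd_dl
  | succ k ih =>
    intro u
    have e0 : u = tau 0 u := (tau_zero u).symm
    have h2 : fk (walk d (k + 1)) u u = ((1 / (4 * d : ℝ) : ℝ) : ℂ) *
        ∑ i, fk (walk d k) (u + tau (Pi.single i 1) u) (u + tau (Pi.single i 1) u) := by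
      have : walk d (k + 1) = fun z => 1 / (4 * d : ℝ) * ∑ i, (2 * walk d k z +
          walk d k (z + Pi.single i 1) + walk d k (z - Pi.single i 1)) :=
        funext (walk_succ hd k)
      rw [this, fk_kmul, fk_ksum]
      congr 1
      refine Finset.sum_congr rfl fun i _ => ?_
      rw [fk_kadd, fk_kadd, fk_kmul, fk_add_left, fk_add_right, fk_add_right, fk_tau']
      have e2 : fk (walk d k) u (tau (Pi.single i 1) u) =
          fk (fun x => walk d k (x - Pi.single i 1)) u u := by
        conv_lhs => rw [e0]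
        rw [tau_tau, fk_tau]
        congr 1
        funext x
        congr 1
        simp
      have e3 : fk (walk d k) (tau (Pi.single i 1) u) u =
          fk (fun x => walk d k (x + Pi.single i 1)) u u := by
        conv_lhs => rw [e0]
        rw [tau_tau, fk_tau]
        congr 1
        funext x
        congr 1
        simp
      rw [e2, e3]
      push_cast
      ring
    rw [h2, Complex.re_ofReal_mul, Complex.re_sum]
    exact mul_nonneg (by positivity) (Finset.sum_nonneg fun i _ => ih _)

/-- the truncated Green function -/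
def gn (d K : ℕ) (z : Fin d → ℤ) : ℝ := 1 / (4 * d : ℝ) * ∑ k ∈ Finset.range K, walk d k z

lemma psd_gn (hd : 0 < d) (K : ℕ) : Psd (gn d K) := by
  intro u
  have : gn d K = fun z => 1 / (4 * d : ℝ) * ∑ k ∈ Finset.range K, walk d k z := rfl
  rw [this, fk_kmul, fk_ksum, Complex.re_ofReal_mul, Complex.re_sum]
  exact mul_nonneg (by positivity) (Finset.sum_nonneg fun k _ => psd_walk hd k u)

lemma sum_nl_gn (hd : 0 < d) (K : ℕ) (z : Fin d → ℤ) :
    ∑ i, nl i (gn d K) z = walk d 0 z - walk d K z := by
  have hd' : (d : ℝ) ≠ 0 := by positivity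
  have h1 : ∀ k, ∑ i, nl i (walk d k) z = 4 * d * (walk d k z - walk d (k + 1) z) := by
    intro k
    rw [walk_succ hd k z]
    unfold nl
    have : ∑ i : Fin d, (2 * walk d k z + walk d k (z + Pi.single i 1) +
        walk d k (z - Pi.single i 1)) = ∑ i : Fin d, 4 * walk d k z -
        ∑ i : Fin d, (2 * walk d k z - walk d k (z + Pi.single i 1) -
          walk d k (z - Pi.single i 1)) := by
      rw [← Finset.sum_sub_distrib]
      exact Finset.sum_congr rfl fun i _ => by ring
    rw [this, Finset.sum_const, Finset.card_univ, Fintype.card_fin, nsmul_eq_mul]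
    field_simp
    ring
  have h2 : ∑ i, nl i (gn d K) z = 1 / (4 * d : ℝ) * ∑ k ∈ Finset.range K,
      ∑ i, nl i (walk d k) z := by
    rw [Finset.sum_comm, Finset.mul_sum]
    refine Finset.sum_congr rfl fun i _ => ?_
    unfold nl gn
    rw [Finset.sum_sub_distrib, Finset.sum_sub_distrib, ← Finset.mul_sum]
    ring
  rw [h2]
  simp only [h1]
  rw [← Finset.mul_sum, Finset.sum_range_sub']
  field_simp

lemma walk_summable (hd : 3 ≤ d) (z : Fin d → ℤ) : Summable fun k => walk d k z := by
  simp only [walk_eq]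
  exact Y16.YM.pk_summable hd z

lemma gn_tendsto (hd : 3 ≤ d) (z : Fin d → ℤ) :
    Tendsto (fun K => gn d K z) atTop (𝓝 (green d z)) :=
  ((walk_summable hd z).hasSum.tendsto_sum_nat).const_mul _

/-- the Green function inverts the Laplacian -/
lemma sum_nl_green (hd : 3 ≤ d) (z : Fin d → ℤ) : ∑ i, nl i (green d) z = dl z := by
  have h1 : Tendsto (fun K => ∑ i, nl i (gn d K) z) atTop (𝓝 (∑ i, nl i (green d) z)) :=
    tendsto_finsetSum _ fun i _ => (((gn_tendsto hd z).const_mul 2).sub (gn_tendsto hd _)).sub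
      (gn_tendsto hd _)
  have h2 : Tendsto (fun K => ∑ i, nl i (gn d K) z) atTop (𝓝 (dl z)) := by
    have h3 := (walk_summable hd z).tendsto_atTop_zero
    have h4 := h3.const_sub (dl z)
    rw [sub_zero] at h4
    refine h4.congr fun K => ?_
    rw [sum_nl_gn (by omega), walk_zero]
  exact tendsto_nhds_unique h1 h2

/-- the kernel of the plaquettes -/
def pkn (i j : Fin d) (z : Fin d → ℤ) : ℝ := nl i (green d) z + nl j (green d) z

lemma nl_even {h : (Fin d → ℤ) → ℝ} (hh : ∀ z, h (-z) = h z) (i : Fin d) (z : Fin d → ℤ) :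
    nl i h (-z) = nl i h z := by
  unfold nl
  have e1 : -z + Pi.single i 1 = -(z - Pi.single i 1) := by abel
  have e2 : -z - Pi.single i 1 = -(z + Pi.single i 1) := by abel
  rw [hh, e1, e2, hh, hh]
  ring

lemma pkn_even (i j : Fin d) (z : Fin d → ℤ) : pkn i j (-z) = pkn i j z := by
  unfold pkn
  rw [nl_even green_even, nl_even green_even]

lemma psd_lim {h : ℕ → (Fin d → ℤ) → ℝ} {h' : (Fin d → ℤ) → ℝ}
    (hh : ∀ z, Tendsto (fun n => h n z) atTop (𝓝 (h' z))) (hp : ∀ n, Psd (h n)) : Psd h' := by
  intro u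
  exact ge_of_tendsto' ((Complex.continuous_re.tendsto _).comp (fk_tendsto hh u u))
    fun n => hp n u

lemma psd_pkn (hd : 3 ≤ d) (i j : Fin d) : Psd (pkn i j) := by
  have hg : Psd (green d) := psd_lim (gn_tendsto hd) fun n => psd_gn (by omega) n
  intro u
  have : pkn i j = fun z => nl i (green d) z + nl j (green d) z := rfl
  rw [this, fk_kadd, Complex.add_re]
  exact add_nonneg (psd_nl hg i u) (psd_nl hg j u)

/-- the kernel of the plaquettes is a contraction -/
lemma pkn_le (hd : 3 ≤ d) {i j : Fin d} (hij : i ≠ j) (u : FV d) :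
    (fk (pkn i j) u u).re ≤ (fk dl u u).re := by
  have hd0 : 0 < d := by omega
  have key : ∀ K, (fk (fun z => nl i (gn d K) z + nl j (gn d K) z) u u).re ≤
      (fk dl u u).re := by
    intro K
    have h1 : fk (fun z => ∑ i, nl i (gn d K) z) u u = fk dl u u - fk (walk d K) u u := by
      have : (fun z => ∑ i, nl i (gn d K) z) = fun z => dl z + (-1) * walk d K z := by
        funext z
        rw [sum_nl_gn hd0, walk_zero]
        ring
      rw [this, fk_kadd, fk_kmul]
      push_cast
      ring
    have h2 := psd_walk hd0 K u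
    rw [fk_ksum] at h1
    have h3 := congrArg Complex.re h1
    rw [Complex.re_sum, Complex.sub_re] at h3
    have h4 : (fk (nl i (gn d K)) u u).re + (fk (nl j (gn d K)) u u).re ≤
        ∑ i, (fk (nl i (gn d K)) u u).re := by
      rw [← Finset.sum_pair (f := fun i => (fk (nl i (gn d K)) u u).re) hij]
      exact Finset.sum_le_sum_of_subset_of_nonneg (Finset.subset_univ _) fun l _ _ =>
        psd_nl (psd_gn hd0 K) l u
    rw [fk_kadd, Complex.add_re]
    linarith
  refine le_of_tendsto' ((Complex.continuous_re.tendsto _).comp (fk_tendsto (fun z => ?_) u u)) key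
  have hz : ∀ i, Tendsto (fun K => nl i (gn d K) z) atTop (𝓝 (nl i (green d) z)) := fun i =>
    (((gn_tendsto hd z).const_mul 2).sub (gn_tendsto hd _)).sub (gn_tendsto hd _)
  exact (hz i).add (hz j)

end

end Pool.Agent.Q235.EM
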