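import Mathlib
import Pool.Agent.Q235.EM.Ker

/-!
# Wave packets
-/

open Filter ComplexConjugate
open scoped Topology

namespace Pool.Agent.Q235.EM

open Pool.Agent.Results.MP_7f377f_mp.WilsonLoopsWeakCoupling

set_option linter.unusedSectionVars false

noncomputable section

variable {d : ℕ}

/-- the pre-Hilbert structure of a positive kernel -/
@[instance_reducible] def core (h : (Fin d → ℤ) → ℝ) (hev : ∀ z, h (-z) = h z) (hp : Psd h) :
    PreInnerProductSpace.Core ℂ (FV d) where
  inner := fk h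
  conj_inner_symm c e := fk_conj h hev c e
  re_inner_nonneg := hp
  add_left := fk_add_left h
  smul_left c e r := fk_smul_left h r c e

lemma fk_cs {h : (Fin d → ℤ) → ℝ} (hev : ∀ z, h (-z) = h z) (hp : Psd h) (u v : FV d) :
    ‖fk h u v‖ ≤ Real.sqrt (fk h u u).re * Real.sqrt (fk h v v).re := by
  let c := core h hev hp
  exact @InnerProductSpace.Core.norm_inner_le_norm ℂ (FV d) _ _ _ c u v

/-- the norm -/
def N2 (u : FV d) : ℝ := Real.sqrt (fk dl u u).re

lemma N2_nonneg (u : FV d) : 0 ≤ N2 u := Real.sqrt_nonneg _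

lemma N2_add (u v : FV d) : N2 (u + v) ≤ N2 u + N2 v := by
  let c := core dl dl_even (psd_dl (d := d))
  let i1 := @InnerProductSpace.Core.toSeminormedAddCommGroup ℂ (FV d) _ _ _ c
  exact norm_add_le u v

lemma N2_smul (c : ℂ) (u : FV d) : N2 (c • u) = ‖c‖ * N2 u := by
  unfold N2
  rw [fk_smul_left, fk_smul_right, ← mul_assoc, ← Complex.normSq_eq_conj_mul_self,
    Complex.re_ofReal_mul, Real.sqrt_mul (Complex.normSq_nonneg _), Complex.normSq_eq_norm_sq,
    Real.sqrt_sq (norm_nonneg _)]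

lemma N2_zero : N2 (0 : FV d) = 0 := by
  have := N2_smul (0 : ℂ) (0 : FV d)
  rwa [zero_smul, norm_zero, zero_mul] at this

lemma N2_neg (u : FV d) : N2 (-u) = N2 u := by
  have := N2_smul (-1 : ℂ) u
  rwa [neg_smul, one_smul, norm_neg, norm_one, one_mul] at this

lemma N2_sub (u v : FV d) : N2 (u - v) ≤ N2 u + N2 v := by
  rw [sub_eq_add_neg]
  refine (N2_add _ _).trans ?_
  rw [N2_neg]

lemma N2_sum {ι : Type*} (s : Finset ι) (u : ι → FV d) :
    N2 (∑ i ∈ s, u i) ≤ ∑ i ∈ s, N2 (u i) := by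
  classical
  induction s using Finset.induction_on with
  | empty => rw [Finset.sum_empty, Finset.sum_empty, N2_zero]
  | insert a s ha ih =>
    rw [Finset.sum_insert ha, Finset.sum_insert ha]
    exact (N2_add _ _).trans (by linarith)

lemma N2_tau (z : Fin d → ℤ) (u : FV d) : N2 (tau z u) = N2 u := by
  unfold N2
  rw [fk_tau']

lemma N2_sq (u : FV d) : N2 u ^ 2 = (fk dl u u).re := Real.sq_sqrt (psd_dl u)

lemma fk_dl_self (u : FV d) : fk dl u u = ((N2 u ^ 2 : ℝ) : ℂ) := by
  rw [N2_sq]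
  apply Complex.ext
  · simp
  · have := fk_conj dl dl_even u u
    have h1 := Complex.conj_eq_iff_im.1 this
    rw [h1]
    simp

lemma dl_cs (u v : FV d) : ‖fk dl u v‖ ≤ N2 u * N2 v := fk_cs dl_even psd_dl u v

lemma pkn_cs (hd : 3 ≤ d) {i j : Fin d} (hij : i ≠ j) (u v : FV d) :
    ‖fk (pkn i j) u v‖ ≤ N2 u * N2 v := by
  refine (fk_cs (pkn_even i j) (psd_pkn hd i j) u v).trans ?_
  exact mul_le_mul (Real.sqrt_le_sqrt (pkn_le hd hij u)) (Real.sqrt_le_sqrt (pkn_le hd hij v))
    (Real.sqrt_nonneg _) (Real.sqrt_nonneg _)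

/-- the second difference in one direction -/
def sd (i : Fin d) (a : FV d) : FV d :=
  (2 : ℂ) • a - tau (Pi.single i 1) a - tau (-Pi.single i 1) a

lemma fk_sd (h : (Fin d → ℤ) → ℝ) (i : Fin d) (u a : FV d) :
    fk h u (sd i a) = fk (nl i h) u a := by
  unfold sd
  rw [fk_sub_right, fk_sub_right, fk_smul_right]
  have e0 : u = tau 0 u := (tau_zero u).symm
  have e2 : ∀ z, fk h u (tau z a) = fk (fun x => h (x - z)) u a := by
    intro z
    conv_lhs => rw [e0]
    rw [fk_tau]
    congr 1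
    funext x
    congr 1
    simp
  rw [e2, e2]
  have : nl i h = fun x => 2 * h x + ((-1) * h (x - Pi.single i 1) +
      (-1) * h (x - -Pi.single i 1)) := by
    funext x
    unfold nl
    rw [sub_neg_eq_add]
    ring
  rw [this, fk_kadd, fk_kmul, fk_kadd, fk_kmul, fk_kmul]
  push_cast
  ring

lemma nl_nl (i j : Fin d) (h : (Fin d → ℤ) → ℝ) (z : Fin d → ℤ) :
    nl i (nl j h) z = nl j (nl i h) z := by
  unfold nl
  have e1 : z + Pi.single i 1 + Pi.single j 1 = z + Pi.single j 1 + Pi.single i 1 := by abel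
  have e2 : z + Pi.single i 1 - Pi.single j 1 = z - Pi.single j 1 + Pi.single i 1 := by abel
  have e3 : z - Pi.single i 1 + Pi.single j 1 = z + Pi.single j 1 - Pi.single i 1 := by abel
  have e4 : z - Pi.single i 1 - Pi.single j 1 = z - Pi.single j 1 - Pi.single i 1 := by abel
  rw [e1, e2, e3, e4]
  ring

/-- the form of the plaquettes and the Laplacian -/
lemma fk_lap (hd : 3 ≤ d) (i j : Fin d) (u a : FV d) :
    fk (pkn i j) u (∑ l, sd l a) = fk dl u (sd i a) + fk dl u (sd j a) := by
  rw [fk_sum_right]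
  simp only [fk_sd]
  rw [← fk_kadd, ← fk_ksum]
  congr 1
  funext z
  have h1 : ∀ l, nl l (pkn i j) z = nl i (nl l (green d)) z + nl j (nl l (green d)) z := by
    intro l
    have : nl l (pkn i j) z = nl l (nl i (green d)) z + nl l (nl j (green d)) z := by
      unfold pkn
      unfold nl
      ring
    rw [this, nl_nl l i, nl_nl l j]
  simp only [h1]
  rw [Finset.sum_add_distrib]
  have h2 : ∀ i, ∑ l, nl i (nl l (green d)) z = nl i dl z := by
    intro i
    have h3 : ∀ l, nl i (nl l (green d)) z = 2 * nl l (green d) z -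
        nl l (green d) (z + Pi.single i 1) - nl l (green d) (z - Pi.single i 1) := fun l => rfl
    simp only [h3]
    rw [Finset.sum_sub_distrib, Finset.sum_sub_distrib, ← Finset.mul_sum, sum_nl_green hd,
      sum_nl_green hd, sum_nl_green hd]
    rfl
  rw [h2, h2]

end

end Pool.Agent.Q235.EM
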