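import Mathlib
import Pool.Agent.Q235.EM.Pack
import Pool.Agent.Q235.EM.Inf

/-!
# Plane wave packets
-/

open Filter ComplexConjugate
open scoped Topology

namespace Pool.Agent.Q235.EM

open Pool.Agent.Results.MP_7f377f_mp.WilsonLoopsWeakCoupling

set_option linter.unusedSectionVars false

noncomputable section

variable {d D : ℕ}

lemma fk_single (h : (Fin d → ℤ) → ℝ) (x y : Fin d → ℤ) (a b : ℂ) :
    fk h (Finsupp.single x a) (Finsupp.single y b) = conj a * b * h (x - y) := by
  unfold fk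
  rw [Finsupp.sum_single_index, Finsupp.sum_single_index]
  · simp
  · simp

lemma fk_zero_left (h : (Fin d → ℤ) → ℝ) (v : FV d) : fk h 0 v = 0 := by
  unfold fk
  rw [Finsupp.sum_zero_index]

lemma fk_sum_left (h : (Fin d → ℤ) → ℝ) {ι : Type*} (s : Finset ι) (u : ι → FV d) (v : FV d) :
    fk h (∑ i ∈ s, u i) v = ∑ i ∈ s, fk h (u i) v := by
  classical
  induction s using Finset.induction_on with
  | empty => rw [Finset.sum_empty, Finset.sum_empty, fk_zero_left]
  | insert a s ha ih => rw [Finset.sum_insert ha, Finset.sum_insert ha, fk_add_left, ih]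

/-- the plane wave -/
def chi (z : Fin D → ℂ) (x : Fin D → ℤ) : ℂ := ∏ j, z j ^ (-(x j))

lemma chi_norm {z : Fin D → ℂ} (hz : ∀ j, ‖z j‖ = 1) (x : Fin D → ℤ) : ‖chi z x‖ = 1 := by
  unfold chi
  rw [norm_prod]
  refine Finset.prod_eq_one fun j _ => ?_
  rw [norm_zpow, hz, one_zpow]

lemma chi_sub {z : Fin D → ℂ} (hz : ∀ j, ‖z j‖ = 1) (x v : Fin D → ℤ) :
    chi z (x - v) = (∏ j, z j ^ v j) * chi z x := by
  unfold chi
  rw [← Finset.prod_mul_distrib]
  refine Finset.prod_congr rfl fun j _ => ?_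
  have hj : z j ≠ 0 := by
    intro h
    have := hz j
    rw [h, norm_zero] at this
    exact zero_ne_one this
  rw [← zpow_add₀ hj]
  congr 1
  rw [Pi.sub_apply]
  ring

/-- the plane wave packet with the shape `A` at the time `t` -/
def pkt (z : Fin D → ℂ) (A : Finset (Fin D → ℤ)) (t : ℤ) : FV (D + 1) :=
  ∑ x ∈ A, Finsupp.single (pt x t) (chi z x)

lemma pt_inj {x y : Fin D → ℤ} {t s : ℤ} : pt x t = pt y s ↔ x = y ∧ t = s := by
  constructor
  · intro h
    refine ⟨?_, ?_⟩
    · funext j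
      rw [← pt_cast x t j, ← pt_cast y s j, h]
    · rw [← pt_last x t, ← pt_last y s, h]
  · rintro ⟨rfl, rfl⟩
    rfl

lemma dl_pt (x y : Fin D → ℤ) (t s : ℤ) : dl (pt x t - pt y s) =
    if x = y ∧ t = s then 1 else 0 := by
  unfold dl
  simp only [sub_eq_zero, pt_inj]

lemma fk_dl_pkt {z : Fin D → ℂ} (hz : ∀ j, ‖z j‖ = 1) (A : Finset (Fin D → ℤ)) (t s : ℤ) :
    fk dl (pkt z A t) (pkt z A s) = if t = s then (A.card : ℂ) else 0 := by
  classical
  unfold pkt
  rw [fk_sum_left]
  simp only [fk_sum_right, fk_single, dl_pt]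
  by_cases h : t = s
  · simp only [h, and_true, if_true]
    have : ∀ x ∈ A, ∑ y ∈ A, conj (chi z x) * chi z y * ((if x = y then (1 : ℝ) else 0 : ℝ) : ℂ) =
        1 := by
      intro x hx
      rw [Finset.sum_eq_single_of_mem x hx]
      · rw [if_pos rfl, Complex.ofReal_one, mul_one, ← Complex.normSq_eq_conj_mul_self,
          Complex.normSq_eq_norm_sq, chi_norm hz]
        norm_num
      · intro y _ hy
        rw [if_neg hy.symm, Complex.ofReal_zero, mul_zero]
    rw [Finset.sum_congr rfl this]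
    simp
  · simp only [h, and_false, if_false, Complex.ofReal_zero, mul_zero, Finset.sum_const_zero]

lemma N2_pkt {z : Fin D → ℂ} (hz : ∀ j, ‖z j‖ = 1) (A : Finset (Fin D → ℤ)) (t : ℤ) :
    N2 (pkt z A t) = Real.sqrt A.card := by
  unfold N2
  rw [fk_dl_pkt hz, if_pos rfl, Complex.natCast_re]

/-- the translated set -/
def trs (A : Finset (Fin D → ℤ)) (v : Fin D → ℤ) : Finset (Fin D → ℤ) :=
  A.map (Equiv.addRight v).toEmbedding

lemma mem_trs {A : Finset (Fin D → ℤ)} {v x : Fin D → ℤ} : x ∈ trs A v ↔ x - v ∈ A := by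
  unfold trs
  rw [Finset.mem_map]
  constructor
  · rintro ⟨y, hy, rfl⟩
    show y + v - v ∈ A
    rwa [add_sub_cancel_right]
  · intro h
    exact ⟨x - v, h, sub_add_cancel x v⟩

lemma card_trs (A : Finset (Fin D → ℤ)) (v : Fin D → ℤ) : (trs A v).card = A.card :=
  Finset.card_map _

lemma tau_pkt {z : Fin D → ℂ} (hz : ∀ j, ‖z j‖ = 1) (A : Finset (Fin D → ℤ)) (t : ℤ)
    (v : Fin D → ℤ) : tau (pt v 0) (pkt z A t) = (∏ j, z j ^ v j) • pkt z (trs A v) t := by
  unfold pkt trs
  rw [map_sum, Finset.sum_map, Finset.smul_sum]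
  refine Finset.sum_congr rfl fun x _ => ?_
  rw [tau_single, pt_add, add_zero, Finsupp.smul_single, smul_eq_mul]
  show _ = Finsupp.single (pt (x + v) t) ((∏ j, z j ^ v j) * chi z (x + v))
  rw [← chi_sub hz, add_sub_cancel_right]

lemma tau_pkt_time (z : Fin D → ℂ) (A : Finset (Fin D → ℤ)) (t s : ℤ) :
    tau (pt 0 s) (pkt z A t) = pkt z A (t + s) := by
  unfold pkt
  rw [map_sum]
  refine Finset.sum_congr rfl fun x _ => ?_
  rw [tau_single, pt_add, add_zero]

lemma pkt_sub (z : Fin D → ℂ) (A B : Finset (Fin D → ℤ)) (t : ℤ) :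
    pkt z A t - pkt z B t = pkt z (A \ B) t - pkt z (B \ A) t := by
  classical
  unfold pkt
  rw [← Finset.sum_inter_add_sum_sdiff A B, ← Finset.sum_inter_add_sum_sdiff B A,
    Finset.inter_comm B A]
  abel

/-- the error of the translation of a packet -/
def ers (A : Finset (Fin D → ℤ)) (v : Fin D → ℤ) : ℝ := 2 * Real.sqrt (A \ trs A v).card

lemma N2_err {z : Fin D → ℂ} (hz : ∀ j, ‖z j‖ = 1) (A : Finset (Fin D → ℤ)) (t : ℤ)
    (v : Fin D → ℤ) : N2 (tau (pt v 0) (pkt z A t) - (∏ j, z j ^ v j) • pkt z A t) ≤ ers A v := by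
  classical
  rw [tau_pkt hz, ← smul_sub, N2_smul, pkt_sub]
  have h1 : ‖∏ j, z j ^ v j‖ = 1 := by
    rw [norm_prod]
    refine Finset.prod_eq_one fun j _ => ?_
    rw [norm_zpow, hz, one_zpow]
  rw [h1, one_mul]
  refine (N2_sub _ _).trans ?_
  rw [N2_pkt hz, N2_pkt hz]
  have h2 : (trs A v \ A).card = (A \ trs A v).card := by
    have h3 := Finset.card_sdiff_add_card_inter A (trs A v)
    have h4 := Finset.card_sdiff_add_card_inter (trs A v) A
    rw [Finset.inter_comm, card_trs] at h4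
    omega
  rw [h2]
  unfold ers
  linarith

/-- boxes -/
def bx (D R : ℕ) : Finset (Fin D → ℤ) := Fintype.piFinset fun _ => Finset.Ico 0 (R : ℤ)

lemma mem_bx {R : ℕ} {x : Fin D → ℤ} : x ∈ bx D R ↔ ∀ j, 0 ≤ x j ∧ x j < R := by
  unfold bx
  rw [Fintype.mem_piFinset]
  simp only [Finset.mem_Ico]

lemma card_bx (R : ℕ) : (bx D R).card = ∏ _j : Fin D, R := by
  unfold bx
  rw [Fintype.card_piFinset]
  simp

lemma card_slice (R : ℕ) (j : Fin D) (c : ℤ) :
    ((bx D R).filter fun x => x j = c).card * R ≤ (bx D R).card := by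
  classical
  have h1 : (bx D R).filter (fun x => x j = c) ⊆
      Fintype.piFinset fun i => if i = j then {c} else Finset.Ico 0 (R : ℤ) := by
    intro x hx
    rw [Finset.mem_filter, mem_bx] at hx
    rw [Fintype.mem_piFinset]
    intro i
    by_cases h : i = j
    · rw [if_pos h, h, Finset.mem_singleton]
      exact hx.2
    · rw [if_neg h, Finset.mem_Ico]
      exact hx.1 i
  have h2 := Finset.card_le_card h1
  rw [Fintype.card_piFinset] at h2
  have h3 : (∏ i : Fin D, (if i = j then ({c} : Finset ℤ) else Finset.Ico 0 (R : ℤ)).card) * R =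
      (bx D R).card := by
    rw [card_bx]
    have h4 : R = ∏ i : Fin D, if i = j then R else 1 := by
      rw [Finset.prod_ite_eq' Finset.univ j fun _ => R]
      simp
    nth_rewrite 2 [h4]
    rw [← Finset.prod_mul_distrib]
    refine Finset.prod_congr rfl fun i _ => ?_
    by_cases h : i = j
    · simp [h]
    · simp [h]
  calc _ ≤ _ := Nat.mul_le_mul_right R h2
    _ = _ := h3

/-- boxes are almost invariant -/
lemma folner (D : ℕ) {δ : ℝ} (hδ : 0 < δ) : ∃ A : Finset (Fin D → ℤ), 0 < A.card ∧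
    ∀ j : Fin D, ers A (Pi.single j 1) ≤ δ * Real.sqrt A.card ∧
      ers A (-Pi.single j 1) ≤ δ * Real.sqrt A.card := by
  classical
  obtain ⟨R, hR⟩ := exists_nat_gt (4 / δ ^ 2 + 1)
  have hRpos : 0 < R := by
    have : (0 : ℝ) < R := lt_trans (by positivity) hR
    exact_mod_cast this
  have hR' : 4 ≤ δ ^ 2 * R := by
    have h1 : 4 / δ ^ 2 < R := by linarith
    rw [div_lt_iff₀ (by positivity)] at h1
    linarith
  refine ⟨bx D R, ?_, fun j => ?_⟩
  · rw [card_bx]
    exact Finset.prod_pos fun _ _ => hRpos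
  · have key : ∀ v c, (bx D R \ trs (bx D R) v ⊆ (bx D R).filter fun x => x j = c) →
        ers (bx D R) v ≤ δ * Real.sqrt (bx D R).card := by
      intro v c h
      have h1 := Finset.card_le_card h
      have h2 := card_slice R j c
      have h3 : ((bx D R \ trs (bx D R) v).card : ℝ) * R ≤ (bx D R).card := by
        have : (bx D R \ trs (bx D R) v).card * R ≤ (bx D R).card :=
          (Nat.mul_le_mul_right R h1).trans h2
        exact_mod_cast this
      unfold ers
      have h4 : (2 : ℝ) = Real.sqrt 4 := by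
        rw [show (4 : ℝ) = 2 ^ 2 by norm_num, Real.sqrt_sq (by norm_num)]
      rw [h4, ← Real.sqrt_mul (by norm_num)]
      have h5 : δ * Real.sqrt (bx D R).card = Real.sqrt (δ ^ 2 * (bx D R).card) := by
        rw [Real.sqrt_mul (by positivity), Real.sqrt_sq hδ.le]
      rw [h5]
      refine Real.sqrt_le_sqrt ?_
      calc 4 * ((bx D R \ trs (bx D R) v).card : ℝ) ≤
          (δ ^ 2 * R) * (bx D R \ trs (bx D R) v).card :=
            mul_le_mul_of_nonneg_right hR' (Nat.cast_nonneg _)
        _ = δ ^ 2 * ((bx D R \ trs (bx D R) v).card * R) := by ring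
        _ ≤ δ ^ 2 * (bx D R).card := mul_le_mul_of_nonneg_left h3 (by positivity)
    refine ⟨key _ 0 fun x hx => ?_, key _ (R - 1) fun x hx => ?_⟩
    · rw [Finset.mem_sdiff, mem_trs, mem_bx, mem_bx] at hx
      rw [Finset.mem_filter, mem_bx]
      refine ⟨hx.1, ?_⟩
      by_contra h0
      refine hx.2 fun i => ?_
      have h1 := hx.1 i
      by_cases hi : i = j
      · subst hi
        rw [Pi.sub_apply, Pi.single_eq_same]
        omega
      · rw [Pi.sub_apply, Pi.single_eq_of_ne hi]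
        omega
    · rw [Finset.mem_sdiff, mem_trs, mem_bx, mem_bx] at hx
      rw [Finset.mem_filter, mem_bx]
      refine ⟨hx.1, ?_⟩
      by_contra h0
      refine hx.2 fun i => ?_
      have h1 := hx.1 i
      by_cases hi : i = j
      · subst hi
        rw [Pi.sub_apply, Pi.neg_apply, Pi.single_eq_same]
        omega
      · rw [Pi.sub_apply, Pi.neg_apply, Pi.single_eq_of_ne hi]
        omega

end

end Pool.Agent.Q235.EM
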