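import Mathlib
import Pool.Agent.Q235.EM.Pkt

/-!
# Wave packets on the mass shell
-/

open Filter ComplexConjugate
open scoped Topology

namespace Pool.Agent.Q235.EM

open Pool.Agent.Results.MP_7f377f_mp.WilsonLoopsWeakCoupling

set_option linter.unusedSectionVars false

noncomputable section

variable {d D : ℕ}

lemma sd_add (i : Fin d) (a b : FV d) : sd i (a + b) = sd i a + sd i b := by
  unfold sd
  rw [map_add, map_add, smul_add]
  abel

lemma sd_smul (i : Fin d) (c : ℂ) (a : FV d) : sd i (c • a) = c • sd i a := by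
  unfold sd
  rw [map_smul, map_smul, smul_sub, smul_sub, smul_comm]

/-- the eigenvalue of the second difference -/
def ml (z : Fin D → ℂ) (l : Fin D) : ℝ := ‖1 - z l‖ ^ 2

lemma ml_eq {z : Fin D → ℂ} (hz : ∀ j, ‖z j‖ = 1) (l : Fin D) :
    ((ml z l : ℝ) : ℂ) = 2 - z l - conj (z l) := by
  unfold ml
  rw [← Complex.normSq_eq_norm_sq, Complex.normSq_eq_conj_mul_self, map_sub, map_one]
  have h : conj (z l) * z l = 1 := by
    rw [← Complex.normSq_eq_conj_mul_self, Complex.normSq_eq_norm_sq, hz]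
    norm_num
  linear_combination h

lemma pt_single (l : Fin D) (c : ℤ) : (Pi.single l.castSucc c : Fin (D + 1) → ℤ) =
    pt (Pi.single l c) 0 := by
  funext i
  refine Fin.lastCases ?_ (fun j => ?_) i
  · rw [pt_last, Pi.single_eq_of_ne (Fin.castSucc_lt_last l).ne']
  · rw [pt_cast]
    by_cases h : j = l
    · subst h; simp
    · rw [Pi.single_eq_of_ne h, Pi.single_eq_of_ne]
      intro h'
      exact h (Fin.castSucc_injective _ h')

lemma pt_single_last (c : ℤ) : (Pi.single (Fin.last D) c : Fin (D + 1) → ℤ) = pt 0 c := by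
  funext i
  refine Fin.lastCases ?_ (fun j => ?_) i
  · rw [pt_last, Pi.single_eq_same]
  · rw [pt_cast, Pi.single_eq_of_ne (Fin.castSucc_lt_last j).ne]
    rfl

lemma pt_neg (x : Fin D → ℤ) (t : ℤ) : -pt x t = pt (-x) (-t) := by
  funext i
  refine Fin.lastCases ?_ (fun j => ?_) i
  · rw [Pi.neg_apply, pt_last, pt_last]
  · rw [Pi.neg_apply, pt_cast, pt_cast, Pi.neg_apply]

section packet

variable {z : Fin D → ℂ} (hz : ∀ j, ‖z j‖ = 1) {A : Finset (Fin D → ℤ)} {e : ℝ}
  (hA : ∀ j : Fin D, ers A (Pi.single j 1) ≤ e ∧ ers A (-Pi.single j 1) ≤ e)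

include hz hA

lemma err_pos (t : ℤ) (l : Fin D) :
    N2 (tau (Pi.single l.castSucc 1) (pkt z A t) - z l • pkt z A t) ≤ e := by
  have h := (N2_err hz A t (Pi.single l 1)).trans (hA l).1
  have h1 : ∏ j, z j ^ ((Pi.single l 1 : Fin D → ℤ) j) = z l := by
    rw [Finset.prod_eq_single l]
    · simp
    · intro j _ hj
      rw [Pi.single_eq_of_ne hj, zpow_zero]
    · intro h; exact absurd (Finset.mem_univ _) h
  rwa [h1, ← pt_single] at h

lemma err_neg (t : ℤ) (l : Fin D) :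
    N2 (tau (-Pi.single l.castSucc 1) (pkt z A t) - conj (z l) • pkt z A t) ≤ e := by
  have h := (N2_err hz A t (-Pi.single l 1)).trans (hA l).2
  have hc : conj (z l) = (z l)⁻¹ := by
    rw [Complex.inv_def, Complex.normSq_eq_norm_sq, hz]
    simp
  have h1 : ∏ j, z j ^ ((-Pi.single l 1 : Fin D → ℤ) j) = conj (z l) := by
    rw [Finset.prod_eq_single l]
    · rw [Pi.neg_apply, Pi.single_eq_same, zpow_neg_one, hc]
    · intro j _ hj
      rw [Pi.neg_apply, Pi.single_eq_of_ne hj, neg_zero, zpow_zero]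
    · intro h; exact absurd (Finset.mem_univ _) h
  rw [h1] at h
  have h2 : (-Pi.single l.castSucc 1 : Fin (D + 1) → ℤ) = pt (-Pi.single l 1) 0 := by
    rw [pt_single, pt_neg, neg_zero]
  rwa [← h2] at h

lemma err_sd (t : ℤ) (l : Fin D) :
    N2 (sd l.castSucc (pkt z A t) - (ml z l : ℂ) • pkt z A t) ≤ 2 * e := by
  have h1 : sd l.castSucc (pkt z A t) - (ml z l : ℂ) • pkt z A t =
      -((tau (Pi.single l.castSucc 1) (pkt z A t) - z l • pkt z A t) +
      (tau (-Pi.single l.castSucc 1) (pkt z A t) - conj (z l) • pkt z A t)) := by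
    unfold sd
    rw [ml_eq hz, sub_smul, sub_smul]
    abel
  rw [h1, N2_neg]
  refine (N2_add _ _).trans ?_
  have h2 := err_pos hz hA t l
  have h3 := err_neg hz hA t l
  linarith

end packet

/-- the approximate inverse -/
def apx (z : Fin D → ℂ) (A : Finset (Fin D → ℤ)) (q : ℝ) : ℕ → FV (D + 1)
  | 0 => pkt z A 0
  | T + 1 => apx z A q T + ((q ^ (T + 1) : ℝ) : ℂ) • (pkt z A (T + 1) + pkt z A (-(T + 1)))

lemma sd_time (z : Fin D → ℂ) (A : Finset (Fin D → ℤ)) (t : ℤ) :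
    sd (Fin.last D) (pkt z A t) = (2 : ℂ) • pkt z A t - pkt z A (t + 1) - pkt z A (t - 1) := by
  unfold sd
  rw [pt_single_last, pt_neg, neg_zero, tau_pkt_time, tau_pkt_time, sub_eq_add_neg t 1]

lemma apx_time (z : Fin D → ℂ) (A : Finset (Fin D → ℤ)) {q : ℝ} (hq : 0 < q) (T : ℕ) :
    sd (Fin.last D) (apx z A q T) + ((q + 1 / q - 2 : ℝ) : ℂ) • apx z A q T =
      ((1 / q - q : ℝ) : ℂ) • pkt z A 0 +
      ((q ^ (T + 1) : ℝ) : ℂ) • (pkt z A T + pkt z A (-T)) -
      ((q ^ T : ℝ) : ℂ) • (pkt z A (T + 1) + pkt z A (-(T + 1))) := by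
  have hqc : (q : ℂ) ≠ 0 := by exact_mod_cast hq.ne'
  induction T with
  | zero =>
    simp only [apx]
    rw [sd_time]
    push_cast
    rw [neg_zero, pow_zero, one_smul, pow_one]
    match_scalars <;> field_simp <;> ring
  | succ T ih =>
    simp only [apx]
    rw [sd_add, sd_smul, sd_add, sd_time, sd_time, smul_add (((q + 1 / q - 2 : ℝ) : ℂ))]
    have e1 : ((T : ℤ) + 1 - 1) = T := by ring
    have e2 : (-((T : ℤ) + 1) + 1) = -T := by ring
    have e3 : (-((T : ℤ) + 1) - 1) = -(T + 1 + 1) := by ring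
    rw [e1, e2, e3]
    have h : ∀ a b c d : FV (D + 1), a + b + (c + d) = (a + c) + (b + d) := fun a b c d => by abel
    rw [h, ih]
    push_cast
    match_scalars <;> field_simp <;> ring

/-- the sum of the weights -/
def wts (q : ℝ) : ℕ → ℝ
  | 0 => 1
  | T + 1 => wts q T + 2 * q ^ (T + 1)

lemma wts_nonneg {q : ℝ} (hq : 0 < q) (T : ℕ) : 0 ≤ wts q T := by
  induction T with
  | zero => exact zero_le_one
  | succ T ih =>
    show 0 ≤ wts q T + 2 * q ^ (T + 1)
    positivity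

lemma wts_le {q : ℝ} (hq : 0 < q) (hq1 : q < 1) (T : ℕ) : wts q T ≤ (1 + q) / (1 - q) := by
  have h : wts q T = (1 + q) / (1 - q) - 2 * q ^ (T + 1) / (1 - q) := by
    have h1 : 1 - q ≠ 0 := by linarith
    induction T with
    | zero =>
      show (1 : ℝ) = _
      field_simp
      ring
    | succ T ih =>
      show wts q T + 2 * q ^ (T + 1) = _
      rw [ih]
      field_simp
      ring
  rw [h]
  have : 0 ≤ 2 * q ^ (T + 1) / (1 - q) := by
    have : 0 < 1 - q := by linarith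
    positivity
  linarith

section packet

variable {z : Fin D → ℂ} (hz : ∀ j, ‖z j‖ = 1) {A : Finset (Fin D → ℤ)} {e : ℝ}
  (hA : ∀ j : Fin D, ers A (Pi.single j 1) ≤ e ∧ ers A (-Pi.single j 1) ≤ e)

include hz hA

lemma apx_err {q : ℝ} (hq : 0 < q) (T : ℕ) (l : Fin D) :
    N2 (sd l.castSucc (apx z A q T) - (ml z l : ℂ) • apx z A q T) ≤ 2 * e * wts q T := by
  induction T with
  | zero =>
    simp only [apx, wts, mul_one]
    exact err_sd hz hA 0 l
  | succ T ih =>
    simp only [apx, wts]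
    have h1 : sd l.castSucc (apx z A q T + ((q ^ (T + 1) : ℝ) : ℂ) • (pkt z A (T + 1) +
        pkt z A (-(T + 1)))) - (ml z l : ℂ) • (apx z A q T + ((q ^ (T + 1) : ℝ) : ℂ) •
        (pkt z A (T + 1) + pkt z A (-(T + 1)))) =
        (sd l.castSucc (apx z A q T) - (ml z l : ℂ) • apx z A q T) +
        ((q ^ (T + 1) : ℝ) : ℂ) • ((sd l.castSucc (pkt z A (T + 1)) -
          (ml z l : ℂ) • pkt z A (T + 1)) + (sd l.castSucc (pkt z A (-(T + 1))) -
          (ml z l : ℂ) • pkt z A (-(T + 1)))) := by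
      rw [sd_add, sd_smul, sd_add]
      module
    rw [h1]
    refine (N2_add _ _).trans ?_
    rw [N2_smul]
    have h2 := (N2_add (sd l.castSucc (pkt z A (T + 1)) - (ml z l : ℂ) • pkt z A (T + 1))
      (sd l.castSucc (pkt z A (-(T + 1))) - (ml z l : ℂ) • pkt z A (-(T + 1)))).trans
      (add_le_add (err_sd hz hA (T + 1) l) (err_sd hz hA (-(T + 1)) l))
    have h3 : ‖((q ^ (T + 1) : ℝ) : ℂ)‖ = q ^ (T + 1) := by
      rw [Complex.norm_real, Real.norm_of_nonneg (by positivity)]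
    rw [h3]
    have h4 := mul_le_mul_of_nonneg_left h2 (show 0 ≤ q ^ (T + 1) by positivity)
    calc _ ≤ 2 * e * wts q T + q ^ (T + 1) * (2 * e + 2 * e) := add_le_add ih h4
      _ = _ := by ring

end packet

lemma fk_dl_apx {z : Fin D → ℂ} (hz : ∀ j, ‖z j‖ = 1) (A : Finset (Fin D → ℤ)) (q : ℝ)
    (s T : ℕ) : fk dl (pkt z A s) (apx z A q T) =
      if s ≤ T then ((q ^ s * A.card : ℝ) : ℂ) else 0 := by
  induction T with
  | zero =>
    simp only [apx]
    rw [fk_dl_pkt hz]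
    by_cases h : s = 0
    · subst h; simp
    · have h1 : ¬((s : ℤ) = 0) := by exact_mod_cast h
      have h2 : ¬(s ≤ 0) := by omega
      rw [if_neg h1, if_neg h2]
  | succ T ih =>
    simp only [apx]
    rw [fk_add_right, ih, fk_smul_right, fk_add_right, fk_dl_pkt hz, fk_dl_pkt hz]
    have h0 : ¬((s : ℤ) = -(T + 1)) := by omega
    rw [if_neg h0, add_zero]
    by_cases h : s = T + 1
    · subst h
      have h1 : (((T + 1 : ℕ) : ℤ) = T + 1) := by push_cast; ring
      rw [if_pos h1, if_neg (by omega), if_pos le_rfl, zero_add]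
      push_cast
      ring
    · have h1 : ¬((s : ℤ) = T + 1) := by omega
      rw [if_neg h1, mul_zero, add_zero]
      by_cases h2 : s ≤ T
      · rw [if_pos h2, if_pos (by omega)]
      · rw [if_neg h2, if_neg (by omega)]

/-- the propagation of a packet in time -/
lemma one_err {z : Fin D → ℂ} (hz : ∀ j, ‖z j‖ = 1) {A : Finset (Fin D → ℤ)} {δ : ℝ}
    (hδ : 0 ≤ δ) (hA : ∀ j : Fin D, ers A (Pi.single j 1) ≤ δ * Real.sqrt A.card ∧
      ers A (-Pi.single j 1) ≤ δ * Real.sqrt A.card) (hD : 2 ≤ D) {i j : Fin D} (hij : i ≠ j)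
    {q : ℝ} (hq : 0 < q) (hq1 : q < 1) (hshell : q + 1 / q = 2 + ∑ l, ml z l) {s T : ℕ}
    (hs : s ≤ T) :
    ‖((1 / q - q : ℝ) : ℂ) * fk (pkn i.castSucc j.castSucc) (pkt z A s) (pkt z A 0) -
      ((q ^ s * (ml z i + ml z j) * A.card : ℝ) : ℂ)‖ ≤
      A.card * ((2 * D + 4) * δ * ((1 + q) / (1 - q)) + 4 * q ^ T) := by
  have hd : 3 ≤ D + 1 := by omega
  have hij' : i.castSucc ≠ j.castSucc := fun h => hij (Fin.castSucc_injective _ h)
  have hN : ∀ t : ℤ, N2 (pkt z A t) = Real.sqrt A.card := N2_pkt hz A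
  have hNN : Real.sqrt A.card * Real.sqrt A.card = A.card := Real.mul_self_sqrt (Nat.cast_nonneg _)
  have hN0 : 0 ≤ Real.sqrt A.card := Real.sqrt_nonneg _
  -- the equation
  have h1 : ((1 / q - q : ℝ) : ℂ) • pkt z A 0 =
      (∑ l, sd l (apx z A q T)) - (∑ l : Fin D, (sd l.castSucc (apx z A q T) -
        (ml z l : ℂ) • apx z A q T)) -
      ((q ^ (T + 1) : ℝ) : ℂ) • (pkt z A T + pkt z A (-T)) +
      ((q ^ T : ℝ) : ℂ) • (pkt z A (T + 1) + pkt z A (-(T + 1))) := by
    have h2 := apx_time z A hq T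
    have h3 : q + 1 / q - 2 = ∑ l, ml z l := by linarith
    rw [h3] at h2
    rw [Fin.sum_univ_castSucc, Finset.sum_sub_distrib, ← Finset.sum_smul]
    push_cast at h2 ⊢
    rw [← sub_eq_zero] at h2 ⊢
    rw [← neg_eq_zero, ← h2]
    module
  -- pair with the packet
  have h2 : ((1 / q - q : ℝ) : ℂ) * fk (pkn i.castSucc j.castSucc) (pkt z A s) (pkt z A 0) -
      ((q ^ s * (ml z i + ml z j) * A.card : ℝ) : ℂ) =
      fk dl (pkt z A s) (sd i.castSucc (apx z A q T) - (ml z i : ℂ) • apx z A q T) +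
      fk dl (pkt z A s) (sd j.castSucc (apx z A q T) - (ml z j : ℂ) • apx z A q T) -
      (∑ l : Fin D, fk (pkn i.castSucc j.castSucc) (pkt z A s) (sd l.castSucc (apx z A q T) -
        (ml z l : ℂ) • apx z A q T)) -
      ((q ^ (T + 1) : ℝ) : ℂ) * fk (pkn i.castSucc j.castSucc) (pkt z A s)
        (pkt z A T + pkt z A (-T)) +
      ((q ^ T : ℝ) : ℂ) * fk (pkn i.castSucc j.castSucc) (pkt z A s)
        (pkt z A (T + 1) + pkt z A (-(T + 1))) := by
    rw [← fk_smul_right, h1, fk_add_right, fk_sub_right, fk_sub_right, fk_lap hd,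
      fk_sum_right, fk_smul_right, fk_smul_right, fk_sub_right _ _ _ ((ml z i : ℂ) • _),
      fk_sub_right _ _ _ ((ml z j : ℂ) • _), fk_smul_right, fk_smul_right, fk_dl_apx hz,
      if_pos hs]
    push_cast
    ring
  rw [h2]
  have hw := wts_le hq hq1 T
  have hw0 := wts_nonneg hq T
  have hM : 0 ≤ (1 + q) / (1 - q) := hw0.trans hw
  have e1 : ∀ l : Fin D, N2 (sd l.castSucc (apx z A q T) - (ml z l : ℂ) • apx z A q T) ≤
      2 * (δ * Real.sqrt A.card) * ((1 + q) / (1 - q)) := fun l =>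
    (apx_err hz hA hq T l).trans (mul_le_mul_of_nonneg_left hw (by positivity))
  have e2 : ∀ l : Fin D, ‖fk dl (pkt z A s) (sd l.castSucc (apx z A q T) -
      (ml z l : ℂ) • apx z A q T)‖ ≤ 2 * δ * A.card * ((1 + q) / (1 - q)) := by
    intro l
    refine (dl_cs _ _).trans ?_
    rw [hN]
    refine (mul_le_mul_of_nonneg_left (e1 l) hN0).trans (le_of_eq ?_)
    linear_combination (2 * δ * ((1 + q) / (1 - q))) * hNN
  have e3 : ∀ l : Fin D, ‖fk (pkn i.castSucc j.castSucc) (pkt z A s)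
      (sd l.castSucc (apx z A q T) - (ml z l : ℂ) • apx z A q T)‖ ≤
      2 * δ * A.card * ((1 + q) / (1 - q)) := by
    intro l
    refine (pkn_cs hd hij' _ _).trans ?_
    rw [hN]
    refine (mul_le_mul_of_nonneg_left (e1 l) hN0).trans (le_of_eq ?_)
    linear_combination (2 * δ * ((1 + q) / (1 - q))) * hNN
  have e4 : ∀ t t' : ℤ, ‖fk (pkn i.castSucc j.castSucc) (pkt z A s)
      (pkt z A t + pkt z A t')‖ ≤ 2 * A.card := by
    intro t t'
    refine (pkn_cs hd hij' _ _).trans ?_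
    refine (mul_le_mul_of_nonneg_left (N2_add _ _) (N2_nonneg _)).trans ?_
    rw [hN, hN, hN]
    exact le_of_eq (by linear_combination 2 * hNN)
  have hc : ∀ k : ℕ, ‖((q ^ k : ℝ) : ℂ)‖ = q ^ k := fun k => by
    rw [Complex.norm_real, Real.norm_of_nonneg (by positivity)]
  have e5 : ‖((q ^ (T + 1) : ℝ) : ℂ) * fk (pkn i.castSucc j.castSucc) (pkt z A s)
      (pkt z A T + pkt z A (-T))‖ ≤ q ^ T * (2 * A.card) := by
    rw [norm_mul, hc]
    refine mul_le_mul ?_ (e4 _ _) (norm_nonneg _) (by positivity)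
    rw [pow_succ]
    have : 0 < q ^ T := by positivity
    nlinarith
  have e6 : ‖((q ^ T : ℝ) : ℂ) * fk (pkn i.castSucc j.castSucc) (pkt z A s)
      (pkt z A (T + 1) + pkt z A (-(T + 1)))‖ ≤ q ^ T * (2 * A.card) := by
    rw [norm_mul, hc]
    exact mul_le_mul_of_nonneg_left (e4 _ _) (by positivity)
  have e7 : ‖∑ l : Fin D, fk (pkn i.castSucc j.castSucc) (pkt z A s)
      (sd l.castSucc (apx z A q T) - (ml z l : ℂ) • apx z A q T)‖ ≤
      D * (2 * δ * A.card * ((1 + q) / (1 - q))) := by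
    refine (norm_sum_le _ _).trans ?_
    refine (Finset.sum_le_sum fun l _ => e3 l).trans ?_
    rw [Finset.sum_const, Finset.card_univ, Fintype.card_fin, nsmul_eq_mul]
  refine (norm_add_le _ _).trans ?_
  have f1 := norm_sub_le (fk dl (pkt z A s) (sd i.castSucc (apx z A q T) -
      (ml z i : ℂ) • apx z A q T) +
      fk dl (pkt z A s) (sd j.castSucc (apx z A q T) - (ml z j : ℂ) • apx z A q T) -
      (∑ l : Fin D, fk (pkn i.castSucc j.castSucc) (pkt z A s) (sd l.castSucc (apx z A q T) -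
        (ml z l : ℂ) • apx z A q T))) (((q ^ (T + 1) : ℝ) : ℂ) *
          fk (pkn i.castSucc j.castSucc) (pkt z A s) (pkt z A T + pkt z A (-T)))
  have f2 := norm_sub_le (fk dl (pkt z A s) (sd i.castSucc (apx z A q T) -
      (ml z i : ℂ) • apx z A q T) +
      fk dl (pkt z A s) (sd j.castSucc (apx z A q T) - (ml z j : ℂ) • apx z A q T))
      (∑ l : Fin D, fk (pkn i.castSucc j.castSucc) (pkt z A s) (sd l.castSucc (apx z A q T) -
        (ml z l : ℂ) • apx z A q T))
  have f3 := norm_add_le (fk dl (pkt z A s) (sd i.castSucc (apx z A q T) -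
      (ml z i : ℂ) • apx z A q T)) (fk dl (pkt z A s) (sd j.castSucc (apx z A q T) -
      (ml z j : ℂ) • apx z A q T))
  have g1 := e2 i
  have g2 := e2 j
  linarith

/-- **One gluon.** -/
theorem one {z : Fin D → ℂ} (hz : ∀ j, ‖z j‖ = 1) (hD : 2 ≤ D) {i j : Fin D} (hij : i ≠ j)
    (hi : z i ≠ 1) {q : ℝ} (hq : 0 < q) (hq1 : q < 1) (hshell : q + 1 / q = 2 + ∑ l, ml z l)
    {ε : ℝ} (hε : 0 < ε) :
    ∃ h : FV (D + 1), (∀ x ∈ h.support, x (Fin.last D) = 0) ∧
      (∀ s : ℕ, s ≤ 2 → ‖fk (pkn i.castSucc j.castSucc) h (tau (pt 0 s) h) - q ^ s‖ < ε) ∧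
      ∀ l : Fin D, ‖fk (pkn i.castSucc j.castSucc) h (tau (pt (Pi.single l 1) 0) h) - z l‖ < ε := by
  have hd : 3 ≤ D + 1 := by omega
  have hij' : i.castSucc ≠ j.castSucc := fun h => hij (Fin.castSucc_injective _ h)
  have hmi : 0 < ml z i := by
    unfold ml
    have : 0 < ‖1 - z i‖ := norm_pos_iff.2 (sub_ne_zero.2 hi.symm)
    positivity
  have hmj : 0 ≤ ml z j := by unfold ml; positivity
  have hμ : 0 < ml z i + ml z j := by linarith
  have hb : 0 < 1 / q - q := by
    have : 1 < 1 / q := by rw [lt_div_iff₀ hq]; linarith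
    linarith
  obtain ⟨c, hc⟩ : ∃ c, c = (ml z i + ml z j) / (1 / q - q) := ⟨_, rfl⟩
  have hcpos : 0 < c := by rw [hc]; positivity
  have hM : 0 ≤ (1 + q) / (1 - q) := by
    have : 0 < 1 - q := by linarith
    positivity
  -- the parameters
  obtain ⟨η, hη⟩ : ∃ η, η = ε * c * (1 / q - q) / 4 := ⟨_, rfl⟩
  have hηpos : 0 < η := by rw [hη]; positivity
  obtain ⟨δ, hδpos, hδ1, hδ2⟩ : ∃ δ : ℝ, 0 < δ ∧ (2 * D + 4) * δ * ((1 + q) / (1 - q)) ≤ η ∧
      δ ≤ ε * c / 4 := by
    refine ⟨min (η / ((2 * D + 4) * ((1 + q) / (1 - q)) + 1)) (ε * c / 4), by positivity, ?_,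
      min_le_right _ _⟩
    have h1 : min (η / ((2 * D + 4) * ((1 + q) / (1 - q)) + 1)) (ε * c / 4) ≤
      η / ((2 * D + 4) * ((1 + q) / (1 - q)) + 1) := min_le_left _ _
    rw [le_div_iff₀ (by positivity)] at h1
    have h2 : 0 < min (η / ((2 * D + 4) * ((1 + q) / (1 - q)) + 1)) (ε * c / 4) := by positivity
    nlinarith
  obtain ⟨T, hT2, hT⟩ : ∃ T : ℕ, 2 ≤ T ∧ 4 * q ^ T ≤ η := by
    have h1 := (tendsto_pow_atTop_nhds_zero_of_lt_one hq.le hq1).const_mul 4
    rw [mul_zero] at h1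
    obtain ⟨T, hT⟩ := ((h1.eventually (ge_mem_nhds hηpos)).and (eventually_ge_atTop 2)).exists
    exact ⟨T, hT.2, hT.1⟩
  obtain ⟨A, hA0, hA⟩ := folner D hδpos
  have hAr : (0 : ℝ) < A.card := by exact_mod_cast hA0
  -- the basic estimate
  have key : ∀ s : ℕ, s ≤ 2 → ‖fk (pkn i.castSucc j.castSucc) (pkt z A 0) (pkt z A s) -
      ((q ^ s * c * A.card : ℝ) : ℂ)‖ ≤ A.card * (ε * c / 2) := by
    intro s hs
    have h1 := one_err hz hδpos.le hA hD hij hq hq1 hshell (hs.trans hT2)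
    have h2 : ((1 / q - q : ℝ) : ℂ) * fk (pkn i.castSucc j.castSucc) (pkt z A s) (pkt z A 0) -
        ((q ^ s * (ml z i + ml z j) * A.card : ℝ) : ℂ) = ((1 / q - q : ℝ) : ℂ) *
        (fk (pkn i.castSucc j.castSucc) (pkt z A s) (pkt z A 0) -
          ((q ^ s * c * A.card : ℝ) : ℂ)) := by
      have h3 : q ^ s * (ml z i + ml z j) * A.card = (1 / q - q) * (q ^ s * c * A.card) := by
        have h9 : (1 / q - q) * c = ml z i + ml z j := by
          rw [hc]
          exact mul_div_cancel₀ _ hb.ne'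
        linear_combination (-q ^ s * A.card) * h9
      rw [h3]
      push_cast
      ring
    rw [h2, norm_mul, Complex.norm_real, Real.norm_of_nonneg hb.le] at h1
    have h3 : (A.card : ℝ) * ((2 * D + 4) * δ * ((1 + q) / (1 - q)) + 4 * q ^ T) ≤
        (1 / q - q) * (A.card * (ε * c / 2)) := by
      have : (2 * D + 4) * δ * ((1 + q) / (1 - q)) + 4 * q ^ T ≤ η + η := add_le_add hδ1 hT
      calc _ ≤ A.card * (η + η) := mul_le_mul_of_nonneg_left this hAr.le
        _ = _ := by rw [hη]; ring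
    have h4 := le_of_mul_le_mul_left (h1.trans h3) hb
    rw [← fk_conj _ (pkn_even _ _)]
    have h5 : conj (fk (pkn i.castSucc j.castSucc) (pkt z A s) (pkt z A 0)) -
        ((q ^ s * c * A.card : ℝ) : ℂ) = conj (fk (pkn i.castSucc j.castSucc) (pkt z A s)
        (pkt z A 0) - ((q ^ s * c * A.card : ℝ) : ℂ)) := by
      rw [map_sub, Complex.conj_ofReal]
    rw [h5, RCLike.norm_conj]
    exact h4
  -- the normalized packet
  obtain ⟨r, hr⟩ : ∃ r : ℝ, r = 1 / Real.sqrt (c * A.card) := ⟨_, rfl⟩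
  have hr2 : r * r = 1 / (c * A.card) := by
    rw [hr, div_mul_div_comm, Real.mul_self_sqrt (by positivity), one_mul]
  have hscale : ∀ w : ℂ, ∀ f g : FV (D + 1), ‖fk (pkn i.castSucc j.castSucc) f g -
      w * ((c * A.card : ℝ) : ℂ)‖ < A.card * (ε * c) →
      ‖fk (pkn i.castSucc j.castSucc) ((r : ℂ) • f) ((r : ℂ) • g) - w‖ < ε := by
    intro w f g h
    rw [fk_smul_left, fk_smul_right, Complex.conj_ofReal, ← mul_assoc]
    have h1 : (r : ℂ) * r * fk (pkn i.castSucc j.castSucc) f g - w = ((r * r : ℝ) : ℂ) *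
        (fk (pkn i.castSucc j.castSucc) f g - w * ((c * A.card : ℝ) : ℂ)) := by
      have h2 : ((r * r : ℝ) : ℂ) * ((c * A.card : ℝ) : ℂ) = 1 := by
        rw [← Complex.ofReal_mul, hr2, one_div, inv_mul_cancel₀ (by positivity),
          Complex.ofReal_one]
      push_cast at h2 ⊢
      linear_combination w * h2
    rw [h1, norm_mul, Complex.norm_real, hr2, Real.norm_of_nonneg (by positivity)]
    rw [one_div, inv_mul_lt_iff₀ (by positivity)]
    calc _ < _ := h
      _ = _ := by ring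
  have hhalf : (A.card : ℝ) * (ε * c / 2) < A.card * (ε * c) := by
    have : 0 < ε * c := by positivity
    exact mul_lt_mul_of_pos_left (by linarith) hAr
  refine ⟨(r : ℂ) • pkt z A 0, fun x hx => ?_, fun s hs => ?_, fun l => ?_⟩
  · have h1 : x ∈ (pkt z A 0).support := Finsupp.support_smul hx
    unfold pkt at h1
    have h2 := Finsupp.support_finsetSum h1
    rw [Finset.mem_biUnion] at h2
    obtain ⟨y, -, hy⟩ := h2
    have h3 := Finsupp.support_single_subset hy
    rw [Finset.mem_singleton] at h3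
    rw [h3, pt_last]
  · rw [map_smul, tau_pkt_time, zero_add]
    refine hscale _ _ _ ?_
    have h1 := key s hs
    have h2 : ((q ^ s * c * A.card : ℝ) : ℂ) = (q : ℂ) ^ s * ((c * A.card : ℝ) : ℂ) := by
      push_cast; ring
    rw [h2] at h1
    exact h1.trans_lt hhalf
  · rw [map_smul]
    refine hscale _ _ _ ?_
    have h1 := key 0 (by norm_num)
    rw [pow_zero, one_mul, Nat.cast_zero] at h1
    have h2 := err_pos hz hA 0 l
    rw [pt_single] at h2
    have h3 : fk (pkn i.castSucc j.castSucc) (pkt z A 0) (tau (pt (Pi.single l 1) 0) (pkt z A 0)) -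
        z l * ((c * A.card : ℝ) : ℂ) =
        fk (pkn i.castSucc j.castSucc) (pkt z A 0) (tau (pt (Pi.single l 1) 0) (pkt z A 0) -
          z l • pkt z A 0) + z l * (fk (pkn i.castSucc j.castSucc) (pkt z A 0) (pkt z A 0) -
          ((c * A.card : ℝ) : ℂ)) := by
      rw [fk_sub_right, fk_smul_right]
      ring
    rw [h3]
    refine (norm_add_le _ _).trans_lt ?_
    have h4 : ‖fk (pkn i.castSucc j.castSucc) (pkt z A 0) (tau (pt (Pi.single l 1) 0)
        (pkt z A 0) - z l • pkt z A 0)‖ ≤ A.card * (ε * c / 4) := by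
      refine (pkn_cs hd hij' _ _).trans ?_
      refine (mul_le_mul_of_nonneg_left h2 (N2_nonneg _)).trans ?_
      rw [N2_pkt hz]
      have h5 : Real.sqrt A.card * (δ * Real.sqrt A.card) = A.card * δ := by
        rw [mul_left_comm, Real.mul_self_sqrt hAr.le, mul_comm]
      rw [h5]
      exact mul_le_mul_of_nonneg_left hδ2 hAr.le
    rw [norm_mul, hz, one_mul]
    have h5 : (0 : ℝ) < A.card * (ε * c) := by positivity
    linarith

end

end Pool.Agent.Q235.EM
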