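import Mathlib
import Pool.Agent.Results.MP_7f377f_mp.WilsonLoopsWeakCoupling

/-!
# Sums over pairings: continuity and factorization
-/

open Filter
open scoped Topology

namespace Pool.Agent.Q235.EM

open Pool.Agent.Results.MP_7f377f_mp.WilsonLoopsWeakCoupling

set_option linter.unusedSectionVars false

noncomputable section

variable {ι κ : Type*}

lemma pairings_cons (A : ι → ι → ℝ) (a : ι) (l : List ι) :
    pairings A (a :: l) = ∑ i : Fin l.length, A a (l.get i) * pairings A (l.eraseIdx i) := by
  rw [pairings]

lemma pairings_nil (A : ι → ι → ℝ) : pairings A [] = 1 := by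
  rw [pairings]

/-- the term of the sum, for arbitrary natural numbers -/
def ptm (A : ι → ι → ℝ) (a : ι) (l : List ι) (i : ℕ) : ℝ :=
  if h : i < l.length then A a l[i] * pairings A (l.eraseIdx i) else 0

lemma pairings_cons' (A : ι → ι → ℝ) (a : ι) (l : List ι) :
    pairings A (a :: l) = ∑ i ∈ Finset.range l.length, ptm A a l i := by
  rw [pairings_cons, Finset.sum_range]
  refine Finset.sum_congr rfl fun i _ => ?_
  unfold ptm
  rw [dif_pos i.isLt]
  rfl

lemma pairings_tendsto {α : Type*} {f : Filter α} (A : α → ι → ι → ℝ) (A' : ι → ι → ℝ)
    (h : ∀ u v, Tendsto (fun s => A s u v) f (𝓝 (A' u v))) (m : ℕ) :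
    ∀ L : List ι, L.length ≤ m → Tendsto (fun s => pairings (A s) L) f (𝓝 (pairings A' L)) := by
  induction m with
  | zero =>
    intro L hL
    have : L = [] := List.length_eq_zero_iff.1 (by omega)
    subst this
    simp only [pairings_nil]
    exact tendsto_const_nhds
  | succ m ih =>
    intro L hL
    cases L with
    | nil => simp only [pairings_nil]; exact tendsto_const_nhds
    | cons a L =>
      simp only [pairings_cons]
      refine tendsto_finsetSum _ fun i _ => (h a _).mul (ih _ ?_)
      have h1 := List.length_eraseIdx_of_lt i.isLt
      simp only [List.length_cons] at hL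
      omega

lemma pairings_append (A : ι → ι → ℝ) (m : ℕ) : ∀ L L' : List ι, L.length ≤ m →
    (∀ u ∈ L, ∀ v ∈ L', A u v = 0) → pairings A (L ++ L') = pairings A L * pairings A L' := by
  induction m with
  | zero =>
    intro L L' hL _
    have : L = [] := List.length_eq_zero_iff.1 (by omega)
    subst this
    rw [pairings_nil, List.nil_append, one_mul]
  | succ m ih =>
    intro L L' hL h
    cases L with
    | nil => rw [pairings_nil, List.nil_append, one_mul]
    | cons a L =>
      rw [List.cons_append, pairings_cons', pairings_cons', List.length_append,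
        Finset.sum_range_add]
      have h1 : ∑ i ∈ Finset.range L'.length, ptm A a (L ++ L') (L.length + i) = 0 := by
        refine Finset.sum_eq_zero fun i hi => ?_
        unfold ptm
        have hi' : i < L'.length := Finset.mem_range.1 hi
        rw [dif_pos (by rw [List.length_append]; omega),
          List.getElem_append_right (by omega)]
        rw [h a List.mem_cons_self _ (List.getElem_mem _), zero_mul]
      rw [h1, add_zero, Finset.sum_mul]
      refine Finset.sum_congr rfl fun i hi => ?_
      have hi' : i < L.length := Finset.mem_range.1 hi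
      unfold ptm
      rw [dif_pos (by rw [List.length_append]; omega), dif_pos hi',
        List.getElem_append_left hi', List.eraseIdx_append_of_lt_length hi', ih]
      · ring
      · rw [List.length_eraseIdx_of_lt hi']
        simp only [List.length_cons] at hL
        omega
      · exact fun u hu v hv => h u (List.mem_cons_of_mem _ (List.mem_of_mem_eraseIdx hu)) v hv

lemma pairings_map (A : ι → ι → ℝ) (f : κ → ι) (m : ℕ) : ∀ L : List κ, L.length ≤ m →
    pairings A (L.map f) = pairings (fun u v => A (f u) (f v)) L := by
  induction m with
  | zero =>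
    intro L hL
    have : L = [] := List.length_eq_zero_iff.1 (by omega)
    subst this
    rw [List.map_nil, pairings_nil, pairings_nil]
  | succ m ih =>
    intro L hL
    cases L with
    | nil => rw [List.map_nil, pairings_nil, pairings_nil]
    | cons a L =>
      rw [List.map_cons, pairings_cons', pairings_cons', List.length_map]
      refine Finset.sum_congr rfl fun i hi => ?_
      have hi' : i < L.length := Finset.mem_range.1 hi
      unfold ptm
      rw [dif_pos (by rw [List.length_map]; exact hi'), dif_pos hi', List.getElem_map,
        List.eraseIdx_map, ih]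
      rw [List.length_eraseIdx_of_lt hi']
      simp only [List.length_cons] at hL
      omega

lemma pairings_congr (A A' : ι → ι → ℝ) (m : ℕ) : ∀ L : List ι, L.length ≤ m →
    (∀ u ∈ L, ∀ v ∈ L, A u v = A' u v) → pairings A L = pairings A' L := by
  induction m with
  | zero =>
    intro L hL _
    have : L = [] := List.length_eq_zero_iff.1 (by omega)
    subst this
    rw [pairings_nil, pairings_nil]
  | succ m ih =>
    intro L hL h
    cases L with
    | nil => rw [pairings_nil, pairings_nil]
    | cons a L =>
      rw [pairings_cons', pairings_cons']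
      refine Finset.sum_congr rfl fun i hi => ?_
      have hi' : i < L.length := Finset.mem_range.1 hi
      unfold ptm
      rw [dif_pos hi', dif_pos hi', h a List.mem_cons_self _
        (List.mem_cons_of_mem _ (List.getElem_mem _)), ih]
      · rw [List.length_eraseIdx_of_lt hi']
        simp only [List.length_cons] at hL
        omega
      · exact fun u hu v hv => h u (List.mem_cons_of_mem _ (List.mem_of_mem_eraseIdx hu)) v
          (List.mem_cons_of_mem _ (List.mem_of_mem_eraseIdx hv))

lemma factors_add (k l : ℕ) : factors (k + l) =
    (factors k).map (fun u => (Fin.castAdd l u.1, u.2)) ++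
      (factors l).map (fun u => (Fin.natAdd k u.1, u.2)) := by
  have h1 : List.finRange (k + l) = (List.finRange k).map (Fin.castAdd l) ++
      (List.finRange l).map (Fin.natAdd k) := by
    have h := List.ofFn_add (n := k) (m := l) (f := (id : Fin (k + l) → Fin (k + l)))
    rw [List.ofFn_eq_map, List.map_id, List.ofFn_eq_map, List.ofFn_eq_map] at h
    exact h
  unfold factors
  rw [h1, List.flatMap_append, List.flatMap_map, List.flatMap_map, List.map_flatMap,
    List.map_flatMap]
  rfl

variable {n d : ℕ}

/-- the entries of the matrix of the covariances -/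
def ent {k : ℕ} (γ : Fin k → Loop d) (a : Fin k → Fin n) (u v : Fin k × Bool) : ℝ :=
  if u.1 = v.1 then 0 else if a u.1 = a v.1 then inter (γ u.1) (γ v.1) else 0

lemma wicks_def (n : ℕ) {k : ℕ} (γ : Fin k → Loop d) :
    wicks n γ = ∑ a : Fin k → Fin n, pairings (ent γ a) (factors k) := rfl

/-- **The cluster property.** -/
theorem wicks_cluster (n : ℕ) {k l : ℕ} (γ : Fin k → Loop d) (γ' : ℕ → Fin l → Loop d)
    (γ₀ : Fin l → Loop d) (h0 : ∀ s i j, inter (γ' s i) (γ' s j) = inter (γ₀ i) (γ₀ j))
    (h1 : ∀ i j, Tendsto (fun s => inter (γ i) (γ' s j)) atTop (𝓝 0))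
    (h2 : ∀ i j, Tendsto (fun s => inter (γ' s j) (γ i)) atTop (𝓝 0)) :
    Tendsto (fun s => wicks n (Fin.append γ (γ' s))) atTop (𝓝 (wicks n γ * wicks n γ₀)) := by
  simp only [wicks_def]
  have hsum : ∀ f : (Fin (k + l) → Fin n) → ℝ, ∑ a, f a =
      ∑ a : Fin k → Fin n, ∑ b : Fin l → Fin n, f (Fin.append a b) := by
    intro f
    rw [← (Fin.appendEquiv k l).sum_comp f, Fintype.sum_prod_type]
    rfl
  simp only [hsum]
  rw [Finset.sum_mul_sum]
  refine tendsto_finsetSum _ fun a _ => tendsto_finsetSum _ fun b _ => ?_
  -- the limit matrix
  obtain ⟨A', hA'⟩ : ∃ A' : Fin (k + l) × Bool → Fin (k + l) × Bool → ℝ, A' = fun u v =>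
      Fin.addCases (fun i => Fin.addCases (fun j => ent γ a (i, u.2) (j, v.2)) (fun _ => 0) v.1)
        (fun i => Fin.addCases (fun _ => 0) (fun j => ent γ₀ b (i, u.2) (j, v.2)) v.1) u.1 :=
    ⟨_, rfl⟩
  have hlim : ∀ u v, Tendsto (fun s => ent (Fin.append γ (γ' s)) (Fin.append a b) u v) atTop
      (𝓝 (A' u v)) := by
    rintro ⟨u, u'⟩ ⟨v, v'⟩
    rw [hA']
    unfold ent
    refine Fin.addCases (fun i => ?_) (fun i => ?_) u
    · refine Fin.addCases (fun j => ?_) (fun j => ?_) v
      · simp only [Fin.append_left, Fin.addCases_left, Fin.castAdd_inj]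
        exact tendsto_const_nhds
      · simp only [Fin.append_left, Fin.append_right, Fin.addCases_left, Fin.addCases_right]
        have hne : Fin.castAdd l i ≠ Fin.natAdd k j := by
          intro h
          have := congrArg Fin.val h
          simp only [Fin.val_castAdd, Fin.val_natAdd] at this
          omega
        simp only [if_neg hne]
        split_ifs
        · exact h1 i j
        · exact tendsto_const_nhds
    · refine Fin.addCases (fun j => ?_) (fun j => ?_) v
      · simp only [Fin.append_left, Fin.append_right, Fin.addCases_left, Fin.addCases_right]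
        have hne : Fin.natAdd k i ≠ Fin.castAdd l j := by
          intro h
          have := congrArg Fin.val h
          simp only [Fin.val_castAdd, Fin.val_natAdd] at this
          omega
        simp only [if_neg hne]
        split_ifs
        · exact h2 j i
        · exact tendsto_const_nhds
      · simp only [Fin.append_right, Fin.addCases_right, Fin.natAdd_inj, h0]
        exact tendsto_const_nhds
  have h3 := pairings_tendsto _ _ hlim _ (factors (k + l)) le_rfl
  have h4 : pairings A' (factors (k + l)) = pairings (ent γ a) (factors k) *
      pairings (ent γ₀ b) (factors l) := by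
    rw [factors_add, pairings_append A' _ _ _ le_rfl]
    · rw [pairings_map _ _ _ _ le_rfl, pairings_map _ _ _ _ le_rfl]
      congr 1
      · refine pairings_congr _ _ _ _ le_rfl fun u _ v _ => ?_
        rw [hA']
        simp only [Fin.addCases_left]
      · refine pairings_congr _ _ _ _ le_rfl fun u _ v _ => ?_
        rw [hA']
        simp only [Fin.addCases_right]
    · intro u hu v hv
      obtain ⟨u', -, rfl⟩ := List.mem_map.1 hu
      obtain ⟨v', -, rfl⟩ := List.mem_map.1 hv
      rw [hA']
      simp only [Fin.addCases_left, Fin.addCases_right]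
  rw [h4] at h3
  exact h3

end

end Pool.Agent.Q235.EM
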