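import Mathlib
import Pool.Agent.Q235.EM.Inf

/-!
# The energy-momentum measure of an observable
-/

open MeasureTheory Matrix Filter ComplexConjugate
open scoped Matrix.Norms.Frobenius Topology

namespace Pool.Agent.Q235.EM

open Pool.Agent.Results.MP_7f377f_mp.WilsonLoopsWeakCoupling
open Pool.Agent.H906R3 Pool.Agent.W793 Pool.Agent.TH369

set_option linter.unusedSectionVars false

noncomputable section

variable {N n d D : ℕ} {G : Subgroup (UU N)}

lemma TZ.re {F : (LinkZ (D + 1) → G) → ℂ} (hF : TZ F) : TZ fun V => (F V).re where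
  cont := Complex.continuous_re.comp hF.cont
  inv γ V := by rw [hF.inv]
  dep V V' h := by rw [hF.dep V V' h]

lemma TZ.im {F : (LinkZ (D + 1) → G) → ℂ} (hF : TZ F) : TZ fun V => (F V).im where
  cont := Complex.continuous_im.comp hF.cont
  inv γ V := by rw [hF.inv]
  dep V V' h := by rw [hF.dep V V' h]

lemma TZ.smul {F : (LinkZ (D + 1) → G) → ℂ} (hF : TZ F) (c : ℂ) : TZ fun V => c * F V where
  cont := continuous_const.mul hF.cont
  inv γ V := by rw [hF.inv]
  dep V V' h := by rw [hF.dep V V' h]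

section inf

variable [CompactSpace G] [SecondCountableTopology G] [MeasurableSpace G] [BorelSpace G]
  (μ : Measure G) [IsProbabilityMeasure μ] [μ.IsHaarMeasure] (B : LieBasis G n) {β : ℝ}
  {ν : Measure (LinkZ (D + 1) → G)}

lemma intg {α : Type*} [NormedAddCommGroup α] [SecondCountableTopology α] [IsFiniteMeasure ν]
    {F : (LinkZ (D + 1) → G) → α} (hF : Continuous F) : Integrable F ν :=
  hF.integrable_of_hasCompactSupport (HasCompactSupport.of_compactSpace _)

lemma int_re_im [IsFiniteMeasure ν] {F : (LinkZ (D + 1) → G) → ℂ} (hF : Continuous F) :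
    ∫ V, F V ∂ν = ((∫ V, (F V).re ∂ν : ℝ) : ℂ) + ((∫ V, (F V).im ∂ν : ℝ) : ℂ) * Complex.I := by
  have hi := intg (ν := ν) hF
  apply Complex.ext
  · rw [← RCLike.re_eq_complex_re, ← integral_re hi]
    simp
  · rw [← RCLike.im_eq_complex_im, ← integral_im hi]
    simp

include B in
theorem inf_moveC (hν : IsInfVol μ β ν) (F : (LinkZ (D + 1) → G) → ℂ) (hF : Continuous F)
    (t : ℤ) (x : Fin D → ℤ) : ∫ V, F (move t x V) ∂ν = ∫ V, F V ∂ν := by
  have := hν.prob
  rw [int_re_im (F := fun V => F (move t x V)) (hF.comp (move_cont t x)), int_re_im hF,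
    inf_move μ B hν (fun V => (F V).re) (Complex.continuous_re.comp hF) t x,
    inf_move μ B hν (fun V => (F V).im) (Complex.continuous_im.comp hF) t x]

/-- the two point function -/
def two (ν : Measure (LinkZ (D + 1) → G)) (F : (LinkZ (D + 1) → G) → ℂ) (t : ℕ)
    (x : Fin D → ℤ) : ℂ := ∫ V, conj (F V) * F (move (t : ℤ) x V) ∂ν

lemma cont_two {F : (LinkZ (D + 1) → G) → ℂ} (hF : Continuous F) (t : ℤ) (x : Fin D → ℤ) :
    Continuous fun V => conj (F V) * F (move t x V) :=
  (Complex.continuous_conj.comp hF).mul (hF.comp (move_cont t x))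

include B in
theorem inf_refC (hν : IsInfVol μ β ν) {F : (LinkZ (D + 1) → G) → ℂ} (hF : TZ F) (t : ℤ)
    (x : Fin D → ℤ) : ∫ V, conj (F V) * F (move t x V) ∂ν =
      ∫ V, conj (F V) * F (move (-t) x V) ∂ν := by
  have := hν.prob
  have key : ∀ t : ℤ, ∫ V, conj (F V) * F (move t x V) ∂ν =
      (((∫ V, (F V).re * (F (move t x V)).re ∂ν) + ∫ V, (F V).im * (F (move t x V)).im ∂ν : ℝ) : ℂ) +
      (((∫ V, (F V).re * (F (move t x V)).im ∂ν) - ∫ V, (F V).im * (F (move t x V)).re ∂ν : ℝ) : ℂ) *
        Complex.I := by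
    intro t
    have c1 : ∀ f g : ℂ → ℝ, Continuous f → Continuous g →
        Continuous fun V => f (F V) * g (F (move t x V)) := fun f g hf hg =>
      (hf.comp hF.cont).mul (hg.comp (hF.cont.comp (move_cont t x)))
    rw [int_re_im (cont_two hF.cont t x)]
    congr 3
    · rw [← integral_add (intg (c1 _ _ Complex.continuous_re Complex.continuous_re))
        (intg (c1 _ _ Complex.continuous_im Complex.continuous_im))]
      refine integral_congr_ae (Filter.Eventually.of_forall fun V => ?_)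
      simp
    · rw [← integral_sub (intg (c1 _ _ Complex.continuous_re Complex.continuous_im))
        (intg (c1 _ _ Complex.continuous_im Complex.continuous_re))]
      refine integral_congr_ae (Filter.Eventually.of_forall fun V => ?_)
      simp
      ring
  rw [key t, key (-t), inf_ref μ B hν hF.re hF.re, inf_ref μ B hν hF.im hF.im,
    inf_ref μ B hν hF.re hF.im, inf_ref μ B hν hF.im hF.re]

include B in
lemma frm_eq (hν : IsInfVol μ β ν) {F : (LinkZ (D + 1) → G) → ℂ} (hF : TZ F) (k : ℕ)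
    (c : (ℕ × (Fin D → ℤ)) →₀ ℂ) : frm (two ν F) k c c =
    ∫ V, conj (∑ a ∈ c.support, c a * F (move (-(a.1 : ℤ)) a.2 V)) *
      ∑ a ∈ c.support, c a * F (move (a.1 + k : ℕ) a.2 V) ∂ν := by
  have := hν.prob
  unfold frm Finsupp.sum two
  have h1 : ∀ V : LinkZ (D + 1) → G, conj (∑ a ∈ c.support, c a * F (move (-(a.1 : ℤ)) a.2 V)) *
      ∑ a ∈ c.support, c a * F (move (a.1 + k : ℕ) a.2 V) =
      ∑ a ∈ c.support, ∑ b ∈ c.support, conj (c a) * c b * (conj (F (move (-(a.1 : ℤ)) a.2 V)) *
        F (move (b.1 + k : ℕ) b.2 V)) := by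
    intro V
    rw [map_sum, Finset.sum_mul_sum]
    refine Finset.sum_congr rfl fun a _ => Finset.sum_congr rfl fun b _ => ?_
    rw [map_mul]; ring
  have hc : ∀ (s t : ℤ) (x y : Fin D → ℤ), Continuous fun V : LinkZ (D + 1) → G =>
      conj (F (move s x V)) * F (move t y V) := fun s t x y =>
    (Complex.continuous_conj.comp (hF.cont.comp (move_cont _ _))).mul
      (hF.cont.comp (move_cont _ _))
  simp only [h1]
  rw [integral_finsetSum _ fun a _ => integrable_finsetSum _ fun b _ =>
    (intg (hc _ _ _ _)).const_mul _]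
  refine Finset.sum_congr rfl fun a _ => ?_
  rw [integral_finsetSum _ fun b _ => (intg (hc _ _ _ _)).const_mul _]
  refine Finset.sum_congr rfl fun b _ => ?_
  rw [integral_const_mul]
  congr 1
  rw [← inf_moveC μ B hν (fun V => conj (F (move (-(a.1 : ℤ)) a.2 V)) *
    F (move (b.1 + k : ℕ) b.2 V)) (hc _ _ _ _) (a.1 : ℤ) (-a.2)]
  refine integral_congr_ae (Filter.Eventually.of_forall fun V => ?_)
  simp only [move_move, neg_add_cancel, add_neg_cancel, move_zero]
  congr 3
  push_cast
  ring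

include B in
/-- The two point function is reflection positive. -/
theorem two_PD (hβ : 0 ≤ β) (hν : IsInfVol μ β ν) {F : (LinkZ (D + 1) → G) → ℂ} (hF : TZ F) :
    PD (two ν F) := by
  have := hν.prob
  have hre : ∀ z w : ℂ, (conj z * w).re = z.re * w.re + z.im * w.im := fun z w => by simp
  have hpos : ∀ (k : ℕ) (c : (ℕ × (Fin D → ℤ)) →₀ ℂ),
      (∀ H : (ℕ × (Fin D → ℤ)) → (LinkZ (D + 1) → G) → ℝ, (∀ a, TZ (H a)) →
        0 ≤ ∫ V, (∑ a ∈ c.support, H a (move (a.1 + k : ℕ) a.2 V)) *
          ∑ a ∈ c.support, H a (move (-(a.1 : ℤ)) a.2 V) ∂ν) → 0 ≤ (frm (two ν F) k c c).re := by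
    intro k c h
    rw [frm_eq μ B hν hF]
    have hc : ∀ t : (ℕ × (Fin D → ℤ)) → ℤ, Continuous fun V : LinkZ (D + 1) → G =>
        ∑ a ∈ c.support, c a * F (move (t a) a.2 V) := fun t =>
      continuous_finsetSum _ fun a _ => continuous_const.mul (hF.cont.comp (move_cont _ _))
    have hci : Continuous fun V : LinkZ (D + 1) → G =>
        conj (∑ a ∈ c.support, c a * F (move (-(a.1 : ℤ)) a.2 V)) *
        ∑ a ∈ c.support, c a * F (move (a.1 + k : ℕ) a.2 V) :=
      (Complex.continuous_conj.comp (hc fun a => -(a.1 : ℤ))).mul (hc fun a => (a.1 + k : ℕ))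
    rw [← RCLike.re_eq_complex_re, ← integral_re (intg hci)]
    simp only [RCLike.re_eq_complex_re, hre]
    have h1 := h (fun a V => (c a * F V).re) fun a => (hF.smul (c a)).re
    have h2 := h (fun a V => (c a * F V).im) fun a => (hF.smul (c a)).im
    simp only [← Complex.re_sum, ← Complex.im_sum] at h1 h2
    rw [integral_add]
    · refine add_nonneg (h1.trans (le_of_eq ?_)) (h2.trans (le_of_eq ?_))
      · exact integral_congr_ae (Filter.Eventually.of_forall fun V => mul_comm _ _)
      · exact integral_congr_ae (Filter.Eventually.of_forall fun V => mul_comm _ _)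
    · exact intg ((Complex.continuous_re.comp (hc fun a => -(a.1 : ℤ))).mul
        (Complex.continuous_re.comp (hc fun a => (a.1 + k : ℕ))))
    · exact intg ((Complex.continuous_im.comp (hc fun a => -(a.1 : ℤ))).mul
        (Complex.continuous_im.comp (hc fun a => (a.1 + k : ℕ))))
  refine ⟨fun t x => ?_, fun c => ?_, fun c => ?_, ?_⟩
  · unfold two
    rw [← integral_conj]
    rw [← inf_moveC μ B hν (fun V => conj (conj (F V) * F (move (t : ℤ) x V)))
      (Complex.continuous_conj.comp (cont_two hF.cont _ _)) (-(t : ℤ)) (-x)]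
    simp only [map_mul, Complex.conj_conj, move_move, add_neg_cancel, move_zero]
    rw [inf_refC μ B hν hF (t : ℤ) (-x)]
    refine integral_congr_ae (Filter.Eventually.of_forall fun V => ?_)
    simp only
    rw [mul_comm]
  · refine hpos 0 c fun H hH => ?_
    have := inf_rpB μ B hν c.support H hH (fun a => a.1) (fun a => a.2)
    simpa using this
  · refine hpos 1 c fun H hH => ?_
    exact inf_rpA μ B hβ hν c.support H hH (fun a => a.1) (fun a => a.2)
  · obtain ⟨C, hC⟩ : ∃ C, ∀ V, ‖F V‖ ≤ C := by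
      obtain ⟨C, hC⟩ := (isCompact_univ.image hF.cont.norm).bddAbove
      exact ⟨C, fun V => hC ⟨V, trivial, rfl⟩⟩
    refine ⟨C * C, fun t x => ?_⟩
    unfold two
    refine (norm_integral_le_of_norm_le_const (C := C * C)
      (Filter.Eventually.of_forall fun V => ?_)).trans ?_
    · rw [norm_mul, RCLike.norm_conj]
      exact mul_le_mul (hC _) (hC _) (norm_nonneg _) ((norm_nonneg _).trans (hC V))
    · simp

include B in
/-- The energy-momentum measure. -/
theorem exists_em (hβ : 0 ≤ β) (hν : IsInfVol μ β ν) {F : (LinkZ (D + 1) → G) → ℂ} (hF : TZ F) :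
    ∃ ρ : Measure (Sp D), IsFiniteMeasure ρ ∧
      (∀ᵐ q ∂ρ, 0 ≤ q.1 ∧ q.1 ≤ 1 ∧ ∀ j, ‖q.2 j‖ = 1) ∧ ∀ (t : ℕ) (x : Fin D → ℤ),
      two ν F t x = ∫ q, mon t x q ∂ρ :=
  exists_rep (two_PD μ B hβ hν hF)

end inf

end

end Pool.Agent.Q235.EM
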