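import Mathlib
import Pool.Agent.Q235.EM.Loops
import Pool.Agent.Q235.EM.Pos

/-!
# Loops of the time slice
-/

open MeasureTheory Matrix Filter ComplexConjugate
open scoped Matrix.Norms.Frobenius Topology

namespace Pool.Agent.Q235.EM

open Pool.Agent.Results.MP_7f377f_mp.WilsonLoopsWeakCoupling
open Pool.Agent.H906R3 Pool.Agent.W793 Pool.Agent.TH369

set_option linter.unusedSectionVars false

noncomputable section

variable {N n d D : ℕ} {G : Subgroup (UU N)}

lemma hol_congr {V V' : LinkZ d → G} (x : Fin d → ℤ) (p : List (Fin d × Bool))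
    (h : ∀ e ∈ links x p, V e.1 = V' e.1) : hol V x p = hol V' x p := by
  induction p generalizing x with
  | nil => rfl
  | cons s p ih =>
    obtain ⟨i, s⟩ := s
    cases s with
    | true =>
      rw [hol, hol]
      rw [links] at h
      rw [h _ List.mem_cons_self, ih _ fun e he => h e (List.mem_cons_of_mem _ he)]
    | false =>
      rw [hol, hol]
      rw [links] at h
      have h1 : V (x - Pi.single i 1, i) = V' (x - Pi.single i 1, i) := h _ List.mem_cons_self
      rw [h1, ih _ fun e he => h e (List.mem_cons_of_mem _ he)]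

lemma hol_gauge (γ : (Fin d → ℤ) → G) (V : LinkZ d → G) (x : Fin d → ℤ)
    (p : List (Fin d × Bool)) :
    hol (gauge γ V) x p = γ x * hol V x p * (γ (dest x p))⁻¹ := by
  induction p generalizing x with
  | nil =>
    show (1 : G) = γ x * 1 * (γ x)⁻¹
    group
  | cons s p ih =>
    obtain ⟨i, s⟩ := s
    cases s with
    | true =>
      rw [hol, hol, ih]
      show γ x * V (x, i) * (γ (x + Pi.single i 1))⁻¹ * _ = _
      show _ = γ x * (V (x, i) * _) * (γ (dest (x + Pi.single i 1) p))⁻¹
      group
    | false =>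
      rw [hol, hol, ih]
      show (γ (x - Pi.single i 1) * V (x - Pi.single i 1, i) *
        (γ (x - Pi.single i 1 + Pi.single i 1))⁻¹)⁻¹ * _ = _
      show _ = γ x * ((V (x - Pi.single i 1, i))⁻¹ * _) * (γ (dest (x - Pi.single i 1) p))⁻¹
      rw [sub_add_cancel]
      group

lemma mt_mul (g h : G) : mt (g * h) = mt g * mt h := rfl

lemma mt_inv_mul (g : G) : mt (g⁻¹) * mt g = 1 := by
  rw [← mt_mul, inv_mul_cancel]
  rfl

lemma wilson_inv (γ : Loop d) (k : (Fin d → ℤ) → G) (V : LinkZ d → G) :
    wilson γ (gauge k V) = wilson γ V := by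
  unfold wilson
  rw [hol_gauge, γ.closed, mt_mul, mt_mul, Matrix.trace_mul_comm, ← Matrix.mul_assoc, mt_inv_mul,
    Matrix.one_mul]

/-- Loops of the time slice `0`. -/
structure T0 (γ : Loop (D + 1)) : Prop where
  base : γ.base (Fin.last D) = 0
  steps : ∀ s ∈ γ.steps, s.1 ≠ Fin.last D

lemma links_T0 (x : Fin (D + 1) → ℤ) (hx : x (Fin.last D) = 0) (p : List (Fin (D + 1) × Bool))
    (hp : ∀ s ∈ p, s.1 ≠ Fin.last D) :
    ∀ e ∈ links x p, e.1.1 (Fin.last D) = 0 ∧ e.1.2 ≠ Fin.last D := by
  induction p generalizing x with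
  | nil => intro e he; exact absurd he List.not_mem_nil
  | cons s p ih =>
    obtain ⟨i, s⟩ := s
    have hi : i ≠ Fin.last D := hp _ List.mem_cons_self
    have hp' : ∀ s ∈ p, s.1 ≠ Fin.last D := fun s hs => hp s (List.mem_cons_of_mem _ hs)
    cases s with
    | true =>
      intro e he
      rw [links] at he
      rcases List.mem_cons.1 he with rfl | he
      · exact ⟨hx, hi⟩
      · exact ih (x + Pi.single i 1) (by rw [Pi.add_apply, Pi.single_eq_of_ne hi.symm, hx,
          add_zero]) hp' e he
    | false =>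
      have h1 : (x - Pi.single i 1 : Fin (D + 1) → ℤ) (Fin.last D) = 0 := by
        rw [Pi.sub_apply, Pi.single_eq_of_ne hi.symm, hx, sub_zero]
      intro e he
      rw [links] at he
      rcases List.mem_cons.1 he with rfl | he
      · exact ⟨h1, hi⟩
      · exact ih (x - Pi.single i 1) h1 hp' e he

lemma wilson_TZ {γ : Loop (D + 1)} (hγ : T0 γ) :
    TZ (wilson γ : (LinkZ (D + 1) → G) → ℝ) where
  cont := wilson_cont γ
  inv k V := wilson_inv γ k V
  dep V V' h := by
    unfold wilson
    rw [hol_congr γ.base γ.steps fun e he => ?_]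
    have h1 := links_T0 γ.base hγ.base γ.steps hγ.steps e he
    exact h _ h1.1 h1.2

lemma wilson_loc (γ : Loop d) : ∃ R : ℕ, ∀ V V' : LinkZ d → G,
    (∀ e : LinkZ d, (∀ i, |e.1 i| ≤ R) → V e = V' e) → wilson γ V = wilson γ V' := by
  obtain ⟨R, hR⟩ : ∃ R : ℕ, ∀ e ∈ links γ.base γ.steps, ∀ i, |e.1.1 i| ≤ R := by
    have key : ∀ L : List (LinkZ d × Bool), ∃ R : ℕ, ∀ e ∈ L, ∀ i, |e.1.1 i| ≤ R := by
      intro L
      induction L with
      | nil => exact ⟨0, fun e he => absurd he List.not_mem_nil⟩
      | cons a L ih =>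
        obtain ⟨R, hR⟩ := ih
        refine ⟨R + ∑ i, (a.1.1 i).natAbs, fun e he i => ?_⟩
        rcases List.mem_cons.1 he with rfl | he
        · have h1 : (e.1.1 i).natAbs ≤ ∑ i, (e.1.1 i).natAbs :=
            Finset.single_le_sum (f := fun i => (e.1.1 i).natAbs) (fun _ _ => Nat.zero_le _)
              (Finset.mem_univ i)
          have h2 : |e.1.1 i| = ((e.1.1 i).natAbs : ℤ) := Int.abs_eq_natAbs _
          rw [h2]
          exact_mod_cast h1.trans (Nat.le_add_left _ _)
        · have := hR e he i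
          push_cast
          have h3 : (0 : ℤ) ≤ ∑ i, |a.1.1 i| := Finset.sum_nonneg fun i _ => abs_nonneg _
          linarith
    exact key _
  refine ⟨R, fun V V' h => ?_⟩
  unfold wilson
  rw [hol_congr γ.base γ.steps fun e he => h _ (hR e he)]

/-- a path between two points of the time slice -/
lemma exists_path (x y : Fin (D + 1) → ℤ) (h : x (Fin.last D) = y (Fin.last D)) :
    ∃ p : List (Fin (D + 1) × Bool), dest x p = y ∧ ∀ s ∈ p, s.1 ≠ Fin.last D := by
  let S : AddSubgroup (Fin (D + 1) → ℤ) :=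
    { carrier := {v | ∃ p : List (Fin (D + 1) × Bool), (∀ x, dest x p = x + v) ∧
        ∀ s ∈ p, s.1 ≠ Fin.last D}
      zero_mem' := ⟨[], fun x => (add_zero x).symm, fun s hs => absurd hs List.not_mem_nil⟩
      add_mem' := by
        rintro a b ⟨p, hp, hp'⟩ ⟨q, hq, hq'⟩
        refine ⟨p ++ q, fun x => ?_, fun s hs => ?_⟩
        · rw [dest_append, hp, hq, add_assoc]
        · rcases List.mem_append.1 hs with hs | hs
          · exact hp' s hs
          · exact hq' s hs
      neg_mem' := by
        rintro a ⟨p, hp, hp'⟩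
        refine ⟨rev p, fun x => ?_, fun s hs => ?_⟩
        · have h1 := dest_rev (x - a) p
          rw [hp, sub_add_cancel] at h1
          rw [h1]; abel
        · unfold rev at hs
          rw [List.mem_reverse, List.mem_map] at hs
          obtain ⟨s', hs', rfl⟩ := hs
          exact hp' s' hs' }
  have h1 : ∀ i : Fin (D + 1), i ≠ Fin.last D → (Pi.single i 1 : Fin (D + 1) → ℤ) ∈ S := by
    intro i hi
    refine ⟨[(i, true)], fun x => rfl, fun s hs => ?_⟩
    rw [List.mem_singleton] at hs
    subst hs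
    exact hi
  have h2 : y - x ∈ S := by
    rw [← Finset.univ_sum_single (y - x)]
    refine AddSubgroup.sum_mem S fun i _ => ?_
    by_cases hi : i = Fin.last D
    · subst hi
      have : (y - x) (Fin.last D) = 0 := by rw [Pi.sub_apply, h, sub_self]
      rw [this, Pi.single_zero]
      exact S.zero_mem
    · have h3 : (Pi.single i ((y - x) i) : Fin (D + 1) → ℤ) =
          (y - x) i • (Pi.single i 1 : Fin (D + 1) → ℤ) := by
        rw [← Pi.single_smul]; simp
      rw [h3]
      exact S.zsmul_mem (h1 i hi) _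
  obtain ⟨p, hp, hp'⟩ := h2
  exact ⟨p, by rw [hp]; abel, hp'⟩

lemma T0_conn {γ γ' : Loop (D + 1)} (hγ : T0 γ) (hγ' : T0 γ') (p : List (Fin (D + 1) × Bool))
    (hp : ∀ s ∈ p, s.1 ≠ Fin.last D) (h : dest γ.base p = γ'.base) : T0 (conn γ γ' p h) where
  base := hγ.base
  steps s hs := by
    rcases List.mem_append.1 hs with hs | hs
    · exact hγ.steps s hs
    · rcases List.mem_append.1 hs with hs | hs
      · exact hp s hs
      · rcases List.mem_append.1 hs with hs | hs
        · exact hγ'.steps s hs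
        · unfold rev at hs
          rw [List.mem_reverse, List.mem_map] at hs
          obtain ⟨s', hs', rfl⟩ := hs
          exact hp s' hs'

lemma T0_pq {i j : Fin (D + 1)} (hi : i ≠ Fin.last D) (hj : j ≠ Fin.last D)
    {x : Fin (D + 1) → ℤ} (hx : x (Fin.last D) = 0) : T0 (pq i j x) where
  base := hx
  steps s hs := by
    unfold pq at hs
    simp only [List.mem_cons, List.not_mem_nil, or_false] at hs
    rcases hs with rfl | rfl | rfl | rfl
    · exact hi
    · exact hj
    · exact hi
    · exact hj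

lemma T0_Lsh {γ : Loop (D + 1)} (hγ : T0 γ) {z : Fin (D + 1) → ℤ} (hz : z (Fin.last D) = 0) :
    T0 (Lsh z γ) where
  base := by
    show γ.base _ + z _ = 0
    rw [hγ.base, hz, add_zero]
  steps := hγ.steps

end

end Pool.Agent.Q235.EM
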