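import Mathlib
import Pool.Agent.Q235.EM.TLoops
import Pool.Agent.Q235.EM.Haf

/-!
# The weak coupling limit of the expectations of the polynomials of the loop variables
-/

open MeasureTheory Matrix Filter ComplexConjugate
open scoped Matrix.Norms.Frobenius Topology

namespace Pool.Agent.Q235.EM

open Pool.Agent.Results.MP_7f377f_mp.WilsonLoopsWeakCoupling
open Pool.Agent.H906R3 Pool.Agent.W793 Pool.Agent.TH369

set_option linter.unusedSectionVars false

noncomputable section

variable {N n d D : ℕ} {G : Subgroup (UU N)}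

/-- Polynomials of the loops. -/
abbrev LP (d : ℕ) := MvPolynomial (Loop d) ℂ

/-- an enumeration of a monomial -/
def enl (m : Loop d →₀ ℕ) : List (Loop d) := (Finsupp.toMultiset m).toList

/-- the value of the limit state at a monomial -/
def wm (n : ℕ) (m : Loop d →₀ ℕ) : ℂ :=
  (((1 / 2) ^ (enl m).length * wicks n (enl m).get : ℝ) : ℂ)

/-- the limit state -/
def wst (n d : ℕ) : LP d →ₗ[ℂ] ℂ := (MvPolynomial.basisMonomials (Loop d) ℂ).constr ℂ (wm n)

lemma wst_monomial (m : Loop d →₀ ℕ) : wst n d (MvPolynomial.monomial m 1) = wm n m := by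
  have h := (MvPolynomial.basisMonomials (Loop d) ℂ).constr_basis ℂ (wm n) m
  rw [MvPolynomial.coe_basisMonomials] at h
  exact h

/-- the product of variables -/
def pX {k : ℕ} (γ : Fin k → Loop d) : LP d := ∏ r, MvPolynomial.X (γ r)

lemma monomial_pX (m : Loop d →₀ ℕ) :
    (MvPolynomial.monomial m (1 : ℂ) : LP d) = pX (enl m).get := by
  unfold pX
  have h1 : ∏ r : Fin (enl m).length, (MvPolynomial.X ((enl m).get r) : LP d) =
      ((enl m).map fun γ => (MvPolynomial.X γ : LP d)).prod := by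
    conv_rhs => rw [← List.ofFn_get (enl m)]
    rw [List.map_ofFn, List.prod_ofFn]
    rfl
  rw [h1, MvPolynomial.monomial_eq, MvPolynomial.C_1, one_mul]
  have h2 : ((enl m).map fun γ => (MvPolynomial.X γ : LP d)).prod =
      ((Finsupp.toMultiset m).map fun γ => (MvPolynomial.X γ : LP d)).prod := by
    conv_rhs => rw [← Multiset.coe_toList (Finsupp.toMultiset m)]
    rw [Multiset.map_coe, Multiset.prod_coe]
    rfl
  rw [h2, Finsupp.toMultiset_map, Finsupp.prod_toMultiset, Finsupp.prod_mapDomain_index]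
  · simp
  · intro b m₁ m₂; rw [pow_add]

lemma span_ind {p : LP d → Prop} (h1 : ∀ (k : ℕ) (γ : Fin k → Loop d), p (pX γ))
    (h2 : ∀ P Q, p P → p Q → p (P + Q)) (h3 : ∀ (c : ℂ) P, p P → p (c • P)) : ∀ P, p P := by
  intro P
  refine MvPolynomial.induction_on' P (fun u a => ?_) h2
  have : (MvPolynomial.monomial u a : LP d) = a • MvPolynomial.monomial u 1 := by
    rw [MvPolynomial.smul_monomial, smul_eq_mul, mul_one]
  rw [this, monomial_pX]
  exact h3 a _ (h1 _ _)

/-- the value of a polynomial at a configuration -/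
def evl (n : ℕ) (β : ℝ) (V : LinkZ d → G) : LP d →ₐ[ℂ] ℂ :=
  MvPolynomial.aeval fun γ => (loopVar n β γ V : ℂ)

lemma evl_X (β : ℝ) (V : LinkZ d → G) (γ : Loop d) :
    evl n β V (MvPolynomial.X γ) = loopVar n β γ V := by
  unfold evl
  rw [MvPolynomial.aeval_X]

lemma loopVar_cont (β : ℝ) (γ : Loop d) :
    Continuous (loopVar n β γ : (LinkZ d → G) → ℝ) :=
  (continuous_const.mul (continuous_const.sub (wilson_cont γ))).sub continuous_const

lemma evl_cont (β : ℝ) (P : LP d) : Continuous fun V : LinkZ d → G => evl n β V P := by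
  refine MvPolynomial.induction_on (motive := fun P => Continuous fun V : LinkZ d → G =>
    evl n β V P) P (fun a => ?_) (fun p q hp hq => ?_) (fun p γ hp => ?_)
  · simp only [evl, MvPolynomial.aeval_C]
    exact continuous_const
  · simp only [map_add]
    exact hp.add hq
  · simp only [map_mul, evl_X]
    exact hp.mul (Complex.continuous_ofReal.comp (loopVar_cont β γ))

lemma evl_pX (β : ℝ) (V : LinkZ d → G) {k : ℕ} (γ : Fin k → Loop d) :
    evl n β V (pX γ) = ((∏ r, loopVar n β (γ r) V : ℝ) : ℂ) := by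
  unfold pX
  rw [map_prod]
  push_cast
  exact Finset.prod_congr rfl fun r _ => evl_X β V (γ r)

section lim

variable [CompactSpace G] [SecondCountableTopology G] [MeasurableSpace G] [BorelSpace G]
  (μ : Measure G) [IsProbabilityMeasure μ] [μ.IsHaarMeasure]

/-- uniform convergence of the expectations -/
def Lim (n : ℕ) (P : LP d) (a : ℂ) : Prop := ∀ ε : ℝ, 0 < ε → ∃ β₀ : ℝ, ∀ β : ℝ, β₀ ≤ β →
  ∀ ν : Measure (LinkZ d → G), IsInfVol μ β ν → ‖∫ V, evl n β V P ∂ν - a‖ < ε

omit [CompactSpace G] [SecondCountableTopology G] [IsProbabilityMeasure μ] [μ.IsHaarMeasure] [BorelSpace G] in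
lemma Lim.mono {n : ℕ} {P : LP d} {a : ℂ} (h : Lim μ n P a) {ε : ℝ} (hε : 0 < ε) :
    ∃ β₀ : ℝ, 0 ≤ β₀ ∧ ∀ β : ℝ, β₀ ≤ β → ∀ ν : Measure (LinkZ d → G), IsInfVol μ β ν →
      ‖∫ V, evl n β V P ∂ν - a‖ < ε := by
  obtain ⟨β₀, h0⟩ := h ε hε
  exact ⟨max β₀ 0, le_max_right _ _, fun β hβ => h0 β ((le_max_left _ _).trans hβ)⟩

lemma Lim.add {n : ℕ} {P Q : LP d} {a b : ℂ} (h : Lim μ n P a) (h' : Lim μ n Q b) :
    Lim μ n (P + Q) (a + b) := by
  intro ε hε
  obtain ⟨β₁, h1⟩ := h (ε / 2) (by positivity)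
  obtain ⟨β₂, h2⟩ := h' (ε / 2) (by positivity)
  refine ⟨max β₁ β₂, fun β hβ ν hν => ?_⟩
  have := hν.prob
  have e1 := h1 β ((le_max_left _ _).trans hβ) ν hν
  have e2 := h2 β ((le_max_right _ _).trans hβ) ν hν
  simp only [map_add]
  rw [integral_add (intgd (evl_cont β P)) (intgd (evl_cont β Q))]
  have e3 : ∫ V, evl n β V P ∂ν + ∫ V, evl n β V Q ∂ν - (a + b) =
      (∫ V, evl n β V P ∂ν - a) + (∫ V, evl n β V Q ∂ν - b) := by ring
  rw [e3]
  exact (norm_add_le _ _).trans_lt (by linarith)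
  where
  intgd {ν : Measure (LinkZ d → G)} [IsProbabilityMeasure ν] {F : (LinkZ d → G) → ℂ}
    (hF : Continuous F) : Integrable F ν :=
    hF.integrable_of_hasCompactSupport (HasCompactSupport.of_compactSpace _)

lemma Lim.smul {n : ℕ} {P : LP d} {a : ℂ} (c : ℂ) (h : Lim μ n P a) :
    Lim μ n (c • P) (c * a) := by
  intro ε hε
  obtain ⟨β₁, h1⟩ := h (ε / (‖c‖ + 1)) (by positivity)
  refine ⟨β₁, fun β hβ ν hν => ?_⟩
  have e1 := h1 β hβ ν hν
  simp only [map_smul, smul_eq_mul]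
  rw [integral_const_mul, ← mul_sub, norm_mul]
  rw [lt_div_iff₀ (by positivity)] at e1
  nlinarith [norm_nonneg c, norm_nonneg (∫ V, evl n β V P ∂ν - a)]

variable (B : LieBasis G n)

include B in
lemma Lim.unique {P : LP d} {a b : ℂ} (h : Lim μ n P a) (h' : Lim μ n P b) : a = b := by
  by_contra hab
  have hpos : 0 < ‖a - b‖ := norm_pos_iff.2 (sub_ne_zero.2 hab)
  obtain ⟨β₁, h1⟩ := h (‖a - b‖ / 2) (by positivity)
  obtain ⟨β₂, h2⟩ := h' (‖a - b‖ / 2) (by positivity)
  obtain ⟨ν, hν⟩ := exists_infVol (d := d) μ B (max β₁ β₂)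
  have e1 := h1 _ (le_max_left _ _) ν hν
  have e2 := h2 _ (le_max_right _ _) ν hν
  have e3 : a - b = (∫ V, evl n (max β₁ β₂) V P ∂ν - b) -
      (∫ V, evl n (max β₁ β₂) V P ∂ν - a) := by ring
  have e4 := norm_sub_le (∫ V, evl n (max β₁ β₂) V P ∂ν - b)
    (∫ V, evl n (max β₁ β₂) V P ∂ν - a)
  rw [← e3] at e4
  linarith

include B in
/-- the limit for the products of loop variables -/
lemma lim_pX (hd : 3 ≤ d) (hG : IsClosed (G : Set (UU N))) {k : ℕ} (γ : Fin k → Loop d) :
    Lim μ n (pX γ) (((1 / 2) ^ k * wicks n γ : ℝ) : ℂ) := by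
  obtain ⟨K, R₀, C, h⟩ := Pool.Agent.Results.MP_7f377f_mp.WilsonLoopsWeakCoupling.result hd G hG μ
    B k 1
  intro ε hε
  obtain ⟨R1, hR1⟩ : ∃ R1 : ℕ, ∀ r, (γ r).length ≤ R1 :=
    ⟨∑ r, (γ r).length, fun r => Finset.single_le_sum (f := fun r => (γ r).length)
      (fun _ _ => Nat.zero_le _) (Finset.mem_univ r)⟩
  obtain ⟨R2, hR2⟩ : ∃ R2 : ℕ, ∀ r s i, |(γ r).base i - (γ s).base i| ≤ R2 := by
    refine ⟨∑ r, ∑ s, ∑ i, ((γ r).base i - (γ s).base i).natAbs, fun r s i => ?_⟩
    have h1 : ((γ r).base i - (γ s).base i).natAbs ≤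
        ∑ r, ∑ s, ∑ i, ((γ r).base i - (γ s).base i).natAbs :=
      (Finset.single_le_sum (f := fun i => ((γ r).base i - (γ s).base i).natAbs)
        (fun _ _ => Nat.zero_le _) (Finset.mem_univ i)).trans
      ((Finset.single_le_sum (f := fun s => ∑ i, ((γ r).base i - (γ s).base i).natAbs)
        (fun _ _ => Nat.zero_le _) (Finset.mem_univ s)).trans
      (Finset.single_le_sum (f := fun r => ∑ s, ∑ i, ((γ r).base i - (γ s).base i).natAbs)
        (fun _ _ => Nat.zero_le _) (Finset.mem_univ r)))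
    have h2 : |(γ r).base i - (γ s).base i| = (((γ r).base i - (γ s).base i).natAbs : ℤ) :=
      Int.abs_eq_natAbs _
    rw [h2]
    exact_mod_cast h1
  obtain ⟨R3, hR3⟩ := exists_nat_gt (|C| / ε)
  obtain ⟨R, hR⟩ : ∃ R : ℕ, R = R₀ + R1 + R2 + R3 + 1 := ⟨_, rfl⟩
  refine ⟨(R : ℝ) ^ K, fun β hβ ν hν => ?_⟩
  obtain ⟨h1, -⟩ := h R (by omega) β hβ
  obtain ⟨-, h2⟩ := h1 γ (fun r => (hR1 r).trans (by omega)) (fun r s i => (hR2 r s i).trans (by
    rw [hR]; push_cast; linarith))
  have h3 := h2 ν hν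
  simp only [evl_pX]
  have h4 : ∫ V, ((∏ r, loopVar n β (γ r) V : ℝ) : ℂ) ∂ν =
      ((∫ V, ∏ r, loopVar n β (γ r) V ∂ν : ℝ) : ℂ) := integral_ofReal
  rw [h4, ← Complex.ofReal_sub, Complex.norm_real, Real.norm_eq_abs]
  refine h3.trans_lt ?_
  rw [pow_one]
  have hRpos : (0 : ℝ) < R := by
    rw [hR]; positivity
  have h5 : (R3 : ℝ) ≤ R := by
    have h6 : R3 ≤ R := by omega
    exact_mod_cast h6
  rw [div_lt_iff₀ hRpos]
  rw [div_lt_iff₀ hε] at hR3
  calc C ≤ |C| := le_abs_self C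
    _ < R3 * ε := hR3
    _ ≤ R * ε := mul_le_mul_of_nonneg_right h5 hε.le
    _ = ε * R := mul_comm _ _

include B in
/-- the limit for all polynomials -/
theorem lim_wst (hd : 3 ≤ d) (hG : IsClosed (G : Set (UU N))) (P : LP d) :
    Lim μ n P (wst n d P) := by
  refine MvPolynomial.induction_on' P (fun u a => ?_) (fun P Q hP hQ => ?_)
  · have : (MvPolynomial.monomial u a : LP d) = a • MvPolynomial.monomial u 1 := by
      rw [MvPolynomial.smul_monomial, smul_eq_mul, mul_one]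
    rw [this, map_smul, smul_eq_mul, wst_monomial]
    refine Lim.smul μ a ?_
    rw [monomial_pX]
    exact lim_pX μ B hd hG _
  · rw [map_add]
    exact Lim.add μ hP hQ

include μ B in
theorem wst_pX (hd : 3 ≤ d) (hG : IsClosed (G : Set (UU N))) {k : ℕ} (γ : Fin k → Loop d) :
    wst n d (pX γ) = (((1 / 2) ^ k * wicks n γ : ℝ) : ℂ) :=
  Lim.unique μ B (lim_wst μ B hd hG _) (lim_pX μ B hd hG γ)

/-- the translation of polynomials -/
def Psh (z : Fin d → ℤ) : LP d →ₐ[ℂ] LP d := MvPolynomial.rename (Lsh z)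

lemma Psh_X (z : Fin d → ℤ) (γ : Loop d) :
    Psh z (MvPolynomial.X γ) = MvPolynomial.X (Lsh z γ) := by
  unfold Psh
  rw [MvPolynomial.rename_X]

lemma Psh_pX (z : Fin d → ℤ) {k : ℕ} (γ : Fin k → Loop d) :
    Psh z (pX γ) = pX fun r => Lsh z (γ r) := by
  unfold pX
  rw [map_prod]
  exact Finset.prod_congr rfl fun r _ => Psh_X z (γ r)

lemma Psh_Psh (z w : Fin d → ℤ) (P : LP d) : Psh z (Psh w P) = Psh (w + z) P := by
  unfold Psh
  rw [MvPolynomial.rename_rename]
  congr 2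
  funext γ
  exact Lsh_Lsh z w γ

lemma evl_Psh (β : ℝ) (V : LinkZ d → G) (z : Fin d → ℤ) (P : LP d) :
    evl n β V (Psh z P) = evl n β (fun e => V (e.1 + z, e.2)) P := by
  unfold evl Psh
  rw [MvPolynomial.aeval_rename]
  congr 2
  funext γ
  exact congrArg _ (loopVar_Lsh n β z γ V)

lemma wicks_Lsh (z : Fin d → ℤ) {k : ℕ} (γ : Fin k → Loop d) :
    wicks n (fun r => Lsh z (γ r)) = wicks n γ := by
  unfold wicks
  simp only [inter_Lsh]

include μ B in
theorem wst_Psh (hd : 3 ≤ d) (hG : IsClosed (G : Set (UU N))) (z : Fin d → ℤ) (P : LP d) :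
    wst n d (Psh z P) = wst n d P := by
  refine span_ind (p := fun P => wst n d (Psh z P) = wst n d P) (fun k γ => ?_)
    (fun P Q hP hQ => ?_) (fun c P hP => ?_) P
  · rw [Psh_pX, wst_pX μ B hd hG, wst_pX μ B hd hG, wicks_Lsh]
  · rw [map_add, map_add, map_add, hP, hQ]
  · rw [map_smul, map_smul, map_smul, hP]

include μ B in
/-- the cluster property of the limit state -/
theorem wst_cluster (hd : 3 ≤ d) (hG : IsClosed (G : Set (UU N))) (i : Fin d) (P Q : LP d) :
    Tendsto (fun s : ℕ => wst n d (P * Psh (Pi.single i (s : ℤ)) Q)) atTop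
      (𝓝 (wst n d P * wst n d Q)) := by
  revert P
  refine span_ind (p := fun Q => ∀ P : LP d, Tendsto (fun s : ℕ => wst n d
    (P * Psh (Pi.single i (s : ℤ)) Q)) atTop (𝓝 (wst n d P * wst n d Q))) (fun l γ' P => ?_)
    (fun Q Q' hQ hQ' P => ?_) (fun c Q hQ P => ?_) Q
  · refine span_ind (p := fun P => Tendsto (fun s : ℕ => wst n d
      (P * Psh (Pi.single i (s : ℤ)) (pX γ'))) atTop (𝓝 (wst n d P * wst n d (pX γ'))))
      (fun k γ => ?_) (fun P P' hP hP' => ?_) (fun c P hP => ?_) P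
    · have h1 : ∀ s : ℕ, pX γ * Psh (Pi.single i (s : ℤ)) (pX γ') =
          pX (Fin.append γ fun r => Lsh (Pi.single i (s : ℤ)) (γ' r)) := by
        intro s
        rw [Psh_pX]
        unfold pX
        rw [Fin.prod_univ_add]
        simp only [Fin.append_left, Fin.append_right]
      simp only [h1, wst_pX μ B hd hG]
      have h2 := wicks_cluster n γ (fun s r => Lsh (Pi.single i (s : ℤ)) (γ' r)) γ'
        (fun s a b => inter_Lsh _ _ _) (fun a b => inter_decay hd i _ _) (fun a b => by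
          simp only [inter_symm (Lsh _ _)]
          exact inter_decay hd i _ _)
      have h3 : ((((1 / 2) ^ k * wicks n γ : ℝ) : ℂ) * (((1 / 2) ^ l * wicks n γ' : ℝ) : ℂ)) =
          (((1 / 2) ^ (k + l) * (wicks n γ * wicks n γ') : ℝ) : ℂ) := by
        push_cast
        ring
      rw [h3]
      exact (Complex.continuous_ofReal.tendsto _).comp (h2.const_mul _)
    · simp only [add_mul, map_add]
      exact hP.add hP'
    · simp only [smul_mul_assoc, map_smul, smul_eq_mul]
      have := hP.const_mul c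
      simpa only [mul_assoc] using this
  · simp only [map_add, mul_add]
    exact (hQ P).add (hQ' P)
  · simp only [map_smul, mul_smul_comm, smul_eq_mul]
    have := (hQ P).const_mul c
    have e : wst n d P * (c * wst n d Q) = c * (wst n d P * wst n d Q) := by ring
    rw [e]
    exact this

end lim

end

end Pool.Agent.Q235.EM
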