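import Mathlib
import Pool.Agent.Q235.EM.One
import Pool.Agent.Q235.EM.St

/-!
# Two gluons
-/

open MeasureTheory Matrix Filter ComplexConjugate
open scoped Matrix.Norms.Frobenius Topology

namespace Pool.Agent.Q235.EM

open Pool.Agent.Results.MP_7f377f_mp.WilsonLoopsWeakCoupling

set_option linter.unusedSectionVars false

noncomputable section

variable {N n d D : ℕ} {G : Subgroup (UU N)}

/-- the complex conjugate polynomial -/
def bar : LP d →+* LP d := MvPolynomial.map (starRingEnd ℂ)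

lemma bar_X (γ : Loop d) : bar (MvPolynomial.X γ : LP d) = MvPolynomial.X γ := by
  unfold bar
  rw [MvPolynomial.map_X]

lemma bar_smul (c : ℂ) (P : LP d) : bar (c • P) = conj c • bar P := by
  unfold bar
  rw [MvPolynomial.smul_eq_C_mul, map_mul, MvPolynomial.map_C, MvPolynomial.smul_eq_C_mul]

lemma bar_Psh (z : Fin d → ℤ) (P : LP d) : bar (Psh z P) = Psh z (bar P) := by
  unfold bar Psh
  rw [MvPolynomial.map_rename]

lemma evl_bar (β : ℝ) (V : LinkZ d → G) (P : LP d) : evl n β V (bar P) = conj (evl n β V P) := by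
  refine MvPolynomial.induction_on (motive := fun P => evl n β V (bar P) =
    conj (evl n β V P)) P (fun a => ?_) (fun p q hp hq => ?_) (fun p γ hp => ?_)
  · unfold bar evl
    rw [MvPolynomial.map_C, MvPolynomial.aeval_C, MvPolynomial.aeval_C]
    rfl
  · rw [map_add, map_add, map_add, map_add, hp, hq]
  · rw [map_mul, map_mul, map_mul, map_mul, hp, bar_X, evl_X, Complex.conj_ofReal]

/-- the two point function of the limit state -/
def cP (n : ℕ) (P : LP (D + 1)) (t : ℤ) (x : Fin D → ℤ) : ℂ :=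
  wst n (D + 1) (bar P * Psh (pt x t) P)

lemma cP_smul (n : ℕ) (c : ℂ) (P : LP (D + 1)) (t : ℤ) (x : Fin D → ℤ) :
    cP n (c • P) t x = conj c * c * cP n P t x := by
  unfold cP
  rw [bar_smul, map_smul, smul_mul_smul_comm, map_smul, smul_eq_mul]

/-- The polynomials of the loops of the time slice. -/
def alg0 (D : ℕ) : Subalgebra ℂ (LP (D + 1)) :=
  Algebra.adjoin ℂ (MvPolynomial.X '' {γ : Loop (D + 1) | T0 γ})

lemma X_mem {γ : Loop (D + 1)} (h : T0 γ) : (MvPolynomial.X γ : LP (D + 1)) ∈ alg0 D :=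
  Algebra.subset_adjoin ⟨γ, h, rfl⟩

lemma Psh_mem {z : Fin (D + 1) → ℤ} (hz : z (Fin.last D) = 0) {P : LP (D + 1)}
    (hP : P ∈ alg0 D) : Psh z P ∈ alg0 D := by
  have h1 : (alg0 D).map (Psh z) ≤ alg0 D := by
    unfold alg0
    rw [AlgHom.map_adjoin]
    refine Algebra.adjoin_le ?_
    rintro _ ⟨_, ⟨γ, hγ, rfl⟩, rfl⟩
    rw [Psh_X]
    exact X_mem (T0_Lsh hγ hz)
  exact h1 ⟨P, hP, rfl⟩

section wst

variable [CompactSpace G] [SecondCountableTopology G] [MeasurableSpace G] [BorelSpace G]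
  (μ : Measure G) [IsProbabilityMeasure μ] [μ.IsHaarMeasure] (B : LieBasis G n)

include μ B in
lemma wst_X (hd : 3 ≤ d) (hG : IsClosed (G : Set (UU N))) (γ : Loop d) :
    wst n d (MvPolynomial.X γ) = 0 := by
  have h := wst_pX μ B hd hG ![γ]
  rw [wicks_one, mul_zero, Complex.ofReal_zero] at h
  unfold pX at h
  simpa using h

include μ B in
lemma wst_XX (hd : 3 ≤ d) (hG : IsClosed (G : Set (UU N))) (γ γ' : Loop d) :
    wst n d (MvPolynomial.X γ * MvPolynomial.X γ') = ((n / 2 * inter γ γ' ^ 2 : ℝ) : ℂ) := by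
  have h := wst_pX μ B hd hG ![γ, γ']
  rw [wicks_two] at h
  unfold pX at h
  rw [Fin.prod_univ_two] at h
  simp only [Matrix.cons_val_zero, Matrix.cons_val_one] at h
  rw [h]
  congr 1
  ring

include μ B in
/-- polarization -/
lemma wst_pol (hd : 3 ≤ d) (hG : IsClosed (G : Set (UU N))) (a b c a' b' c' : Loop d)
    (h : ∀ η, inter c η = inter a η + inter b η)
    (h' : ∀ η, inter η c' = inter η a' + inter η b') :
    wst n d ((MvPolynomial.X c - MvPolynomial.X a - MvPolynomial.X b) *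
      (MvPolynomial.X c' - MvPolynomial.X a' - MvPolynomial.X b')) =
      n * (inter a a' * inter b b' + inter a b' * inter b a') := by
  have e : ((MvPolynomial.X c - MvPolynomial.X a - MvPolynomial.X b) *
      (MvPolynomial.X c' - MvPolynomial.X a' - MvPolynomial.X b') : LP d) =
      MvPolynomial.X c * MvPolynomial.X c' - MvPolynomial.X c * MvPolynomial.X a' -
      MvPolynomial.X c * MvPolynomial.X b' - MvPolynomial.X a * MvPolynomial.X c' +
      MvPolynomial.X a * MvPolynomial.X a' + MvPolynomial.X a * MvPolynomial.X b' -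
      MvPolynomial.X b * MvPolynomial.X c' + MvPolynomial.X b * MvPolynomial.X a' +
      MvPolynomial.X b * MvPolynomial.X b' := by ring
  rw [e]
  simp only [map_add, map_sub, wst_XX μ B hd hG]
  rw [h c', h a', h b', h' a, h' b]
  push_cast
  ring

end wst

/-- the product of two fields on plaquettes -/
def Yl (i j : Fin (D + 1)) (x y : Fin (D + 1) → ℤ) : LP (D + 1) :=
  if h : x (Fin.last D) = y (Fin.last D) then
    MvPolynomial.X (conn (pq i j x) (pq i j y) (exists_path x y h).choose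
      (exists_path x y h).choose_spec.1) - MvPolynomial.X (pq i j x) - MvPolynomial.X (pq i j y)
  else 0

lemma Yl_mem {i j : Fin (D + 1)} (hi : i ≠ Fin.last D) (hj : j ≠ Fin.last D)
    {x y : Fin (D + 1) → ℤ} (hx : x (Fin.last D) = 0) (hy : y (Fin.last D) = 0) :
    Yl i j x y ∈ alg0 D := by
  have h : x (Fin.last D) = y (Fin.last D) := by rw [hx, hy]
  unfold Yl
  rw [dif_pos h]
  exact (alg0 D).sub_mem ((alg0 D).sub_mem (X_mem (T0_conn (T0_pq hi hj hx) (T0_pq hi hj hy) _
    (exists_path x y h).choose_spec.2 _)) (X_mem (T0_pq hi hj hx))) (X_mem (T0_pq hi hj hy))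

lemma bar_Yl (i j : Fin (D + 1)) (x y : Fin (D + 1) → ℤ) : bar (Yl i j x y) = Yl i j x y := by
  unfold Yl
  split_ifs with h
  · rw [map_sub, map_sub, bar_X, bar_X, bar_X]
  · exact map_zero _

section wst

variable [CompactSpace G] [SecondCountableTopology G] [MeasurableSpace G] [BorelSpace G]
  (μ : Measure G) [IsProbabilityMeasure μ] [μ.IsHaarMeasure] (B : LieBasis G n)

include μ B in
lemma wst_Yl (hd : 3 ≤ D + 1) (hG : IsClosed (G : Set (UU N))) {i j : Fin (D + 1)} (hij : i ≠ j)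
    {x y x' y' : Fin (D + 1) → ℤ} (hx : x (Fin.last D) = 0) (hy : y (Fin.last D) = 0)
    (hx' : x' (Fin.last D) = 0) (hy' : y' (Fin.last D) = 0) (v : Fin (D + 1) → ℤ) :
    wst n (D + 1) (Yl i j x y * Psh v (Yl i j x' y')) =
      n * (pkn i j (x - x' - v) * pkn i j (y - y' - v) +
        pkn i j (x - y' - v) * pkn i j (y - x' - v)) := by
  have h : x (Fin.last D) = y (Fin.last D) := by rw [hx, hy]
  have h' : x' (Fin.last D) = y' (Fin.last D) := by rw [hx', hy']
  unfold Yl
  rw [dif_pos h, dif_pos h', map_sub, map_sub, Psh_X, Psh_X, Psh_X,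
    wst_pol μ B hd hG]
  · rw [pq_Lsh, pq_Lsh, inter_pq hij, inter_pq hij, inter_pq hij, inter_pq hij]
    unfold pkn
    rw [sub_sub, sub_sub, sub_sub, sub_sub]
  · intro η
    exact inter_conn_left _ _ _ _ _
  · intro η
    have h1 : η = Lsh v (Lsh (-v) η) := by
      rw [Lsh_Lsh, neg_add_cancel, Lsh_zero]
    rw [h1, inter_Lsh, inter_Lsh, inter_Lsh]
    exact inter_conn_right _ _ _ _ _

include μ B in
lemma wst_Yl_zero (hd : 3 ≤ D + 1) (hG : IsClosed (G : Set (UU N))) (i j : Fin (D + 1))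
    (x y : Fin (D + 1) → ℤ) : wst n (D + 1) (Yl i j x y) = 0 := by
  unfold Yl
  split_ifs with h
  · rw [map_sub, map_sub, wst_X μ B hd hG, wst_X μ B hd hG, wst_X μ B hd hG]
    simp
  · exact map_zero _

/-- the state of two wave packets -/
def Zl (i j : Fin (D + 1)) (w : Fin (D + 1) → ℤ) (f g : FV (D + 1)) : LP (D + 1) :=
  ∑ x ∈ f.support, ∑ y ∈ g.support, (f x * g y) • Yl i j x (y + w)

lemma fk_def (h : (Fin d → ℤ) → ℝ) (u v : FV d) :
    fk h u v = ∑ x ∈ u.support, ∑ y ∈ v.support, conj (u x) * v y * h (x - y) := rfl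

include μ B in
lemma wst_Zl (hd : 3 ≤ D + 1) (hG : IsClosed (G : Set (UU N))) {i j : Fin (D + 1)} (hij : i ≠ j)
    {f g : FV (D + 1)} (hf : ∀ x ∈ f.support, x (Fin.last D) = 0)
    (hg : ∀ x ∈ g.support, x (Fin.last D) = 0) {w : Fin (D + 1) → ℤ} (hw : w (Fin.last D) = 0)
    (v : Fin (D + 1) → ℤ) :
    wst n (D + 1) (bar (Zl i j w f g) * Psh v (Zl i j w f g)) =
      n * (fk (pkn i j) f (tau v f) * fk (pkn i j) g (tau v g) +
        fk (fun z => pkn i j (z - w - v)) f g * fk (fun z => pkn i j (z + w - v)) g f) := by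
  have e1 : fk (pkn i j) f (tau v f) = fk (fun z => pkn i j (z - v)) f f := by
    conv_lhs => rw [← tau_zero f]
    rw [tau_tau, fk_tau]
    simp only [add_zero, zero_add]
  have e2 : fk (pkn i j) g (tau v g) = fk (fun z => pkn i j (z - v)) g g := by
    conv_lhs => rw [← tau_zero g]
    rw [tau_tau, fk_tau]
    simp only [add_zero, zero_add]
  rw [e1, e2]
  have e3 : bar (Zl i j w f g) = ∑ x ∈ f.support, ∑ y ∈ g.support,
      (conj (f x) * conj (g y)) • Yl i j x (y + w) := by
    unfold Zl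
    rw [map_sum]
    refine Finset.sum_congr rfl fun x _ => ?_
    rw [map_sum]
    refine Finset.sum_congr rfl fun y _ => ?_
    rw [bar_smul, bar_Yl, map_mul]
  have e4 : Psh v (Zl i j w f g) = ∑ x ∈ f.support, ∑ y ∈ g.support,
      (f x * g y) • Psh v (Yl i j x (y + w)) := by
    unfold Zl
    rw [map_sum]
    refine Finset.sum_congr rfl fun x _ => ?_
    rw [map_sum]
    refine Finset.sum_congr rfl fun y _ => ?_
    rw [map_smul]
  have e5 : wst n (D + 1) (bar (Zl i j w f g) * Psh v (Zl i j w f g)) =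
      ∑ x ∈ f.support, ∑ y ∈ g.support, ∑ x' ∈ f.support, ∑ y' ∈ g.support,
        ((conj (f x) * f x' * pkn i j (x - x' - v)) * (conj (g y) * g y' * pkn i j (y - y' - v)) +
        (conj (f x) * g y' * pkn i j (x - y' - w - v)) *
          (conj (g y) * f x' * pkn i j (y - x' + w - v))) * n := by
    rw [e3, e4, Finset.sum_mul, map_sum]
    refine Finset.sum_congr rfl fun x hx => ?_
    rw [Finset.sum_mul, map_sum]
    refine Finset.sum_congr rfl fun y hy => ?_
    rw [Finset.mul_sum, map_sum]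
    refine Finset.sum_congr rfl fun x' hx' => ?_
    rw [Finset.mul_sum, map_sum]
    refine Finset.sum_congr rfl fun y' hy' => ?_
    rw [smul_mul_smul_comm, map_smul, wst_Yl μ B hd hG hij (hf x hx)
      (by rw [Pi.add_apply, hg y hy, hw, add_zero]) (hf x' hx')
      (by rw [Pi.add_apply, hg y' hy', hw, add_zero]) v, smul_eq_mul]
    have g1 : y + w - (y' + w) - v = y - y' - v := by abel
    have g2 : x - (y' + w) - v = x - y' - w - v := by abel
    have g3 : y + w - x' - v = y - x' + w - v := by abel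
    rw [g1, g2, g3]
    ring
  rw [e5]
  simp only [Finset.sum_add_distrib, add_mul, fk_def]
  rw [mul_add]
  congr 1
  · rw [Finset.sum_mul_sum, Finset.mul_sum]
    refine Finset.sum_congr rfl fun x _ => ?_
    rw [Finset.mul_sum]
    refine Finset.sum_congr rfl fun y _ => ?_
    rw [Finset.sum_mul_sum, Finset.mul_sum]
    refine Finset.sum_congr rfl fun x' _ => ?_
    rw [Finset.mul_sum]
    refine Finset.sum_congr rfl fun y' _ => ?_
    ring
  · rw [Finset.sum_mul_sum, Finset.mul_sum]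
    refine Finset.sum_congr rfl fun x _ => ?_
    rw [Finset.mul_sum]
    refine Finset.sum_congr rfl fun y _ => ?_
    rw [Finset.sum_mul_sum, Finset.mul_sum, Finset.sum_comm]
    refine Finset.sum_congr rfl fun y' _ => ?_
    rw [Finset.mul_sum]
    refine Finset.sum_congr rfl fun x' _ => ?_
    ring

end wst

/-! ### the decay of the kernel -/

lemma green_pl (hd : 3 ≤ d) (k : Fin d) (z : Fin d → ℤ) :
    Tendsto (fun s : ℕ => green d (z + Pi.single k (s : ℤ))) atTop (𝓝 0) := by
  have h1 := Y16.YM.green_decay hd k z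
  simp only [← green_eq] at h1
  refine h1.congr fun s => ?_
  rw [add_comm]

lemma nl_pl {h : (Fin d → ℤ) → ℝ} (k : Fin d)
    (hh : ∀ z : Fin d → ℤ, Tendsto (fun s : ℕ => h (z + Pi.single k (s : ℤ))) atTop (𝓝 0))
    (i : Fin d)
    (z : Fin d → ℤ) : Tendsto (fun s : ℕ => nl i h (z + Pi.single k (s : ℤ))) atTop (𝓝 0) := by
  unfold nl
  have h1 := (((hh z).const_mul 2).sub (hh (z + Pi.single i 1))).sub (hh (z - Pi.single i 1))
  rw [mul_zero, sub_zero, sub_zero] at h1
  refine h1.congr fun s => ?_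
  rw [add_right_comm z, add_sub_right_comm z]

lemma pkn_pl (hd : 3 ≤ d) (k i j : Fin d) (z : Fin d → ℤ) :
    Tendsto (fun s : ℕ => pkn i j (z + Pi.single k (s : ℤ))) atTop (𝓝 0) := by
  have h1 := (nl_pl k (green_pl hd k) i z).add (nl_pl k (green_pl hd k) j z)
  rw [add_zero] at h1
  exact h1

lemma pkn_mi (hd : 3 ≤ d) (k i j : Fin d) (z : Fin d → ℤ) :
    Tendsto (fun s : ℕ => pkn i j (z - Pi.single k (s : ℤ))) atTop (𝓝 0) := by
  refine (pkn_pl hd k i j (-z)).congr fun s => ?_
  rw [← pkn_even]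
  congr 1
  abel

section wst

variable [CompactSpace G] [SecondCountableTopology G] [MeasurableSpace G] [BorelSpace G]
  (μ : Measure G) [IsProbabilityMeasure μ] [μ.IsHaarMeasure] (B : LieBasis G n)

include μ B in
/-- the limit of the two point function of two remote packets -/
lemma cP_Zl (hd : 3 ≤ D + 1) (hG : IsClosed (G : Set (UU N))) {i j : Fin (D + 1)} (hij : i ≠ j)
    {f g : FV (D + 1)} (hf : ∀ x ∈ f.support, x (Fin.last D) = 0)
    (hg : ∀ x ∈ g.support, x (Fin.last D) = 0) (k : Fin D) (t : ℤ) (x : Fin D → ℤ) :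
    Tendsto (fun s : ℕ => cP n (Zl i j (Pi.single k.castSucc (s : ℤ)) f g) t x) atTop
      (𝓝 (n * (fk (pkn i j) f (tau (pt x t) f) * fk (pkn i j) g (tau (pt x t) g)))) := by
  unfold cP
  have h1 : ∀ s : ℕ, wst n (D + 1) (bar (Zl i j (Pi.single k.castSucc (s : ℤ)) f g) *
      Psh (pt x t) (Zl i j (Pi.single k.castSucc (s : ℤ)) f g)) =
      n * (fk (pkn i j) f (tau (pt x t) f) * fk (pkn i j) g (tau (pt x t) g) +
        fk (fun z => pkn i j (z - Pi.single k.castSucc (s : ℤ) - pt x t)) f g *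
          fk (fun z => pkn i j (z + Pi.single k.castSucc (s : ℤ) - pt x t)) g f) := fun s =>
    wst_Zl μ B hd hG hij hf hg (by rw [pt_single, pt_last]) _
  simp only [h1]
  have h2 : Tendsto (fun s : ℕ => fk (fun z => pkn i j (z - Pi.single k.castSucc (s : ℤ) -
      pt x t)) f g) atTop (𝓝 (fk (fun _ => 0) f g)) := by
    refine fk_tendsto (fun z => ?_) f g
    refine (pkn_mi hd k.castSucc i j (z - pt x t)).congr fun s => ?_
    rw [sub_right_comm]
  have h3 : Tendsto (fun s : ℕ => fk (fun z => pkn i j (z + Pi.single k.castSucc (s : ℤ) -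
      pt x t)) g f) atTop (𝓝 (fk (fun _ => 0) g f)) := by
    refine fk_tendsto (fun z => ?_) g f
    refine (pkn_pl hd k.castSucc i j (z - pt x t)).congr fun s => ?_
    rw [add_sub_right_comm]
  have h4 := ((h2.mul h3).const_add (fk (pkn i j) f (tau (pt x t) f) *
    fk (pkn i j) g (tau (pt x t) g))).const_mul (n : ℂ)
  rw [fk_kzero, zero_mul, add_zero] at h4
  exact h4

lemma Zl_mem {i j : Fin (D + 1)} (hi : i ≠ Fin.last D) (hj : j ≠ Fin.last D)
    {f g : FV (D + 1)} (hf : ∀ x ∈ f.support, x (Fin.last D) = 0)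
    (hg : ∀ x ∈ g.support, x (Fin.last D) = 0) {w : Fin (D + 1) → ℤ} (hw : w (Fin.last D) = 0) :
    Zl i j w f g ∈ alg0 D :=
  Subalgebra.sum_mem _ fun x hx => Subalgebra.sum_mem _ fun y hy => (alg0 D).smul_mem
    (Yl_mem hi hj (hf x hx) (by rw [Pi.add_apply, hg y hy, hw, add_zero])) _

include μ B in
lemma wst_Zl_zero (hd : 3 ≤ D + 1) (hG : IsClosed (G : Set (UU N))) (i j : Fin (D + 1))
    (w : Fin (D + 1) → ℤ) (f g : FV (D + 1)) : wst n (D + 1) (Zl i j w f g) = 0 := by
  unfold Zl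
  rw [map_sum]
  refine Finset.sum_eq_zero fun x _ => ?_
  rw [map_sum]
  refine Finset.sum_eq_zero fun y _ => ?_
  rw [map_smul, wst_Yl_zero μ B hd hG, smul_zero]

end wst

end

end Pool.Agent.Q235.EM
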