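import Mathlib
import Pool.Agent.Q235.EM.Two

/-!
# The cone
-/

open MeasureTheory Matrix Filter ComplexConjugate
open scoped Matrix.Norms.Frobenius Topology

namespace Pool.Agent.Q235.EM

open Pool.Agent.Results.MP_7f377f_mp.WilsonLoopsWeakCoupling

set_option linter.unusedSectionVars false

noncomputable section

variable {N n d D : ℕ} {G : Subgroup (UU N)}

/-- The points of the spectrum of the limit state: there are polynomials of the loops of the time
slice whose energy-momentum measures are concentrated at the point. -/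
def InS (n : ℕ) (q : ℝ) (z : Fin D → ℂ) : Prop := ∀ ε : ℝ, 0 < ε → ∃ P ∈ alg0 D,
  ‖wst n (D + 1) P‖ < ε ∧ (∀ s : ℕ, s ≤ 2 → ‖cP n P s 0 - q ^ s‖ < ε) ∧
  ∀ l, ‖cP n P 0 (Pi.single l 1) - z l‖ < ε

/-- closedness -/
lemma InS.closed {n : ℕ} {q : ℝ} {z : Fin D → ℂ} (h : ∀ ε : ℝ, 0 < ε → ∃ (q' : ℝ)
    (z' : Fin D → ℂ), InS n q' z' ∧ |q' - q| < ε ∧ |q' ^ 2 - q ^ 2| < ε ∧
      ∀ l, ‖z' l - z l‖ < ε) : InS n q z := by
  intro ε hε
  obtain ⟨q', z', h1, h2, h3, h4⟩ := h (ε / 2) (by positivity)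
  obtain ⟨P, hP, k1, k2, k3⟩ := h1 (ε / 2) (by positivity)
  refine ⟨P, hP, by linarith, fun s hs => ?_, fun l => ?_⟩
  · have e1 : cP n P s 0 - (q : ℂ) ^ s = (cP n P s 0 - (q' : ℂ) ^ s) +
        ((q' ^ s - q ^ s : ℝ) : ℂ) := by push_cast; ring
    rw [e1]
    refine (norm_add_le _ _).trans_lt ?_
    have e2 : |q' ^ s - q ^ s| < ε / 2 := by
      interval_cases s
      · simpa using by positivity
      · simpa using h2
      · exact h3
    rw [Complex.norm_real, Real.norm_eq_abs]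
    linarith [k2 s hs]
  · have e1 : cP n P 0 (Pi.single l 1) - z l = (cP n P 0 (Pi.single l 1) - z' l) +
        (z' l - z l) := by ring
    rw [e1]
    refine (norm_add_le _ _).trans_lt ?_
    linarith [k3 l, h4 l]

lemma mul_close {a b c e : ℂ} {η : ℝ} (hη : η ≤ 1) (hc : ‖c‖ ≤ 1) (he : ‖e‖ ≤ 1)
    (h1 : ‖a - c‖ < η) (h2 : ‖b - e‖ < η) : ‖a * b - c * e‖ < 3 * η := by
  have e1 : a * b - c * e = (a - c) * (b - e) + (a - c) * e + c * (b - e) := by ring
  rw [e1]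
  have h3 := norm_add_le ((a - c) * (b - e) + (a - c) * e) (c * (b - e))
  have h4 := norm_add_le ((a - c) * (b - e)) ((a - c) * e)
  rw [norm_mul] at h3 h4
  rw [norm_mul (a - c) e] at h4
  have k1 := norm_nonneg (a - c)
  have k2 := norm_nonneg (b - e)
  have k3 := norm_nonneg c
  have k4 := norm_nonneg e
  nlinarith

section wst

variable [CompactSpace G] [SecondCountableTopology G] [MeasurableSpace G] [BorelSpace G]
  (μ : Measure G) [IsProbabilityMeasure μ] [μ.IsHaarMeasure] (B : LieBasis G n)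

lemma fin_eventually {X : Type*} {f : Filter X} {m : ℕ} {p : ℕ → X → Prop}
    (h : ∀ s, s ≤ m → ∀ᶠ x in f, p s x) : ∀ᶠ x in f, ∀ s, s ≤ m → p s x := by
  have h1 : ∀ s : Fin (m + 1), ∀ᶠ x in f, p s x := fun s => h s (by omega)
  have h2 := Filter.eventually_all.2 h1
  filter_upwards [h2] with x hx s hs
  exact hx ⟨s, by omega⟩

include μ B in
/-- two gluons -/
lemma InS.two (hD : 2 ≤ D) (hG : IsClosed (G : Set (UU N))) (hn : 0 < n) {i j : Fin D}
    (hij : i ≠ j) {q q' : ℝ} {z z' : Fin D → ℂ} (hz : ∀ l, ‖z l‖ = 1) (hz' : ∀ l, ‖z' l‖ = 1)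
    (hi : z i ≠ 1) (hi' : z' i ≠ 1) (hq : 0 < q) (hq1 : q < 1) (hq' : 0 < q') (hq1' : q' < 1)
    (hs : q + 1 / q = 2 + ∑ l, ml z l) (hs' : q' + 1 / q' = 2 + ∑ l, ml z' l) :
    InS n (q * q') fun l => z l * z' l := by
  have hd : 3 ≤ D + 1 := by omega
  have hij' : i.castSucc ≠ j.castSucc := fun h => hij (Fin.castSucc_injective _ h)
  intro ε hε
  obtain ⟨η, hη, hη1, hηε⟩ : ∃ η : ℝ, 0 < η ∧ η ≤ 1 ∧ 3 * η ≤ ε / 2 :=
    ⟨min 1 (ε / 6), by positivity, min_le_left _ _, by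
      have := min_le_right (1 : ℝ) (ε / 6)
      linarith⟩
  obtain ⟨f, hf, f1, f2⟩ := one hz hD hij hi hq hq1 hs hη
  obtain ⟨g, hg, g1, g2⟩ := one hz' hD hij hi' hq' hq1' hs' hη
  have hnc : (n : ℂ) ≠ 0 := by exact_mod_cast hn.ne'
  have hnr : (0 : ℝ) < n := by exact_mod_cast hn
  obtain ⟨r, hr⟩ : ∃ r : ℝ, r * r * n = 1 := by
    refine ⟨1 / Real.sqrt n, ?_⟩
    rw [div_mul_div_comm, Real.mul_self_sqrt hnr.le, one_mul, one_div, inv_mul_cancel₀ hnr.ne']
  have hrc : (r : ℂ) * r * n = 1 := by exact_mod_cast hr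
  -- convergence
  have hlim : ∀ (t : ℤ) (x : Fin D → ℤ), Tendsto (fun s : ℕ => cP n ((r : ℂ) •
      Zl i.castSucc j.castSucc (Pi.single i.castSucc (s : ℤ)) f g) t x) atTop
      (𝓝 (fk (pkn i.castSucc j.castSucc) f (tau (pt x t) f) *
        fk (pkn i.castSucc j.castSucc) g (tau (pt x t) g))) := by
    intro t x
    have h1 := (cP_Zl μ B hd hG hij' hf hg i t x).const_mul ((r : ℂ) * r)
    rw [← mul_assoc, hrc, one_mul] at h1
    refine h1.congr fun s => ?_
    rw [cP_smul, Complex.conj_ofReal]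
  have hlim1 : ∀ᶠ s : ℕ in atTop, ∀ t : ℕ, t ≤ 2 → ‖cP n ((r : ℂ) •
      Zl i.castSucc j.castSucc (Pi.single i.castSucc (s : ℤ)) f g) t 0 -
      fk (pkn i.castSucc j.castSucc) f (tau (pt 0 t) f) *
        fk (pkn i.castSucc j.castSucc) g (tau (pt 0 t) g)‖ < ε / 2 := by
    refine fin_eventually fun t _ => ?_
    have h1 := (hlim t 0).eventually (Metric.ball_mem_nhds _ (half_pos hε))
    filter_upwards [h1] with s hs
    rwa [dist_eq_norm] at hs
  have hlim2 : ∀ᶠ s : ℕ in atTop, ∀ l : Fin D, ‖cP n ((r : ℂ) •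
      Zl i.castSucc j.castSucc (Pi.single i.castSucc (s : ℤ)) f g) 0 (Pi.single l 1) -
      fk (pkn i.castSucc j.castSucc) f (tau (pt (Pi.single l 1) 0) f) *
        fk (pkn i.castSucc j.castSucc) g (tau (pt (Pi.single l 1) 0) g)‖ < ε / 2 := by
    refine Filter.eventually_all.2 fun l => ?_
    have h1 := (hlim 0 (Pi.single l 1)).eventually (Metric.ball_mem_nhds _ (half_pos hε))
    filter_upwards [h1] with s hs
    rwa [dist_eq_norm] at hs
  obtain ⟨s, hs1, hs2⟩ := (hlim1.and hlim2).exists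
  refine ⟨(r : ℂ) • Zl i.castSucc j.castSucc (Pi.single i.castSucc (s : ℤ)) f g,
    (alg0 D).smul_mem (Zl_mem (Fin.castSucc_lt_last i).ne (Fin.castSucc_lt_last j).ne hf hg
      (by rw [pt_single, pt_last])) _, ?_, fun t ht => ?_, fun l => ?_⟩
  · rw [map_smul, wst_Zl_zero μ B hd hG, smul_zero, norm_zero]
    exact hε
  · have h1 := hs1 t ht
    have h2 := mul_close hη1 (c := (q : ℂ) ^ t) (e := (q' : ℂ) ^ t) (by
      rw [norm_pow, Complex.norm_real, Real.norm_of_nonneg hq.le]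
      exact pow_le_one₀ hq.le hq1.le) (by
      rw [norm_pow, Complex.norm_real, Real.norm_of_nonneg hq'.le]
      exact pow_le_one₀ hq'.le hq1'.le) (f1 t ht) (g1 t ht)
    have h3 : ((q * q' : ℝ) : ℂ) ^ t = (q : ℂ) ^ t * (q' : ℂ) ^ t := by
      push_cast
      rw [mul_pow]
    rw [h3]
    refine (norm_sub_le_norm_sub_add_norm_sub _ (fk (pkn i.castSucc j.castSucc) f
      (tau (pt 0 t) f) * fk (pkn i.castSucc j.castSucc) g (tau (pt 0 t) g)) _).trans_lt ?_
    linarith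
  · have h1 := hs2 l
    have h2 := mul_close hη1 (hz l).le (hz' l).le (f2 l) (g2 l)
    refine (norm_sub_le_norm_sub_add_norm_sub _ (fk (pkn i.castSucc j.castSucc) f
      (tau (pt (Pi.single l 1) 0) f) * fk (pkn i.castSucc j.castSucc) g
        (tau (pt (Pi.single l 1) 0) g)) _).trans_lt ?_
    linarith

include μ B in
/-- products -/
lemma InS.mul (hD : 2 ≤ D) (hG : IsClosed (G : Set (UU N))) {q q' : ℝ} {z z' : Fin D → ℂ}
    (h : InS n q z) (h' : InS n q' z') (hz : ∀ l, ‖z l‖ = 1) (hz' : ∀ l, ‖z' l‖ = 1)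
    (hq : 0 ≤ q) (hq1 : q ≤ 1) (hq' : 0 ≤ q') (hq1' : q' ≤ 1) :
    InS n (q * q') fun l => z l * z' l := by
  have hd : 3 ≤ D + 1 := by omega
  intro ε hε
  obtain ⟨η, hη, hη1, hηε⟩ : ∃ η : ℝ, 0 < η ∧ η ≤ 1 ∧ 3 * η ≤ ε / 2 :=
    ⟨min 1 (ε / 6), by positivity, min_le_left _ _, by
      have := min_le_right (1 : ℝ) (ε / 6)
      linarith⟩
  obtain ⟨P, hP, p0, p1, p2⟩ := h η hη
  obtain ⟨P', hP', p0', p1', p2'⟩ := h' η hη
  obtain ⟨k, hk⟩ : ∃ k : Fin D, True := ⟨⟨0, by omega⟩, trivial⟩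
  have hlim : ∀ (t : ℤ) (x : Fin D → ℤ), Tendsto (fun s : ℕ => cP n (P *
      Psh (Pi.single k.castSucc (s : ℤ)) P') t x) atTop (𝓝 (cP n P t x * cP n P' t x)) := by
    intro t x
    refine (wst_cluster μ B hd hG k.castSucc (bar P * Psh (pt x t) P)
      (bar P' * Psh (pt x t) P')).congr fun s => ?_
    unfold cP
    have e : bar P * Psh (pt x t) P * Psh (Pi.single k.castSucc (s : ℤ))
        (bar P' * Psh (pt x t) P') = bar (P * Psh (Pi.single k.castSucc (s : ℤ)) P') *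
        Psh (pt x t) (P * Psh (Pi.single k.castSucc (s : ℤ)) P') := by
      rw [map_mul, map_mul, map_mul, bar_Psh, Psh_Psh, Psh_Psh, add_comm (pt x t)]
      ring
    rw [e]
  have hlim0 : Tendsto (fun s : ℕ => wst n (D + 1) (P *
      Psh (Pi.single k.castSucc (s : ℤ)) P')) atTop (𝓝 (wst n (D + 1) P * wst n (D + 1) P')) :=
    wst_cluster μ B hd hG k.castSucc P P'
  have hlim1 : ∀ᶠ s : ℕ in atTop, ∀ t : ℕ, t ≤ 2 → ‖cP n (P *
      Psh (Pi.single k.castSucc (s : ℤ)) P') t 0 - cP n P t 0 * cP n P' t 0‖ < ε / 2 := by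
    refine fin_eventually fun t _ => ?_
    have h1 := (hlim t 0).eventually (Metric.ball_mem_nhds _ (half_pos hε))
    filter_upwards [h1] with s hs
    rwa [dist_eq_norm] at hs
  have hlim2 : ∀ᶠ s : ℕ in atTop, ∀ l : Fin D, ‖cP n (P *
      Psh (Pi.single k.castSucc (s : ℤ)) P') 0 (Pi.single l 1) -
        cP n P 0 (Pi.single l 1) * cP n P' 0 (Pi.single l 1)‖ < ε / 2 := by
    refine Filter.eventually_all.2 fun l => ?_
    have h1 := (hlim 0 (Pi.single l 1)).eventually (Metric.ball_mem_nhds _ (half_pos hε))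
    filter_upwards [h1] with s hs
    rwa [dist_eq_norm] at hs
  have hlim3 : ∀ᶠ s : ℕ in atTop, ‖wst n (D + 1) (P *
      Psh (Pi.single k.castSucc (s : ℤ)) P') - wst n (D + 1) P * wst n (D + 1) P'‖ < ε / 2 := by
    filter_upwards [hlim0.eventually (Metric.ball_mem_nhds _ (half_pos hε))] with s hs
    rwa [dist_eq_norm] at hs
  obtain ⟨s, ⟨hs1, hs2⟩, hs3⟩ := ((hlim1.and hlim2).and hlim3).exists
  refine ⟨P * Psh (Pi.single k.castSucc (s : ℤ)) P', (alg0 D).mul_mem hP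
    (Psh_mem (by rw [pt_single, pt_last]) hP'), ?_, fun t ht => ?_, fun l => ?_⟩
  · have h1 : ‖wst n (D + 1) P * wst n (D + 1) P'‖ ≤ η * η := by
      rw [norm_mul]
      exact mul_le_mul p0.le p0'.le (norm_nonneg _) hη.le
    have h2 := norm_sub_norm_le (wst n (D + 1) (P * Psh (Pi.single k.castSucc (s : ℤ)) P'))
      (wst n (D + 1) P * wst n (D + 1) P')
    nlinarith
  · have h1 := hs1 t ht
    have h2 := mul_close hη1 (c := (q : ℂ) ^ t) (e := (q' : ℂ) ^ t) (by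
      rw [norm_pow, Complex.norm_real, Real.norm_of_nonneg hq]
      exact pow_le_one₀ hq hq1) (by
      rw [norm_pow, Complex.norm_real, Real.norm_of_nonneg hq']
      exact pow_le_one₀ hq' hq1') (p1 t ht) (p1' t ht)
    have h3 : ((q * q' : ℝ) : ℂ) ^ t = (q : ℂ) ^ t * (q' : ℂ) ^ t := by
      push_cast
      rw [mul_pow]
    rw [h3]
    refine (norm_sub_le_norm_sub_add_norm_sub _ (cP n P t 0 * cP n P' t 0) _).trans_lt ?_
    linarith
  · have h1 := hs2 l
    have h2 := mul_close hη1 (hz l).le (hz' l).le (p2 l) (p2' l)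
    refine (norm_sub_le_norm_sub_add_norm_sub _ (cP n P 0 (Pi.single l 1) *
      cP n P' 0 (Pi.single l 1)) _).trans_lt ?_
    linarith

end wst

end

end Pool.Agent.Q235.EM
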