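import Mathlib
import Pool.Agent.Q235.EM.Cone

/-!
# The cone
-/

open MeasureTheory Matrix Filter ComplexConjugate
open scoped Matrix.Norms.Frobenius Topology

namespace Pool.Agent.Q235.EM

open Pool.Agent.Results.MP_7f377f_mp.WilsonLoopsWeakCoupling

set_option linter.unusedSectionVars false

noncomputable section

variable {N n d D : ℕ} {G : Subgroup (UU N)}

lemma InS.lim {q : ℝ} {z : Fin D → ℂ} (Q : ℕ → ℝ) (Z : ℕ → Fin D → ℂ)
    (hQ : Tendsto Q atTop (𝓝 q)) (hZ : ∀ l, Tendsto (fun m => Z m l) atTop (𝓝 (z l)))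
    (h : ∀ m, InS n (Q m) (Z m)) : InS n q z := by
  refine InS.closed fun ε hε => ?_
  have h1 : ∀ᶠ m in atTop, |Q m - q| < ε := by
    filter_upwards [hQ.eventually (Metric.ball_mem_nhds _ hε)] with m hm
    rwa [Real.dist_eq] at hm
  have h2 : ∀ᶠ m in atTop, |Q m ^ 2 - q ^ 2| < ε := by
    filter_upwards [(hQ.pow 2).eventually (Metric.ball_mem_nhds _ hε)] with m hm
    rwa [Real.dist_eq] at hm
  have h3 : ∀ᶠ m in atTop, ∀ l, ‖Z m l - z l‖ < ε := by
    refine Filter.eventually_all.2 fun l => ?_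
    filter_upwards [(hZ l).eventually (Metric.ball_mem_nhds _ hε)] with m hm
    rwa [dist_eq_norm] at hm
  obtain ⟨m, ⟨k1, k2⟩, k3⟩ := ((h1.and h2).and h3).exists
  exact ⟨Q m, Z m, h m, k1, k2, k3⟩

/-- the transfer matrix eigenvalue on the mass shell -/
def shl (s : ℝ) : ℝ := (2 + s - Real.sqrt (s ^ 2 + 4 * s)) / 2

lemma shl_cont : Continuous shl := by
  unfold shl
  fun_prop

lemma shl_zero : shl 0 = 1 := by
  unfold shl
  norm_num

lemma shl_inv {s : ℝ} (hs : 0 ≤ s) : shl s * ((2 + s + Real.sqrt (s ^ 2 + 4 * s)) / 2) = 1 := by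
  unfold shl
  have h := Real.mul_self_sqrt (show 0 ≤ s ^ 2 + 4 * s by positivity)
  nlinarith

lemma shl_pos {s : ℝ} (hs : 0 ≤ s) : 0 < shl s := by
  have h := shl_inv hs
  have h1 : 0 < (2 + s + Real.sqrt (s ^ 2 + 4 * s)) / 2 := by positivity
  by_contra h2
  have h3 : shl s ≤ 0 := not_lt.1 h2
  nlinarith [mul_nonneg_of_nonpos_of_nonpos h3 (neg_nonpos.2 h1.le)]

lemma shl_eq {s : ℝ} (hs : 0 ≤ s) : shl s + 1 / shl s = 2 + s := by
  have h1 : 1 / shl s = (2 + s + Real.sqrt (s ^ 2 + 4 * s)) / 2 := by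
    rw [div_eq_iff (shl_pos hs).ne', mul_comm]
    exact (shl_inv hs).symm
  rw [h1]
  unfold shl
  ring

lemma shl_le {s : ℝ} (hs : 0 ≤ s) : shl s ≤ 1 := by
  have h1 := shl_inv hs
  have h2 := shl_pos hs
  have h3 : 1 ≤ (2 + s + Real.sqrt (s ^ 2 + 4 * s)) / 2 := by
    have := Real.sqrt_nonneg (s ^ 2 + 4 * s)
    linarith
  nlinarith

lemma shl_lt {s : ℝ} (hs : 0 < s) : shl s < 1 := by
  have h1 := shl_inv hs.le
  have h2 := shl_pos hs.le
  have h3 : 1 < (2 + s + Real.sqrt (s ^ 2 + 4 * s)) / 2 := by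
    have := Real.sqrt_nonneg (s ^ 2 + 4 * s)
    linarith
  nlinarith

lemma shl_mono {q s : ℝ} (hs : 0 ≤ s) (hq : 0 < q) (hq1 : q ≤ 1) (h : 2 + s ≤ q + 1 / q) :
    q ≤ shl s := by
  by_contra hlt
  have hlt' : shl s < q := not_le.1 hlt
  have h1 := shl_eq hs
  have h2 := shl_pos hs
  have h3 : q + 1 / q - (shl s + 1 / shl s) = (q - shl s) * (1 - 1 / (q * shl s)) := by
    field_simp
    ring
  have h4 : 1 < 1 / (q * shl s) := by
    rw [lt_div_iff₀ (by positivity), one_mul]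
    nlinarith
  have h5 : (q - shl s) * (1 - 1 / (q * shl s)) < 0 :=
    mul_neg_of_pos_of_neg (by linarith) (by linarith)
  linarith

lemma shl_uniq {q s : ℝ} (hs : 0 ≤ s) (hq : 0 < q) (hq1 : q ≤ 1) (h : q + 1 / q = 2 + s) :
    q = shl s := by
  refine le_antisymm (shl_mono hs hq hq1 h.ge) ?_
  by_contra hlt
  have hlt' : q < shl s := not_le.1 hlt
  have h1 := shl_eq hs
  have h2 := shl_pos hs
  have h2' := shl_le hs
  have h3 : q + 1 / q - (shl s + 1 / shl s) = (q - shl s) * (1 - 1 / (q * shl s)) := by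
    field_simp
    ring
  have h4 : 1 < 1 / (q * shl s) := by
    rw [lt_div_iff₀ (by positivity), one_mul]
    nlinarith
  have h5 : 0 < (q - shl s) * (1 - 1 / (q * shl s)) :=
    mul_pos_of_neg_of_neg (by linarith) (by linarith)
  linarith

/-- the eigenvalue of the Laplacian of the space -/
def lam (z : Fin D → ℂ) : ℝ := ∑ l, ml z l

lemma lam_nonneg (z : Fin D → ℂ) : 0 ≤ lam z := Finset.sum_nonneg fun l _ => by
  unfold ml; positivity

lemma lam_pos {z : Fin D → ℂ} {i : Fin D} (hi : z i ≠ 1) : 0 < lam z := by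
  have h1 : ml z i ≤ lam z := Finset.single_le_sum (f := fun l => ml z l) (fun l _ => by
    unfold ml; positivity) (Finset.mem_univ i)
  have h2 : 0 < ml z i := by
    unfold ml
    have : 0 < ‖1 - z i‖ := norm_pos_iff.2 (sub_ne_zero.2 hi.symm)
    positivity
  linarith

lemma lam_tendsto {Z : ℕ → Fin D → ℂ} {z : Fin D → ℂ}
    (hZ : ∀ l, Tendsto (fun m => Z m l) atTop (𝓝 (z l))) :
    Tendsto (fun m => lam (Z m)) atTop (𝓝 (lam z)) := by
  unfold lam ml
  exact tendsto_finsetSum _ fun l _ => (((hZ l).const_sub 1).norm).pow 2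

/-- the soft momenta -/
def sft (m : ℕ) : ℂ := Complex.exp (((1 / (m + 1 : ℝ) : ℝ) : ℂ) * Complex.I)

lemma sft_norm (m : ℕ) : ‖sft m‖ = 1 := by
  unfold sft
  exact Complex.norm_exp_ofReal_mul_I _

lemma sft_ne (m : ℕ) : sft m ≠ 1 := by
  intro h
  have h1 := congrArg Complex.re h
  unfold sft at h1
  rw [Complex.exp_ofReal_mul_I_re, Complex.one_re] at h1
  have h2 : (0 : ℝ) < 1 / (m + 1 : ℝ) := by positivity
  have h3 : 1 / (m + 1 : ℝ) ≤ 1 := by
    rw [div_le_one (by positivity)]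
    linarith [(Nat.cast_nonneg m : (0 : ℝ) ≤ m)]
  have h4 := (Real.cos_eq_one_iff_of_lt_of_lt (x := 1 / (m + 1 : ℝ)) (by
    linarith [Real.pi_pos]) (by linarith [Real.pi_gt_three])).1 h1
  linarith

lemma sft_tendsto : Tendsto sft atTop (𝓝 1) := by
  have h1 : Tendsto (fun m : ℕ => (((1 / (m + 1 : ℝ) : ℝ) : ℂ) * Complex.I)) atTop
      (𝓝 (((0 : ℝ) : ℂ) * Complex.I)) :=
    ((Complex.continuous_ofReal.tendsto _).comp tendsto_one_div_add_atTop_nhds_zero_nat).mul_const _
  have h2 := (Complex.continuous_exp.tendsto _).comp h1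
  rw [Complex.ofReal_zero, zero_mul, Complex.exp_zero] at h2
  exact h2

section wst

variable [CompactSpace G] [SecondCountableTopology G] [MeasurableSpace G] [BorelSpace G]
  (μ : Measure G) [IsProbabilityMeasure μ] [μ.IsHaarMeasure] (B : LieBasis G n)

include μ B in
lemma InS.shell' (hD : 2 ≤ D) (hG : IsClosed (G : Set (UU N))) (hn : 0 < n) {i j : Fin D}
    (hij : i ≠ j) {z : Fin D → ℂ} (hz : ∀ l, ‖z l‖ = 1) (hi : z i ≠ 1) :
    InS n (shl (lam z)) z := by
  have hZ : ∀ l, Tendsto (fun m => (Function.update (fun _ => (1 : ℂ)) i (sft m) :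
      Fin D → ℂ) l) atTop (𝓝 1) := by
    intro l
    by_cases h : l = i
    · subst h
      simp only [Function.update_self]
      exact sft_tendsto
    · simp only [Function.update_of_ne h]
      exact tendsto_const_nhds
  have hl1 : lam (fun _ => (1 : ℂ) : Fin D → ℂ) = 0 := by
    unfold lam ml
    simp
  refine InS.lim (fun m => shl (lam z) * shl (lam (Function.update (fun _ => (1 : ℂ)) i (sft m) :
    Fin D → ℂ))) (fun m l => z l * (Function.update (fun _ => (1 : ℂ)) i (sft m) :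
    Fin D → ℂ) l) ?_ (fun l => ?_) fun m => ?_
  · have h1 := ((shl_cont.tendsto _).comp (lam_tendsto (z := fun _ => 1) hZ)).const_mul
      (shl (lam z))
    rw [hl1, shl_zero, mul_one] at h1
    exact h1
  · have h1 := (hZ l).const_mul (z l)
    rwa [mul_one] at h1
  · have hzm : ∀ l, ‖(Function.update (fun _ => (1 : ℂ)) i (sft m) : Fin D → ℂ) l‖ = 1 := by
      intro l
      by_cases h : l = i
      · subst h
        rw [Function.update_self, sft_norm]
      · rw [Function.update_of_ne h, norm_one]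
    have hzi : (Function.update (fun _ => (1 : ℂ)) i (sft m) : Fin D → ℂ) i ≠ 1 := by
      rw [Function.update_self]
      exact sft_ne m
    exact InS.two μ B hD hG hn hij hz hzm hi hzi (shl_pos (lam_nonneg _)) (shl_lt (lam_pos hi))
      (shl_pos (lam_nonneg _)) (shl_lt (lam_pos hzi)) (shl_eq (lam_nonneg _))
      (shl_eq (lam_nonneg _))

include μ B in
/-- the mass shell -/
lemma InS.shell (hD : 2 ≤ D) (hG : IsClosed (G : Set (UU N))) (hn : 0 < n) {z : Fin D → ℂ}
    (hz : ∀ l, ‖z l‖ = 1) : InS n (shl (lam z)) z := by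
  obtain ⟨i, j, hij⟩ : ∃ i j : Fin D, i ≠ j := ⟨⟨0, by omega⟩, ⟨1, by omega⟩, by simp⟩
  by_cases hi : z i = 1
  · have hZ : ∀ l, Tendsto (fun m => (Function.update z i (sft m) : Fin D → ℂ) l) atTop
        (𝓝 (z l)) := by
      intro l
      by_cases h : l = i
      · subst h
        simp only [Function.update_self]
        rw [hi]
        exact sft_tendsto
      · simp only [Function.update_of_ne h]
        exact tendsto_const_nhds
    refine InS.lim (fun m => shl (lam (Function.update z i (sft m))))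
      (fun m => Function.update z i (sft m)) ((shl_cont.tendsto _).comp (lam_tendsto hZ)) hZ
      fun m => ?_
    refine InS.shell' μ B hD hG hn hij (fun l => ?_) ?_
    · by_cases h : l = i
      · subst h
        rw [Function.update_self, sft_norm]
      · rw [Function.update_of_ne h, hz]
    · rw [Function.update_self]
      exact sft_ne m
  · exact InS.shell' μ B hD hG hn hij hz hi

include μ B in
lemma InS.pow (hD : 2 ≤ D) (hG : IsClosed (G : Set (UU N))) {q : ℝ} (hq : 0 ≤ q) (hq1 : q ≤ 1)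
    (h : InS n q (fun _ => (1 : ℂ) : Fin D → ℂ)) (m : ℕ) :
    InS n (q ^ (m + 1)) (fun _ => (1 : ℂ) : Fin D → ℂ) := by
  induction m with
  | zero => rwa [zero_add, pow_one]
  | succ m ih =>
    have h1 := InS.mul μ B hD hG ih h (fun _ => norm_one) (fun _ => norm_one)
      (pow_nonneg hq _) (pow_le_one₀ hq hq1) hq hq1
    rw [pow_succ]
    simpa only [mul_one] using h1

include μ B in
/-- the states of zero momentum -/
lemma InS.zero (hD : 2 ≤ D) (hG : IsClosed (G : Set (UU N))) (hn : 0 < n) {r : ℝ} (hr : 0 < r)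
    (hr1 : r ≤ 1) : InS n r (fun _ => (1 : ℂ) : Fin D → ℂ) := by
  obtain ⟨i, hi⟩ : ∃ i : Fin D, True := ⟨⟨0, by omega⟩, trivial⟩
  -- the root
  have h1 : Tendsto (fun m : ℕ => Real.exp (Real.log r / 2 * (1 / (m + 1 : ℝ)))) atTop
      (𝓝 (Real.exp (Real.log r / 2 * 0))) :=
    (Real.continuous_exp.tendsto _).comp (tendsto_one_div_add_atTop_nhds_zero_nat.const_mul _)
  rw [mul_zero, Real.exp_zero] at h1
  have h2 : Tendsto (fun m : ℕ => Real.exp (Real.log r / 2 * (1 / (m + 1 : ℝ))) +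
      1 / Real.exp (Real.log r / 2 * (1 / (m + 1 : ℝ)))) atTop (𝓝 (1 + 1 / 1)) :=
    h1.add (tendsto_const_nhds.div h1 one_ne_zero)
  obtain ⟨m, hm⟩ := (h2.eventually (gt_mem_nhds (show (1 + 1 / 1 : ℝ) < 6 by norm_num))).exists
  obtain ⟨ρ, hρ⟩ : ∃ ρ, ρ = Real.exp (Real.log r / 2 * (1 / (m + 1 : ℝ))) := ⟨_, rfl⟩
  rw [← hρ] at hm
  have hρ0 : 0 < ρ := by rw [hρ]; exact Real.exp_pos _
  have hρ1 : ρ ≤ 1 := by
    rw [hρ, Real.exp_le_one_iff]
    have : Real.log r ≤ 0 := Real.log_nonpos hr.le hr1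
    have h3 : (0 : ℝ) < 1 / (m + 1 : ℝ) := by positivity
    nlinarith
  have hρr : (ρ * ρ) ^ (m + 1) = r := by
    rw [hρ, ← Real.exp_add, ← Real.exp_nat_mul]
    have : ((m + 1 : ℕ) : ℝ) * (Real.log r / 2 * (1 / (m + 1 : ℝ)) +
        Real.log r / 2 * (1 / (m + 1 : ℝ))) = Real.log r := by
      push_cast
      field_simp
      ring
    rw [this, Real.exp_log hr]
  -- the momentum
  have h3 : 2 ≤ ρ + 1 / ρ := by
    have : ρ + 1 / ρ - 2 = (1 - ρ) ^ 2 / ρ := by
      field_simp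
      ring
    have h4 : 0 ≤ (1 - ρ) ^ 2 / ρ := by positivity
    linarith
  obtain ⟨κ, hκ⟩ : ∃ κ : ℝ, Real.cos κ = 2 - (ρ + 1 / ρ) / 2 :=
    ⟨Real.arccos (2 - (ρ + 1 / ρ) / 2), Real.cos_arccos (by linarith) (by linarith)⟩
  obtain ⟨w, hw⟩ : ∃ w : ℂ, w = Complex.exp (κ * Complex.I) := ⟨_, rfl⟩
  have hwn : ‖w‖ = 1 := by rw [hw]; exact Complex.norm_exp_ofReal_mul_I _
  have hwr : w.re = Real.cos κ := by rw [hw]; exact Complex.exp_ofReal_mul_I_re _
  have hns : ∀ u : ℂ, ‖u‖ = 1 → ‖1 - u‖ ^ 2 = 2 - 2 * u.re := by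
    intro u hu
    have h5 : u.re * u.re + u.im * u.im = 1 := by
      rw [← Complex.normSq_apply, Complex.normSq_eq_norm_sq, hu]; norm_num
    rw [← Complex.normSq_eq_norm_sq, Complex.normSq_apply]
    simp only [Complex.sub_re, Complex.sub_im, Complex.one_re, Complex.one_im]
    nlinarith
  have hlam : ∀ u : ℂ, ‖u‖ = 1 → u.re = Real.cos κ →
      shl (lam (Function.update (fun _ => (1 : ℂ)) i u : Fin D → ℂ)) = ρ := by
    intro u hu hu'
    have h5 : lam (Function.update (fun _ => (1 : ℂ)) i u : Fin D → ℂ) = ρ + 1 / ρ - 2 := by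
      unfold lam ml
      rw [Finset.sum_eq_single i]
      · rw [Function.update_self, hns u hu, hu', hκ]
        ring
      · intro l _ hl
        rw [Function.update_of_ne hl, sub_self, norm_zero]
        norm_num
      · intro h; exact absurd (Finset.mem_univ i) h
    refine (shl_uniq (lam_nonneg _) hρ0 hρ1 ?_).symm
    rw [h5]
    ring
  have hun : ∀ u : ℂ, ‖u‖ = 1 → ∀ l,
      ‖(Function.update (fun _ => (1 : ℂ)) i u : Fin D → ℂ) l‖ = 1 := by
    intro u hu l
    by_cases h : l = i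
    · subst h
      rw [Function.update_self, hu]
    · rw [Function.update_of_ne h, norm_one]
  have hwc : ‖conj w‖ = 1 := by rw [RCLike.norm_conj, hwn]
  have k1 := InS.shell μ B hD hG hn (hun w hwn)
  have k2 := InS.shell μ B hD hG hn (hun (conj w) hwc)
  rw [hlam w hwn hwr] at k1
  rw [hlam (conj w) hwc (by rw [Complex.conj_re, hwr])] at k2
  have k3 := InS.mul μ B hD hG k1 k2 (hun w hwn) (hun _ hwc) hρ0.le hρ1 hρ0.le hρ1
  have k4 : (fun l => (Function.update (fun _ => (1 : ℂ)) i w : Fin D → ℂ) l *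
      (Function.update (fun _ => (1 : ℂ)) i (conj w) : Fin D → ℂ) l) = fun _ => (1 : ℂ) := by
    funext l
    by_cases h : l = i
    · subst h
      rw [Function.update_self, Function.update_self, mul_comm, ← Complex.normSq_eq_conj_mul_self,
        Complex.normSq_eq_norm_sq, hwn]
      norm_num
    · rw [Function.update_of_ne h, Function.update_of_ne h, mul_one]
  rw [k4] at k3
  have k5 := InS.pow μ B hD hG (by positivity) (mul_le_one₀ hρ1 hρ0.le hρ1) k3 m
  rwa [hρr] at k5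

include μ B in
/-- the cone -/
theorem InS.cone (hD : 2 ≤ D) (hG : IsClosed (G : Set (UU N))) (hn : 0 < n) {z : Fin D → ℂ}
    (hz : ∀ l, ‖z l‖ = 1) {q : ℝ} (hq : 0 < q) (hq1 : q ≤ 1) (h : 2 + lam z ≤ q + 1 / q) :
    InS n q z := by
  have h1 := shl_mono (lam_nonneg z) hq hq1 h
  have h2 := shl_pos (lam_nonneg z)
  have h3 := InS.shell μ B hD hG hn hz
  have h4 : q / shl (lam z) ≤ 1 := (div_le_one h2).2 h1
  have h5 := InS.zero μ B hD hG hn (D := D) (div_pos hq h2) h4
  have h6 := InS.mul μ B hD hG h3 h5 hz (fun _ => norm_one) h2.le (shl_le (lam_nonneg z))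
    (div_pos hq h2).le h4
  rw [mul_div_cancel₀ _ h2.ne'] at h6
  simpa only [mul_one] using h6

end wst

end

end Pool.Agent.Q235.EM
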