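import Mathlib
import Pool.Agent.Q235.EM.Cone2

/-!
# Concentration of the energy-momentum measures
-/

open MeasureTheory Matrix Filter ComplexConjugate
open scoped Matrix.Norms.Frobenius Topology

namespace Pool.Agent.Q235.EM

open Pool.Agent.Results.MP_7f377f_mp.WilsonLoopsWeakCoupling

set_option linter.unusedSectionVars false

noncomputable section

variable {N n d D : ℕ} {G : Subgroup (UU N)}

/-! ### the second moment -/

lemma mon_time (t : ℕ) (p : Sp D) : mon t 0 p = (p.1 : ℂ) ^ t := by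
  unfold mon
  simp

lemma mon_space (l : Fin D) (p : Sp D) : mon 0 (Pi.single l 1) p = p.2 l := by
  unfold mon
  rw [pow_zero, one_mul, Finset.prod_eq_single l]
  · simp
  · intro j _ hj
    rw [Pi.single_eq_of_ne hj, zpow_zero]
  · intro h; exact absurd (Finset.mem_univ _) h

/-- the square of the distance -/
def dsq (q : ℝ) (z : Fin D → ℂ) (p : Sp D) : ℝ := (p.1 - q) ^ 2 + ∑ l, ‖p.2 l - z l‖ ^ 2

lemma dsq_cont (q : ℝ) (z : Fin D → ℂ) : Continuous (dsq q z) := by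
  unfold dsq
  fun_prop

/-- the second moment in terms of the two point function -/
def var2 (φ : ℕ → (Fin D → ℤ) → ℂ) (q : ℝ) (z : Fin D → ℂ) : ℝ :=
  (φ 2 0 - 2 * q * φ 1 0 + q ^ 2 * φ 0 0).re +
    ∑ l, (2 * φ 0 0 - 2 * (conj (z l) * φ 0 (Pi.single l 1))).re

lemma ae_int {ρ : Measure (Sp D)} [IsFiniteMeasure ρ] {f : Sp D → ℂ} (hf : Continuous f) {C : ℝ}
    (hC : ∀ᵐ p ∂ρ, ‖f p‖ ≤ C) : Integrable f ρ :=
  Integrable.of_bound hf.aestronglyMeasurable C hC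

lemma var2_eq {ρ : Measure (Sp D)} [IsFiniteMeasure ρ]
    (hρ : ∀ᵐ p ∂ρ, 0 ≤ p.1 ∧ p.1 ≤ 1 ∧ ∀ j, ‖p.2 j‖ = 1) {φ : ℕ → (Fin D → ℤ) → ℂ}
    (hφ : ∀ (t : ℕ) (x : Fin D → ℤ), φ t x = ∫ p, mon t x p ∂ρ) (q : ℝ) {z : Fin D → ℂ}
    (hz : ∀ l, ‖z l‖ = 1) : ∫ p, dsq q z p ∂ρ = var2 φ q z ∧ Integrable (dsq q z) ρ := by
  have i1 : ∀ t : ℕ, Integrable (fun p : Sp D => (p.1 : ℂ) ^ t) ρ := by
    intro t
    refine ae_int (by fun_prop) (C := 1) ?_
    filter_upwards [hρ] with p hp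
    rw [norm_pow, Complex.norm_real, Real.norm_of_nonneg hp.1]
    exact pow_le_one₀ hp.1 hp.2.1
  have i2 : ∀ l : Fin D, Integrable (fun p : Sp D => p.2 l) ρ := by
    intro l
    refine ae_int (by fun_prop) (C := 1) ?_
    filter_upwards [hρ] with p hp
    rw [hp.2.2 l]
  have e1 : ∀ t : ℕ, φ t 0 = ∫ p : Sp D, (p.1 : ℂ) ^ t ∂ρ := by
    intro t
    rw [hφ]
    simp only [mon_time]
  have e2 : ∀ l : Fin D, φ 0 (Pi.single l 1) = ∫ p : Sp D, p.2 l ∂ρ := by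
    intro l
    rw [hφ]
    simp only [mon_space]
  obtain ⟨g, hg⟩ : ∃ g : Sp D → ℂ, g = fun p => ((p.1 : ℂ) ^ 2 - 2 * q * (p.1 : ℂ) ^ 1 +
    q ^ 2 * (p.1 : ℂ) ^ 0) + ∑ l, (2 * (p.1 : ℂ) ^ 0 - 2 * (conj (z l) * p.2 l)) := ⟨_, rfl⟩
  have hgi : Integrable g ρ := by
    rw [hg]
    exact ((((i1 2).sub ((i1 1).const_mul _)).add ((i1 0).const_mul _))).add
      (integrable_finsetSum _ fun l _ => ((i1 0).const_mul 2).sub
        (((i2 l).const_mul _).const_mul 2))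
  have hae : ∀ᵐ p ∂ρ, dsq q z p = (g p).re := by
    filter_upwards [hρ] with p hp
    rw [hg]
    unfold dsq
    simp only [Complex.add_re, Complex.re_sum]
    congr 1
    · rw [← Complex.ofReal_pow, ← Complex.ofReal_pow, ← Complex.ofReal_pow, ← Complex.ofReal_pow]
      have : ((2 : ℂ) * (q : ℂ) * ((p.1 ^ 1 : ℝ) : ℂ)) = ((2 * q * p.1 ^ 1 : ℝ) : ℂ) := by
        push_cast; ring
      rw [this, ← Complex.ofReal_sub, Complex.ofReal_re, ← Complex.ofReal_mul, Complex.ofReal_re]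
      ring
    · refine Finset.sum_congr rfl fun l _ => ?_
      rw [← Complex.normSq_eq_norm_sq, Complex.normSq_sub, Complex.normSq_eq_norm_sq,
        Complex.normSq_eq_norm_sq, hz, hp.2.2 l, pow_zero, mul_one]
      simp
      ring
  refine ⟨?_, ?_⟩
  · rw [integral_congr_ae hae]
    have h1 : ∫ p, (g p).re ∂ρ = (∫ p, g p ∂ρ).re := integral_re hgi
    have j6 : Integrable (fun p : Sp D => 2 * (q : ℂ) * (p.1 : ℂ) ^ 1) ρ := (i1 1).const_mul _
    have j1 : Integrable (fun p : Sp D => (p.1 : ℂ) ^ 2 - 2 * (q : ℂ) * (p.1 : ℂ) ^ 1) ρ :=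
      (i1 2).sub j6
    have j2 : Integrable (fun p : Sp D => (q : ℂ) ^ 2 * (p.1 : ℂ) ^ 0) ρ := (i1 0).const_mul _
    have j3 : Integrable (fun p : Sp D => (p.1 : ℂ) ^ 2 - 2 * (q : ℂ) * (p.1 : ℂ) ^ 1 +
      (q : ℂ) ^ 2 * (p.1 : ℂ) ^ 0) ρ := j1.add j2
    have j7 : Integrable (fun p : Sp D => 2 * (p.1 : ℂ) ^ 0) ρ := (i1 0).const_mul 2
    have j8 : ∀ l, Integrable (fun p : Sp D => 2 * (conj (z l) * p.2 l)) ρ := fun l =>
      ((i2 l).const_mul _).const_mul 2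
    have j4 : ∀ l, Integrable (fun p : Sp D => 2 * (p.1 : ℂ) ^ 0 - 2 * (conj (z l) * p.2 l)) ρ :=
      fun l => j7.sub (j8 l)
    have j5 : Integrable (fun p : Sp D => ∑ l, (2 * (p.1 : ℂ) ^ 0 -
      2 * (conj (z l) * p.2 l))) ρ := integrable_finsetSum _ fun l _ => j4 l
    rw [h1, hg]
    simp only
    rw [integral_add j3 j5, integral_add j1 j2, integral_sub (i1 2) j6, integral_const_mul,
      integral_const_mul, integral_finsetSum _ fun l _ => j4 l, ← e1, ← e1, ← e1]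
    unfold var2
    rw [Complex.add_re, Complex.re_sum]
    congr 1
    refine Finset.sum_congr rfl fun l _ => ?_
    rw [integral_sub j7 (j8 l), integral_const_mul, integral_const_mul, integral_const_mul,
      ← e1, ← e2]
  · exact hgi.re.congr (by filter_upwards [hae] with p hp using hp.symm)

/-- Chebyshev's inequality -/
lemma cheb {ρ : Measure (Sp D)} [IsFiniteMeasure ρ]
    (hρ : ∀ᵐ p ∂ρ, 0 ≤ p.1 ∧ p.1 ≤ 1 ∧ ∀ j, ‖p.2 j‖ = 1) {φ : ℕ → (Fin D → ℤ) → ℂ}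
    (hφ : ∀ (t : ℕ) (x : Fin D → ℤ), φ t x = ∫ p, mon t x p ∂ρ) {q : ℝ} {z : Fin D → ℂ}
    (hz : ∀ l, ‖z l‖ = 1) {ε : ℝ} (hε : 0 < ε) (hv : var2 φ q z ≤ ε ^ 3) :
    ρ.real {p | ε ≤ |p.1 - q| ∨ ∃ l, ε ≤ ‖p.2 l - z l‖} ≤ ε := by
  obtain ⟨h1, h2⟩ := var2_eq hρ hφ q hz
  have h3 := mul_meas_ge_le_integral_of_nonneg (μ := ρ) (f := dsq q z)
    (Filter.Eventually.of_forall fun p => by
      show 0 ≤ dsq q z p
      unfold dsq
      have : 0 ≤ ∑ l, ‖p.2 l - z l‖ ^ 2 := Finset.sum_nonneg fun l _ => by positivity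
      positivity) h2 (ε ^ 2)
  rw [h1] at h3
  have h4 : {p : Sp D | ε ≤ |p.1 - q| ∨ ∃ l, ε ≤ ‖p.2 l - z l‖} ⊆ {p | ε ^ 2 ≤ dsq q z p} := by
    rintro p (hp | ⟨l, hl⟩)
    · show ε ^ 2 ≤ dsq q z p
      unfold dsq
      have h5 : ε ^ 2 ≤ (p.1 - q) ^ 2 := by
        rw [← sq_abs (p.1 - q)]
        exact pow_le_pow_left₀ hε.le hp 2
      have : 0 ≤ ∑ l, ‖p.2 l - z l‖ ^ 2 := Finset.sum_nonneg fun l _ => by positivity
      linarith
    · show ε ^ 2 ≤ dsq q z p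
      unfold dsq
      have h5 : ε ^ 2 ≤ ‖p.2 l - z l‖ ^ 2 := pow_le_pow_left₀ hε.le hl 2
      have h6 : ‖p.2 l - z l‖ ^ 2 ≤ ∑ l, ‖p.2 l - z l‖ ^ 2 :=
        Finset.single_le_sum (f := fun l => ‖p.2 l - z l‖ ^ 2) (fun l _ => by positivity)
          (Finset.mem_univ l)
      have h7 : 0 ≤ (p.1 - q) ^ 2 := sq_nonneg _
      linarith
  have h5 := measureReal_mono (μ := ρ) h4
  have h6 : ε ^ 2 * ρ.real {p : Sp D | ε ≤ |p.1 - q| ∨ ∃ l, ε ≤ ‖p.2 l - z l‖} ≤ ε ^ 2 * ε := by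
    calc _ ≤ ε ^ 2 * ρ.real {p | ε ^ 2 ≤ dsq q z p} := mul_le_mul_of_nonneg_left h5 (by positivity)
      _ ≤ _ := h3
      _ ≤ ε ^ 3 := hv
      _ = _ := by ring
  exact le_of_mul_le_mul_left h6 (by positivity)

/-! ### the observables -/

/-- local functions -/
def Loc {α : Type*} (F : (LinkZ d → G) → α) : Prop := ∃ R : ℕ, ∀ V V' : LinkZ d → G,
  (∀ e : LinkZ d, (∀ i, |e.1 i| ≤ R) → V e = V' e) → F V = F V'

lemma Loc.comp2 {α α' α'' : Type*} {F : (LinkZ d → G) → α} {F' : (LinkZ d → G) → α'}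
    (h : Loc F) (h' : Loc F') (f : α → α' → α'') : Loc fun V => f (F V) (F' V) := by
  obtain ⟨R, hR⟩ := h
  obtain ⟨R', hR'⟩ := h'
  refine ⟨max R R', fun V V' hV => ?_⟩
  show f (F V) (F' V) = f (F V') (F' V')
  rw [hR V V' fun e he => hV e fun i => (he i).trans (by push_cast; exact le_max_left _ _),
    hR' V V' fun e he => hV e fun i => (he i).trans (by push_cast; exact le_max_right _ _)]

lemma evl_alg0 (β : ℝ) {P : LP (D + 1)} (hP : P ∈ alg0 D) :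
    TZ (fun V : LinkZ (D + 1) → G => evl n β V P) ∧
      Loc (fun V : LinkZ (D + 1) → G => evl n β V P) := by
  induction hP using Algebra.adjoin_induction with
  | mem P hP =>
    obtain ⟨γ, hγ, rfl⟩ := hP
    simp only [evl_X]
    have h1 := wilson_TZ (G := G) hγ
    refine ⟨⟨Complex.continuous_ofReal.comp (loopVar_cont β γ), fun k V => ?_, fun V V' h => ?_⟩,
      ?_⟩
    · unfold loopVar
      rw [h1.inv]
    · unfold loopVar
      rw [h1.dep V V' h]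
    · obtain ⟨R, hR⟩ := wilson_loc (G := G) γ
      refine ⟨R, fun V V' h => ?_⟩
      show ((loopVar n β γ V : ℝ) : ℂ) = loopVar n β γ V'
      unfold loopVar
      rw [hR V V' h]
  | algebraMap c =>
    have : ∀ V : LinkZ (D + 1) → G, evl n β V (algebraMap ℂ (LP (D + 1)) c) = c := fun V => by
      rw [AlgHom.commutes]
      rfl
    simp only [this]
    exact ⟨⟨continuous_const, fun _ _ => rfl, fun _ _ _ => rfl⟩, 0, fun _ _ _ => rfl⟩
  | add P Q _ _ hP hQ =>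
    simp only [map_add]
    exact ⟨⟨hP.1.cont.add hQ.1.cont, fun k V => by rw [hP.1.inv, hQ.1.inv], fun V V' h => by
      rw [hP.1.dep V V' h, hQ.1.dep V V' h]⟩, hP.2.comp2 hQ.2 fun a b => a + b⟩
  | mul P Q _ _ hP hQ =>
    simp only [map_mul]
    exact ⟨⟨hP.1.cont.mul hQ.1.cont, fun k V => by rw [hP.1.inv, hQ.1.inv], fun V V' h => by
      rw [hP.1.dep V V' h, hQ.1.dep V V' h]⟩, hP.2.comp2 hQ.2 fun a b => a * b⟩

section wst

variable [CompactSpace G] [SecondCountableTopology G] [MeasurableSpace G] [BorelSpace G]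
  (μ : Measure G) [IsProbabilityMeasure μ] [μ.IsHaarMeasure] (B : LieBasis G n)

lemma two_evl (ν : Measure (LinkZ (D + 1) → G)) (β : ℝ) (P : LP (D + 1)) (t : ℕ)
    (x : Fin D → ℤ) : two ν (fun V => evl n β V P) t x =
      ∫ V, evl n β V (bar P * Psh (pt x t) P) ∂ν := by
  unfold two
  refine integral_congr_ae (Filter.Eventually.of_forall fun V => ?_)
  simp only
  rw [map_mul, evl_bar, evl_Psh]
  rfl

include B in
/-- the centred and normalized observable -/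
lemma two_norm {β : ℝ} {ν : Measure (LinkZ (D + 1) → G)} (hν : IsInfVol μ β ν)
    {F : (LinkZ (D + 1) → G) → ℂ} (hF : Continuous F) (r : ℝ) (t : ℕ) (x : Fin D → ℤ) :
    two ν (fun V => r * (F V - ∫ W, F W ∂ν)) t x =
      ((r ^ 2 : ℝ) : ℂ) * (two ν F t x - ((‖∫ W, F W ∂ν‖ ^ 2 : ℝ) : ℂ)) := by
  have := hν.prob
  obtain ⟨m, hm⟩ : ∃ m, m = ∫ W, F W ∂ν := ⟨_, rfl⟩
  rw [← hm]
  unfold two
  have h1 : ∀ V : LinkZ (D + 1) → G, conj ((r : ℂ) * (F V - m)) *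
      ((r : ℂ) * (F (move (t : ℤ) x V) - m)) = ((r ^ 2 : ℝ) : ℂ) *
      (conj (F V) * F (move (t : ℤ) x V) - m * conj (F V) - conj m * F (move (t : ℤ) x V) +
        conj m * m) := by
    intro V
    rw [map_mul, map_sub, Complex.conj_ofReal]
    push_cast
    ring
  simp only [h1]
  rw [integral_const_mul]
  congr 1
  have c1 : Continuous fun V : LinkZ (D + 1) → G => conj (F V) := Complex.continuous_conj.comp hF
  have c2 : Continuous fun V : LinkZ (D + 1) → G => F (move (t : ℤ) x V) :=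
    hF.comp (move_cont _ _)
  have j1 : Integrable (fun V : LinkZ (D + 1) → G => conj (F V) * F (move (t : ℤ) x V)) ν :=
    intg (c1.mul c2)
  have j2 : Integrable (fun V : LinkZ (D + 1) → G => m * conj (F V)) ν := (intg c1).const_mul m
  have j3 : Integrable (fun V : LinkZ (D + 1) → G => conj m * F (move (t : ℤ) x V)) ν :=
    (intg c2).const_mul _
  have j4 : Integrable (fun V : LinkZ (D + 1) → G => conj (F V) * F (move (t : ℤ) x V) -
    m * conj (F V)) ν := j1.sub j2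
  have j5 : Integrable (fun V : LinkZ (D + 1) → G => conj (F V) * F (move (t : ℤ) x V) -
    m * conj (F V) - conj m * F (move (t : ℤ) x V)) ν := j4.sub j3
  rw [integral_add j5 (integrable_const _), integral_sub j4 j3, integral_sub j1 j2,
    integral_const_mul, integral_const_mul, integral_conj, inf_moveC μ B hν F hF (t : ℤ) x, ← hm,
    integral_const]
  have h2 : ((‖m‖ ^ 2 : ℝ) : ℂ) = conj m * m := by
    rw [← Complex.normSq_eq_norm_sq, Complex.normSq_eq_conj_mul_self]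
  rw [h2, probReal_univ, one_smul]
  ring

include μ B in
/-- **The observables with the given energy and momentum.** -/
theorem obs_exists (hD : 2 ≤ D) (hG : IsClosed (G : Set (UU N))) {q : ℝ} {z : Fin D → ℂ}
    (hq : 0 ≤ q) (hq1 : q ≤ 1) (hz : ∀ l, ‖z l‖ = 1) (h : InS n q z) {ε : ℝ} (hε : 0 < ε) :
    ∃ β₀ : ℝ, ∀ β : ℝ, β₀ ≤ β → ∀ ν : Measure (LinkZ (D + 1) → G), IsInfVol μ β ν →
      ∃ F : (LinkZ (D + 1) → G) → ℂ, TZ F ∧ Loc F ∧ ∫ V, F V ∂ν = 0 ∧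
        two ν F 0 0 = 1 ∧ var2 (two ν F) q z ≤ ε := by
  have hd : 3 ≤ D + 1 := by omega
  obtain ⟨η, hη, hη8, hηε⟩ : ∃ η : ℝ, 0 < η ∧ η ≤ 1 / 8 ∧ 16 * (D + 1) * η ≤ ε := by
    refine ⟨min (1 / 8) (ε / (16 * (D + 1))), by positivity, min_le_left _ _, ?_⟩
    have h1 := min_le_right (1 / 8) (ε / (16 * (D + 1)))
    rw [le_div_iff₀ (by positivity)] at h1
    linarith
  obtain ⟨P, hP, p0, p1, p2⟩ := h η hη
  have hL : ∀ (t : ℕ) (x : Fin D → ℤ), Lim μ n (bar P * Psh (pt x t) P) (cP n P t x) :=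
    fun t x => lim_wst μ B hd hG _
  obtain ⟨b0, -, hb0⟩ := Lim.mono μ (lim_wst μ B hd hG P) hη
  choose b1 _ hb1 using fun t : Fin 3 => Lim.mono μ (hL t 0) hη
  choose b2 _ hb2 using fun l : Fin D => Lim.mono μ (hL 0 (Pi.single l 1)) hη
  obtain ⟨b1', hb1'⟩ : ∃ b : ℝ, ∀ t, b1 t ≤ b := by
    obtain ⟨b, hb⟩ := (Set.finite_range b1).bddAbove
    exact ⟨b, fun t => hb ⟨t, rfl⟩⟩
  obtain ⟨b2', hb2'⟩ : ∃ b : ℝ, ∀ t, b2 t ≤ b := by
    obtain ⟨b, hb⟩ := (Set.finite_range b2).bddAbove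
    exact ⟨b, fun t => hb ⟨t, rfl⟩⟩
  refine ⟨max b0 (max b1' b2'), fun β hβ ν hν => ?_⟩
  have := hν.prob
  have hβ0 : b0 ≤ β := (le_max_left _ _).trans hβ
  have hβ1 : b1' ≤ β := ((le_max_left _ _).trans (le_max_right _ _)).trans hβ
  have hβ2 : b2' ≤ β := ((le_max_right _ _).trans (le_max_right _ _)).trans hβ
  obtain ⟨hTZ, hLoc⟩ := evl_alg0 (n := n) (G := G) β hP
  obtain ⟨F₀, hF₀⟩ : ∃ F₀ : (LinkZ (D + 1) → G) → ℂ, F₀ = fun V => evl n β V P := ⟨_, rfl⟩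
  rw [← hF₀] at hTZ hLoc
  -- the estimates
  have k0 : ‖∫ V, F₀ V ∂ν‖ < 2 * η := by
    have h1 := hb0 β hβ0 ν hν
    rw [hF₀]
    have h2 := norm_sub_norm_le (∫ V, evl n β V P ∂ν) (wst n (D + 1) P)
    linarith
  have k1 : ∀ t : ℕ, t ≤ 2 → ‖two ν F₀ t 0 - (q : ℂ) ^ t‖ < 2 * η := by
    intro t ht
    have h1 := hb1 ⟨t, by omega⟩ β ((hb1' _).trans hβ1) ν hν
    rw [← two_evl, ← hF₀] at h1
    have h2 := p1 t ht
    refine (norm_sub_le_norm_sub_add_norm_sub _ (cP n P t 0) _).trans_lt ?_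
    have h3 : ‖two ν F₀ t 0 - cP n P t 0‖ < η := h1
    linarith
  have k2 : ∀ l : Fin D, ‖two ν F₀ 0 (Pi.single l 1) - z l‖ < 2 * η := by
    intro l
    have h1 := hb2 l β ((hb2' _).trans hβ2) ν hν
    have e : (((0 : ℕ) : ℤ)) = 0 := rfl
    have h4 := two_evl (n := n) ν β P 0 (Pi.single l 1)
    rw [← hF₀] at h4
    rw [← h4] at h1
    have h2 := p2 l
    refine (norm_sub_le_norm_sub_add_norm_sub _ (cP n P 0 (Pi.single l 1)) _).trans_lt ?_
    have h3 : ‖two ν F₀ 0 (Pi.single l 1) - cP n P 0 (Pi.single l 1)‖ < η := h1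
    linarith
  obtain ⟨m, hm⟩ : ∃ m, m = ∫ V, F₀ V ∂ν := ⟨_, rfl⟩
  rw [← hm] at k0
  -- the norm
  have k3 := k1 0 (by norm_num)
  rw [pow_zero] at k3
  have hre : two ν F₀ 0 0 = (((two ν F₀ 0 0).re : ℝ) : ℂ) := by
    have h1 : two ν F₀ 0 0 = ∫ V, ((‖F₀ V‖ ^ 2 : ℝ) : ℂ) ∂ν := by
      unfold two
      refine integral_congr_ae (Filter.Eventually.of_forall fun V => ?_)
      show conj (F₀ V) * F₀ (move 0 0 V) = ((‖F₀ V‖ ^ 2 : ℝ) : ℂ)
      rw [move_zero, ← Complex.normSq_eq_norm_sq, Complex.normSq_eq_conj_mul_self]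
    have h2 : ∫ V, ((‖F₀ V‖ ^ 2 : ℝ) : ℂ) ∂ν = ((∫ V, ‖F₀ V‖ ^ 2 ∂ν : ℝ) : ℂ) := integral_ofReal
    rw [h1, h2, Complex.ofReal_re]
  obtain ⟨s, hs⟩ : ∃ s, s = (two ν F₀ 0 0).re - ‖m‖ ^ 2 := ⟨_, rfl⟩
  have hs2 : 1 / 2 ≤ s := by
    have h1 := (Complex.abs_re_le_norm (two ν F₀ 0 0 - 1)).trans k3.le
    rw [Complex.sub_re, Complex.one_re, abs_le] at h1
    have h2 : ‖m‖ ^ 2 ≤ (2 * η) ^ 2 := pow_le_pow_left₀ (norm_nonneg _) k0.le 2
    rw [hs]
    nlinarith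
  have hspos : 0 < s := by linarith
  obtain ⟨r, hr⟩ : ∃ r : ℝ, r = 1 / Real.sqrt s := ⟨_, rfl⟩
  have hr2 : r ^ 2 = 1 / s := by
    rw [hr, div_pow, Real.sq_sqrt hspos.le, one_pow]
  have htwo : ∀ (t : ℕ) (x : Fin D → ℤ), two ν (fun V => r * (F₀ V - m)) t x =
      ((r ^ 2 : ℝ) : ℂ) * (two ν F₀ t x - ((‖m‖ ^ 2 : ℝ) : ℂ)) := by
    intro t x
    rw [hm]
    exact two_norm μ B hν hTZ.cont r t x
  refine ⟨fun V => r * (F₀ V - m), ?_, ?_, ?_, ?_, ?_⟩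
  · exact ⟨continuous_const.mul (hTZ.cont.sub continuous_const), fun k V => by rw [hTZ.inv],
      fun V V' hV => by rw [hTZ.dep V V' hV]⟩
  · exact hLoc.comp2 hLoc fun a _ => r * (a - m)
  · rw [integral_const_mul, integral_sub (intg hTZ.cont) (integrable_const _), ← hm,
      integral_const, probReal_univ, one_smul, sub_self, mul_zero]
  · rw [htwo, hr2, hre, ← Complex.ofReal_sub, ← hs, ← Complex.ofReal_mul, one_div,
      inv_mul_cancel₀ hspos.ne', Complex.ofReal_one]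
  · -- the second moment
    obtain ⟨Q, hQ⟩ : ∃ Q : ℝ, Q = (1 - q) ^ 2 + ∑ l, ‖1 - z l‖ ^ 2 := ⟨_, rfl⟩
    have hQ0 : 0 ≤ Q := by
      rw [hQ]
      have : 0 ≤ ∑ l, ‖1 - z l‖ ^ 2 := Finset.sum_nonneg fun l _ => by positivity
      positivity
    have hv : var2 (two ν fun V => r * (F₀ V - m)) q z = r ^ 2 * (var2 (two ν F₀) q z -
        ‖m‖ ^ 2 * Q) := by
      unfold var2
      simp only [htwo]
      have e1 : ∀ l, (2 * (((r ^ 2 : ℝ) : ℂ) * (two ν F₀ 0 0 - ((‖m‖ ^ 2 : ℝ) : ℂ))) -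
          2 * (conj (z l) * (((r ^ 2 : ℝ) : ℂ) * (two ν F₀ 0 (Pi.single l 1) -
            ((‖m‖ ^ 2 : ℝ) : ℂ))))).re = r ^ 2 * ((2 * two ν F₀ 0 0 -
          2 * (conj (z l) * two ν F₀ 0 (Pi.single l 1))).re - ‖m‖ ^ 2 * ‖1 - z l‖ ^ 2) := by
        intro l
        have e2 : 2 * (((r ^ 2 : ℝ) : ℂ) * (two ν F₀ 0 0 - ((‖m‖ ^ 2 : ℝ) : ℂ))) -
          2 * (conj (z l) * (((r ^ 2 : ℝ) : ℂ) * (two ν F₀ 0 (Pi.single l 1) -
            ((‖m‖ ^ 2 : ℝ) : ℂ)))) = ((r ^ 2 : ℝ) : ℂ) * ((2 * two ν F₀ 0 0 -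
          2 * (conj (z l) * two ν F₀ 0 (Pi.single l 1))) - ((‖m‖ ^ 2 : ℝ) : ℂ) *
            (2 - 2 * conj (z l))) := by ring
        rw [e2, Complex.re_ofReal_mul, Complex.sub_re, Complex.re_ofReal_mul]
        have e3 : (2 - 2 * conj (z l) : ℂ).re = ‖1 - z l‖ ^ 2 := by
          rw [← Complex.normSq_eq_norm_sq, Complex.normSq_sub, Complex.normSq_eq_norm_sq,
            Complex.normSq_eq_norm_sq, hz, norm_one]
          simp
          ring
        rw [e3]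
      simp only [e1]
      rw [← Finset.mul_sum, Finset.sum_sub_distrib, ← Finset.mul_sum, hQ]
      have e4 : (((r ^ 2 : ℝ) : ℂ) * (two ν F₀ 2 0 - ((‖m‖ ^ 2 : ℝ) : ℂ)) - 2 * q *
          (((r ^ 2 : ℝ) : ℂ) * (two ν F₀ 1 0 - ((‖m‖ ^ 2 : ℝ) : ℂ))) + q ^ 2 *
          (((r ^ 2 : ℝ) : ℂ) * (two ν F₀ 0 0 - ((‖m‖ ^ 2 : ℝ) : ℂ)))) =
          ((r ^ 2 : ℝ) : ℂ) * ((two ν F₀ 2 0 - 2 * q * two ν F₀ 1 0 + q ^ 2 * two ν F₀ 0 0) -
            ((‖m‖ ^ 2 * (1 - q) ^ 2 : ℝ) : ℂ)) := by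
        push_cast
        ring
      rw [e4, Complex.re_ofReal_mul, Complex.sub_re, Complex.ofReal_re]
      ring
    have hv2 : var2 (two ν F₀) q z ≤ 8 * (D + 1) * η := by
      have g1 : ∀ w : ℂ, ∀ c : ℝ, ‖w‖ < c → w.re ≤ c := fun w c hw =>
        ((le_abs_self _).trans (Complex.abs_re_le_norm w)).trans hw.le
      have e1 : (two ν F₀ 2 0 - 2 * q * two ν F₀ 1 0 + q ^ 2 * two ν F₀ 0 0).re ≤ 8 * η := by
        have e2 : two ν F₀ 2 0 - 2 * q * two ν F₀ 1 0 + q ^ 2 * two ν F₀ 0 0 =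
            (two ν F₀ 2 0 - (q : ℂ) ^ 2) - ((2 * q : ℝ) : ℂ) * (two ν F₀ 1 0 - (q : ℂ) ^ 1) +
            ((q ^ 2 : ℝ) : ℂ) * (two ν F₀ 0 0 - (q : ℂ) ^ 0) := by
          push_cast
          ring
        rw [e2]
        refine ((le_abs_self _).trans (Complex.abs_re_le_norm _)).trans ?_
        refine (norm_add_le _ _).trans ?_
        have e3 := norm_sub_le (two ν F₀ 2 0 - (q : ℂ) ^ 2)
          (((2 * q : ℝ) : ℂ) * (two ν F₀ 1 0 - (q : ℂ) ^ 1))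
        rw [norm_mul, Complex.norm_real, Real.norm_of_nonneg (by positivity)] at e3 ⊢
        have a1 := k1 2 le_rfl
        have a2 := k1 1 (by norm_num)
        have a3 := k1 0 (by norm_num)
        have a4 : 2 * q * ‖two ν F₀ 1 0 - (q : ℂ) ^ 1‖ ≤ 2 * (2 * η) :=
          mul_le_mul (by linarith) a2.le (norm_nonneg _) (by norm_num)
        have a5 : q ^ 2 * ‖two ν F₀ 0 0 - (q : ℂ) ^ 0‖ ≤ 1 * (2 * η) :=
          mul_le_mul (pow_le_one₀ hq hq1) a3.le (norm_nonneg _) (by norm_num)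
        linarith
      have e4 : ∀ l, (2 * two ν F₀ 0 0 - 2 * (conj (z l) * two ν F₀ 0 (Pi.single l 1))).re ≤
          8 * η := by
        intro l
        have hzl : conj (z l) * z l = 1 := by
          rw [← Complex.normSq_eq_conj_mul_self, Complex.normSq_eq_norm_sq, hz]
          norm_num
        have e5 : 2 * two ν F₀ 0 0 - 2 * (conj (z l) * two ν F₀ 0 (Pi.single l 1)) =
            2 * (two ν F₀ 0 0 - (q : ℂ) ^ 0) -
              2 * (conj (z l) * (two ν F₀ 0 (Pi.single l 1) - z l)) := by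
          linear_combination (2 : ℂ) * (-1) * hzl
        rw [e5]
        refine ((le_abs_self _).trans (Complex.abs_re_le_norm _)).trans ?_
        refine (norm_sub_le _ _).trans ?_
        rw [norm_mul, norm_mul, norm_mul, RCLike.norm_conj, hz, one_mul, Complex.norm_ofNat]
        have a2 := k2 l
        have a3 := k1 0 (by norm_num)
        linarith
      unfold var2
      have e6 := Finset.sum_le_sum fun (l : Fin D) (_ : l ∈ Finset.univ) => e4 l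
      rw [Finset.sum_const, Finset.card_univ, Fintype.card_fin, nsmul_eq_mul] at e6
      linarith
    rw [hv, hr2]
    have h1 : 0 ≤ ‖m‖ ^ 2 * Q := by positivity
    have h2 : var2 (two ν F₀) q z - ‖m‖ ^ 2 * Q ≤ 8 * (D + 1) * η := by linarith
    calc 1 / s * (var2 (two ν F₀) q z - ‖m‖ ^ 2 * Q) ≤ 1 / s * (8 * (D + 1) * η) :=
          mul_le_mul_of_nonneg_left h2 (by positivity)
      _ ≤ 2 * (8 * (D + 1) * η) := by
          refine mul_le_mul_of_nonneg_right ?_ (by positivity)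
          rw [div_le_iff₀ hspos]
          linarith
      _ ≤ ε := by linarith

end wst

end

end Pool.Agent.Q235.EM
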