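import Mathlib
import Pool.Agent.Q235.EM.Conc

/-!
# Uniformity in the energy and the momentum
-/

open MeasureTheory Matrix Filter ComplexConjugate
open scoped Matrix.Norms.Frobenius Topology

namespace Pool.Agent.Q235.EM

open Pool.Agent.Results.MP_7f377f_mp.WilsonLoopsWeakCoupling

set_option linter.unusedSectionVars false

noncomputable section

variable {N n d D : ℕ} {G : Subgroup (UU N)}

section wst

variable [CompactSpace G] [SecondCountableTopology G] [MeasurableSpace G] [BorelSpace G]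
  (μ : Measure G) [IsProbabilityMeasure μ] [μ.IsHaarMeasure] (B : LieBasis G n)

/-- the existence of an observable with the given energy and momentum -/
def Good (ν : Measure (LinkZ (D + 1) → G)) (δ : ℝ) (b : Sp D) : Prop :=
  ∃ F : (LinkZ (D + 1) → G) → ℂ, TZ F ∧ Loc F ∧ ∫ V, F V ∂ν = 0 ∧ two ν F 0 0 = 1 ∧
    ∀ ρ : Measure (Sp D), IsFiniteMeasure ρ → (∀ᵐ q ∂ρ, 0 ≤ q.1 ∧ q.1 ≤ 1 ∧ ∀ j, ‖q.2 j‖ = 1) →
      (∀ (t : ℕ) (x : Fin D → ℤ), two ν F t x = ∫ q, mon t x q ∂ρ) →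
      ρ.real {p | δ ≤ |p.1 - b.1| ∨ ∃ l, δ ≤ ‖p.2 l - b.2 l‖} ≤ δ

/-- the compact part of the cone -/
def cone (D : ℕ) (r : ℝ) : Set (Sp D) :=
  {b | r ≤ b.1 ∧ b.1 ≤ 1 ∧ (∀ j, ‖b.2 j‖ = 1) ∧ b.1 * (2 + lam b.2) ≤ b.1 ^ 2 + 1}

lemma cone_compact (r : ℝ) : IsCompact (cone D r) := by
  have hc : IsClosed (cone D r) := by
    have hl : Continuous fun b : Sp D => lam b.2 := by
      unfold lam ml
      fun_prop
    refine (isClosed_le continuous_const continuous_fst).inter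
      ((isClosed_le continuous_fst continuous_const).inter (IsClosed.inter ?_
        (isClosed_le (continuous_fst.mul (continuous_const.add hl)) (by fun_prop))))
    have : {b : Sp D | ∀ j, ‖b.2 j‖ = 1} = ⋂ j, {b : Sp D | ‖b.2 j‖ = 1} := by
      ext b; simp
    show IsClosed {b : Sp D | ∀ j, ‖b.2 j‖ = 1}
    rw [this]
    exact isClosed_iInter fun j => isClosed_eq (by fun_prop) continuous_const
  refine Metric.isCompact_of_isClosed_isBounded hc ?_
  refine (Metric.isBounded_closedBall (x := (0 : Sp D)) (r := |r| + 1)).subset fun b hb => ?_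
  rw [mem_closedBall_zero_iff, Prod.norm_def]
  refine max_le ?_ ?_
  · rw [Real.norm_eq_abs, abs_le]
    have h1 := neg_abs_le r
    have h2 := abs_nonneg r
    exact ⟨by linarith [hb.1], by linarith [hb.2.1]⟩
  · rw [pi_norm_le_iff_of_nonneg (by positivity)]
    intro j
    rw [hb.2.2.1 j]
    linarith [abs_nonneg r]

include μ B in
/-- **The observables, uniformly in the energy and the momentum.** -/
theorem net (hD : 2 ≤ D) (hG : IsClosed (G : Set (UU N))) (hn : 0 < n) {r : ℝ} (hr : 0 < r)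
    {δ : ℝ} (hδ : 0 < δ) : ∃ β₀ : ℝ, ∀ β : ℝ, β₀ ≤ β → ∀ ν : Measure (LinkZ (D + 1) → G),
      IsInfVol μ β ν → ∀ b ∈ cone D r, Good ν δ b := by
  refine (cone_compact r).induction_on (p := fun S => ∃ β₀ : ℝ, ∀ β : ℝ, β₀ ≤ β →
    ∀ ν : Measure (LinkZ (D + 1) → G), IsInfVol μ β ν → ∀ b ∈ S, Good ν δ b) ?_ ?_ ?_ ?_
  · exact ⟨0, fun _ _ _ _ b hb => absurd hb (Set.notMem_empty b)⟩
  · rintro s t hst ⟨β₀, h⟩
    exact ⟨β₀, fun β hβ ν hν b hb => h β hβ ν hν b (hst hb)⟩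
  · rintro s t ⟨β₀, h⟩ ⟨β₁, h'⟩
    refine ⟨max β₀ β₁, fun β hβ ν hν b hb => ?_⟩
    rcases hb with hb | hb
    · exact h β ((le_max_left _ _).trans hβ) ν hν b hb
    · exact h' β ((le_max_right _ _).trans hβ) ν hν b hb
  · intro a ha
    have ha0 : 0 < a.1 := hr.trans_le ha.1
    have h1 : InS n a.1 a.2 := InS.cone μ B hD hG hn ha.2.2.1 ha0 ha.2.1 (by
      have h2 := ha.2.2.2
      have h3 : a.1 + 1 / a.1 = (a.1 ^ 2 + 1) / a.1 := by field_simp
      rw [h3, le_div_iff₀ ha0]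
      linarith)
    obtain ⟨β₀, h2⟩ := obs_exists μ B hD hG ha0.le ha.2.1 ha.2.2.1 h1
      (show (0 : ℝ) < (δ / 2) ^ 3 by positivity)
    refine ⟨Metric.ball a (δ / 2), mem_nhdsWithin_of_mem_nhds
      (Metric.ball_mem_nhds a (by positivity)), β₀, fun β hβ ν hν b hb => ?_⟩
    obtain ⟨F, k1, k2, k3, k4, k5⟩ := h2 β hβ ν hν
    refine ⟨F, k1, k2, k3, k4, fun ρ hρ hs hrep => ?_⟩
    have h3 := cheb hs hrep ha.2.2.1 (show (0 : ℝ) < δ / 2 by positivity) k5
    rw [mem_ball_iff_norm, Prod.norm_def] at hb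
    have hb1 : |b.1 - a.1| < δ / 2 := (le_max_left _ _).trans_lt hb
    have hb2 : ∀ l, ‖b.2 l - a.2 l‖ < δ / 2 := fun l =>
      ((norm_le_pi_norm (b.2 - a.2) l).trans (le_max_right _ _)).trans_lt hb
    have h4 : {p : Sp D | δ ≤ |p.1 - b.1| ∨ ∃ l, δ ≤ ‖p.2 l - b.2 l‖} ⊆
        {p | δ / 2 ≤ |p.1 - a.1| ∨ ∃ l, δ / 2 ≤ ‖p.2 l - a.2 l‖} := by
      rintro p (hp | ⟨l, hl⟩)
      · left
        have hp' : δ ≤ |p.1 - b.1| := hp
        have := abs_sub_le p.1 a.1 b.1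
        rw [abs_sub_comm a.1 b.1] at this
        show δ / 2 ≤ |p.1 - a.1|
        linarith
      · right
        refine ⟨l, ?_⟩
        have := norm_sub_le_norm_sub_add_norm_sub (p.2 l) (a.2 l) (b.2 l)
        rw [norm_sub_rev (a.2 l) (b.2 l)] at this
        linarith [hb2 l]
    exact (measureReal_mono h4).trans (by linarith)

end wst

end

end Pool.Agent.Q235.EM
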